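import Mathlib

namespace Pool.Agent.H143R3.Sausage

open MeasureTheory ProbabilityTheory Set Filter Topology
open scoped ENNReal NNReal

/-- The centred Gaussian law on `ℝ^d` with covariance `s` times the identity. -/
noncomputable def gam (d : ℕ) (s : ℝ≥0) : Measure (EuclideanSpace ℝ (Fin d)) :=
  (stdGaussian (EuclideanSpace ℝ (Fin d))).map (fun z => Real.sqrt s • z)

/-- `X` is a standard Brownian motion in `ℝ^d` started at `0`, under the measure `P`:
it starts at `0`, has continuous paths almost surely, has independent increments, and the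
increment over `[s, t]` is a centred Gaussian vector with covariance `(t - s)` times the
identity. -/
structure IsBM {d : ℕ} {Ω : Type*} [MeasurableSpace Ω] (P : Measure Ω)
    (X : ℝ≥0 → Ω → EuclideanSpace ℝ (Fin d)) : Prop where
  measurable : ∀ t, Measurable (X t)
  zero : ∀ᵐ ω ∂P, X 0 ω = 0
  cont : ∀ᵐ ω ∂P, Continuous (fun t => X t ω)
  indep : HasIndepIncrements X P
  law : ∀ s t : ℝ≥0, s ≤ t → P.map (fun ω => X t ω - X s ω) = gam d (t - s)

variable {d : ℕ}

instance (s : ℝ≥0) : IsProbabilityMeasure (gam d s) := by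
  unfold gam
  exact Measure.isProbabilityMeasure_map (by fun_prop)

lemma charFun_gam (s : ℝ≥0) (t : EuclideanSpace ℝ (Fin d)) :
    charFun (gam d s) t = Complex.exp (-(s * ‖t‖ ^ 2 / 2)) := by
  unfold gam
  rw [charFun_map_smul, charFun_stdGaussian]
  congr 1
  rw [norm_smul]
  have h : (Real.sqrt (s:ℝ)) ^ 2 = s := Real.sq_sqrt s.2
  have h2 : ‖Real.sqrt (s:ℝ)‖ = Real.sqrt (s:ℝ) := by
    rw [Real.norm_eq_abs, abs_of_nonneg (Real.sqrt_nonneg _)]
  rw [h2]
  push_cast
  have h3 : ((Real.sqrt (s:ℝ) : ℝ) : ℂ) ^ 2 = ((s : ℝ) : ℂ) := by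
    rw [← Complex.ofReal_pow, h]
  rw [mul_pow, h3]
  ring

/-- the law of the difference of independent Gaussians. -/
lemma gam_prod_sub (s t : ℝ≥0) :
    ((gam d s).prod (gam d t)).map (fun p => p.1 - p.2) = gam d (s + t) := by
  have h0 : (fun p : EuclideanSpace ℝ (Fin d) × EuclideanSpace ℝ (Fin d) => p.1 - p.2)
      = (fun p => p.1 + p.2) ∘ (Prod.map id (fun z => (-1 : ℝ) • z)) := by
    ext1 p
    simp [sub_eq_add_neg]
  have h1 : ((gam d s).prod (gam d t)).map (Prod.map id (fun z => (-1 : ℝ) • z))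
      = (gam d s).prod ((gam d t).map (fun z => (-1 : ℝ) • z)) := by
    rw [← Measure.map_prod_map _ _ measurable_id (by fun_prop)]
    simp
  rw [h0, ← Measure.map_map (by fun_prop) (by fun_prop), h1]
  have : IsProbabilityMeasure ((gam d t).map (fun z => (-1 : ℝ) • z)) :=
    Measure.isProbabilityMeasure_map (by fun_prop)
  change Measure.conv _ _ = _
  have : IsFiniteMeasure (gam d s ∗ (gam d t).map (fun z => (-1 : ℝ) • z)) := by
    infer_instance
  apply Measure.ext_of_charFun
  ext u
  rw [charFun_conv, charFun_map_smul, charFun_gam, charFun_gam, charFun_gam, ← Complex.exp_add]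
  congr 1
  rw [norm_smul]
  simp
  ring

lemma gaussian_interval (c r : ℝ) :
    gaussianReal 0 1 (Icc (c - r) (c + r)) ≤ ENNReal.ofReal r := by
  rw [gaussianReal_apply _ (by norm_num)]
  calc ∫⁻ x in Icc (c - r) (c + r), gaussianPDF 0 1 x
      ≤ ∫⁻ x in Icc (c - r) (c + r), ENNReal.ofReal (1/2) := by
        apply lintegral_mono
        intro x
        unfold gaussianPDF
        apply ENNReal.ofReal_le_ofReal
        unfold gaussianPDFReal
        have h1 : (2:ℝ) ≤ Real.sqrt (2 * Real.pi * (1:ℝ≥0)) := by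
          apply Real.le_sqrt_of_sq_le
          have := Real.pi_gt_three
          norm_num
          linarith
        have h2 : Real.exp (-(x - 0) ^ 2 / (2 * (1:ℝ≥0))) ≤ 1 := by
          apply Real.exp_le_one_iff.mpr
          have : 0 ≤ (x - 0)^2 := sq_nonneg _
          have h3 : (0:ℝ) < 2 * ((1:ℝ≥0):ℝ) := by norm_num
          apply div_nonpos_of_nonpos_of_nonneg (by linarith) h3.le
        have h3 : (Real.sqrt (2 * Real.pi * (1:ℝ≥0)))⁻¹ ≤ 1/2 := by
          rw [inv_eq_one_div]
          exact one_div_le_one_div_of_le (by norm_num) h1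
        calc _ ≤ (1/2 : ℝ) * 1 := by
              apply mul_le_mul h3 h2 (Real.exp_pos _).le (by norm_num)
          _ = 1/2 := by ring
    _ = ENNReal.ofReal r := by
        rw [lintegral_const, Measure.restrict_apply MeasurableSet.univ, univ_inter,
          Real.volume_Icc, ← ENNReal.ofReal_mul (by norm_num)]
        congr 1
        ring

/-- Gaussian small ball estimate, dimension at least `3`. -/
lemma smallBall (hd : 3 ≤ d) (s : ℝ≥0) (hs : 0 < s) (c : EuclideanSpace ℝ (Fin d)) (r : ℝ)
    (hr : 0 ≤ r) :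
    gam d s (Metric.closedBall c r) ≤ ENNReal.ofReal ((r / Real.sqrt s) ^ 3) := by
  have hs' : 0 < Real.sqrt s := Real.sqrt_pos.mpr (by exact_mod_cast hs)
  unfold gam
  rw [Measure.map_apply (by fun_prop) Metric.isClosed_closedBall.measurableSet,
    ← map_pi_eq_stdGaussian,
    Measure.map_apply (by fun_prop)
      ((Metric.isClosed_closedBall.measurableSet).preimage (by fun_prop))]
  set ρ : ℝ := r / Real.sqrt s with hρ
  have hρ0 : 0 ≤ ρ := by positivity
  have hsub : (WithLp.toLp 2 : (Fin d → ℝ) → EuclideanSpace ℝ (Fin d)) ⁻¹'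
      ((fun z => Real.sqrt s • z) ⁻¹' Metric.closedBall c r) ⊆
      Set.pi univ (fun i => Icc (c i / Real.sqrt s - ρ) (c i / Real.sqrt s + ρ)) := by
    intro z hz
    simp only [mem_preimage, Metric.mem_closedBall] at hz
    intro i _
    have h1 : |Real.sqrt s * z i - c i| ≤ r := by
      have := EuclideanSpace.dist_eq (Real.sqrt s • (WithLp.toLp 2 z)) c
      have h2 : ‖(Real.sqrt s • (WithLp.toLp 2 z) - c) i‖ ≤
          ‖Real.sqrt s • (WithLp.toLp 2 z) - c‖ := by
        exact PiLp.norm_apply_le (Real.sqrt s • (WithLp.toLp 2 z) - c) i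
      rw [← dist_eq_norm] at h2
      have h3 := h2.trans hz
      simpa using h3
    rw [abs_le] at h1
    constructor
    · rw [hρ, ← sub_div, div_le_iff₀ hs']; linarith [h1.1]
    · rw [hρ, ← add_div, le_div_iff₀ hs']; linarith [h1.2]
  refine (measure_mono hsub).trans ?_
  rw [Measure.pi_pi]
  have hfac : ∀ i : Fin d, gaussianReal 0 1 (Icc (c i / Real.sqrt s - ρ) (c i / Real.sqrt s + ρ))
      ≤ min 1 (ENNReal.ofReal ρ) := fun i => le_min prob_le_one (gaussian_interval _ _)
  calc ∏ i : Fin d, gaussianReal 0 1 (Icc (c i / Real.sqrt s - ρ) (c i / Real.sqrt s + ρ))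
      ≤ ∏ _i : Fin d, min 1 (ENNReal.ofReal ρ) := Finset.prod_le_prod' (fun i _ => hfac i)
    _ = (min 1 (ENNReal.ofReal ρ)) ^ d := by simp
    _ ≤ (min 1 (ENNReal.ofReal ρ)) ^ 3 := pow_le_pow_right_of_le_one' (min_le_left _ _) hd
    _ ≤ (ENNReal.ofReal ρ) ^ 3 := by gcongr; exact min_le_right _ _
    _ = ENNReal.ofReal (ρ ^ 3) := by rw [ENNReal.ofReal_pow hρ0]

end Pool.Agent.H143R3.Sausage
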