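import Pool.Agent.H143R3.BM9

namespace Pool.Agent.H143R3.Sausage

open MeasureTheory ProbabilityTheory Set Filter Topology
open scoped ENNReal NNReal

set_option linter.unusedSectionVars false

universe u₁ u₂

variable {d : ℕ} {Ω' : Type u₁} [MeasurableSpace Ω'] {P' : Measure Ω'} [IsProbabilityMeasure P']
  {W : ℝ≥0 → Ω' → EuclideanSpace ℝ (Fin d)}

/-- arithmetic of the block estimate. -/
lemma block_arith {lam η κ T M h g b' δ v F : ℝ} (hlam : 0 ≤ lam) (hη : 0 < η)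
    (hh : 0 < h) (hg : 0 ≤ g) (hb' : 0 ≤ b')
    (hδ : δ ≤ η * h) (hT : T = (b' + g) * h) (hM : T = M / 2 + (1 + g) * h)
    (hF : M * (κ - 2 * η) ≤ F) (hMl : 4 * ((1 + g) * h * κ) ≤ η * M)
    (hlam0 : lam * (b' * v) ^ 2 ≤ η * T) :
    lam * (b' * δ) - lam * F + (lam * (b' * v)) ^ 2 ≤ -(lam * T * (2 * κ - 7 * η)) := by
  have h1 : b' * δ ≤ η * T := by
    have h2 : b' * δ ≤ b' * (η * h) := mul_le_mul_of_nonneg_left hδ hb'
    have h3 : 0 ≤ g * (η * h) := by positivity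
    rw [hT]
    linarith
  have h4 : M = 2 * T - 2 * ((1 + g) * h) := by linarith
  have h5 : 0 ≤ (1 + g) * h := by positivity
  have h6 : M ≤ 2 * T := by linarith
  have h7 : 2 * T * κ - 5 * (η * T) ≤ F := by
    refine le_trans ?_ hF
    have h8 : M * (κ - 2 * η) = 2 * T * κ - 4 * (η * T) - 2 * ((1 + g) * h * κ) +
        4 * ((1 + g) * h * η) := by
      rw [h4]; ring
    rw [h8]
    have h9 : 0 ≤ (1 + g) * h * η := by positivity
    have h10 : η * M ≤ η * (2 * T) := mul_le_mul_of_nonneg_left h6 hη.le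
    linarith
  have h11 : (lam * (b' * v)) ^ 2 ≤ lam * (η * T) := by
    have : (lam * (b' * v)) ^ 2 = lam * (lam * (b' * v) ^ 2) := by ring
    rw [this]
    exact mul_le_mul_of_nonneg_left hlam0 hlam
  have h12 : lam * (b' * δ) ≤ lam * (η * T) := mul_le_mul_of_nonneg_left h1 hlam
  have h13 : lam * (2 * T * κ - 5 * (η * T)) ≤ lam * F := mul_le_mul_of_nonneg_left h7 hlam
  linarith

/-- quantitative survival bound for small intensity. -/
theorem quant_bound (hd : 3 ≤ d) {a : ℝ} (ha : 0 < a) (hW : IsBM P' W) {κ : ℝ}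
    (hκ : Tendsto (fun t : ℝ≥0 => (∫⁻ ω, volume (sausage W a t ω) ∂P') / t) atTop
      (𝓝 (ENNReal.ofReal κ))) {ε : ℝ} (hε : 0 < ε) (hε1 : ε ≤ 1) :
    ∃ lam₀ : ℝ, 0 < lam₀ ∧ ∃ T : ℝ, 0 < T ∧ ∀ lam : ℝ≥0, (lam : ℝ) < lam₀ →
      ∀ {Ω : Type u₂} [MeasurableSpace Ω] {P : Measure Ω} [IsProbabilityMeasure P]
        {X : ℝ≥0 → Ω → EuclideanSpace ℝ (Fin d)} {x : ℕ → Ω → EuclideanSpace ℝ (Fin d)}
        {Y : ℕ → ℝ≥0 → Ω → EuclideanSpace ℝ (Fin d)}, TrapModel P lam X x Y → ∀ t : ℝ≥0,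
        P {ω | (t : ℝ≥0∞) < hitTime a X x Y ω} ≤
          ENNReal.ofReal (Real.exp (-(lam * (2 * κ - 7 * (ε * κ / 8)) * (t - T)))) := by
  have hκ0 := rate_pos hd hW ha hκ
  set η : ℝ := ε * κ / 8 with hηdef
  have hη : 0 < η := by positivity
  obtain ⟨m, M₀, hM₀⟩ := grid_approx hW a hκ hη
  set h : ℝ≥0 := dm m / 2 with hhdef
  have hdm : 0 < dm m := by unfold dm; positivity
  have hh : 0 < h := by positivity
  have h2h : 2 * h = dm m := by
    rw [hhdef, mul_div_cancel₀ _ (by norm_num : (2:ℝ≥0) ≠ 0)]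
  have hhr : (0:ℝ) < h := by exact_mod_cast hh
  have hpow : (2:ℝ) ^ m * h = 1 / 2 := by
    have h1 : (2:ℝ) ^ m * (dm m : ℝ) = 1 := by exact_mod_cast dm_mul m
    have h3 : (dm m : ℝ) = 2 * h := by exact_mod_cast h2h.symm
    rw [h3] at h1
    linarith
  -- the gap
  have htl : Tendsto (fun g => (tl a h g * vb d a).toReal) atTop (𝓝 0) := by
    have h1 := ENNReal.Tendsto.mul_const (tl_tendsto a ha h hh)
      (Or.inr (vb_ne_top (d := d) a))
    rw [zero_mul] at h1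
    have h3 := (ENNReal.tendsto_toReal (ENNReal.zero_ne_top)).comp h1
    rw [ENNReal.toReal_zero] at h3
    exact h3
  obtain ⟨g, hg⟩ : ∃ g, (tl a h g * vb d a).toReal < η * h :=
    (htl.eventually (gt_mem_nhds (by positivity))).exists
  -- the number of unit time steps
  obtain ⟨M, hM⟩ : ∃ M : ℕ, max (M₀ : ℝ) (4 * ((1 + g) * h * κ) / η) ≤ M := exists_nat_ge _
  have hMM₀ : M₀ ≤ M := by exact_mod_cast (le_max_left _ _).trans hM
  have hMl : 4 * ((1 + (g:ℝ)) * h * κ) ≤ η * M := by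
    have := (le_max_right _ _).trans hM
    rw [div_le_iff₀ hη] at this
    linarith
  set b' : ℕ := M * 2 ^ m + 1 with hb'
  set T : ℝ := ((b' : ℝ) + g) * h with hT
  have hTpos : 0 < T := by positivity
  have hTM : T = M / 2 + (1 + g) * h := by
    rw [hT, hb']
    push_cast
    have : ((M:ℝ) * 2 ^ m + 1 + g) * h = M * (2 ^ m * h) + (1 + g) * h := by ring
    rw [this, hpow]
    ring
  set v : ℝ := (vb d a).toReal with hv
  refine ⟨η * T / ((b' * v) ^ 2 + 1), by positivity, T, hTpos, ?_⟩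
  intro lam hlam Ω _ P _ X x Y hMod t
  have hlam0 : (lam : ℝ) * (b' * v) ^ 2 ≤ η * T := by
    rw [lt_div_iff₀ (by positivity)] at hlam
    have : (0:ℝ) ≤ lam := lam.2
    nlinarith
  set q : ℕ := ⌊(t : ℝ) / T⌋₊ with hq
  have hqT : (q : ℝ) * T ≤ t := by
    have := Nat.floor_le (div_nonneg (NNReal.coe_nonneg t) hTpos.le)
    rwa [← hq, le_div_iff₀ hTpos] at this
  have hqT2 : (t : ℝ) - T ≤ q * T := by
    have := Nat.lt_floor_add_one ((t : ℝ) / T)
    rw [← hq, div_lt_iff₀ hTpos] at this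
    linarith
  have hsurv := survival_le hMod hW a h (q * (b' + g)) t (by
    intro j hj
    have h1 : ((j : ℝ≥0) * h : ℝ≥0) ≤ ((q * (b' + g) : ℕ) : ℝ≥0) * h := by gcongr
    refine h1.trans ?_
    have h3 : (((q * (b' + g) : ℕ) : ℝ≥0) * h : ℝ≥0) = ((q : ℝ) * T).toNNReal := by
      rw [← NNReal.coe_inj, Real.coe_toNNReal _ (by positivity), hT]
      push_cast
      ring
    rw [h3]
    exact Real.toNNReal_le_iff_le_coe.mpr hqT)
  have hlap := laplace_blocks hd hMod.particle hW ha hh b' g q (lam := (lam : ℝ)) lam.2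
  have hF : ∫⁻ ω, V P' W a h (Finset.range b') (grid X h ω) ∂P = ud P' W a M m := by
    rw [lintegral_V_grid hMod.particle hW, h2h]
    rfl
  rw [hF] at hlap
  refine hsurv.trans (hlap.trans ?_)
  apply ENNReal.ofReal_le_ofReal
  apply Real.exp_le_exp.mpr
  have hblock := block_arith (lam := (lam : ℝ)) (η := η) (κ := κ) (T := T) (M := (M : ℝ))
    (h := (h : ℝ)) (g := (g : ℝ)) (b' := (b' : ℝ)) (δ := (tl a h g * vb d a).toReal) (v := v)
    (F := (ud P' W a M m).toReal) lam.2 hη hhr (Nat.cast_nonneg _) (Nat.cast_nonneg _)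
    hg.le hT hTM (hM₀ M hMM₀) hMl hlam0
  have hpos : 0 ≤ (lam : ℝ) * (2 * κ - 7 * η) := by
    refine mul_nonneg lam.2 ?_
    have : η ≤ κ / 8 := by
      rw [hηdef]
      have : ε * κ ≤ 1 * κ := mul_le_mul_of_nonneg_right hε1 hκ0.le
      linarith
    linarith
  calc (q : ℝ) * (lam * (b' * (tl a h g * vb d a).toReal) - lam * (ud P' W a M m).toReal +
        (lam * (b' * v)) ^ 2)
      ≤ q * (-(lam * T * (2 * κ - 7 * η))) :=
        mul_le_mul_of_nonneg_left hblock (Nat.cast_nonneg q)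
    _ = -((lam * (2 * κ - 7 * η)) * (q * T)) := by ring
    _ ≤ -((lam * (2 * κ - 7 * η)) * (t - T)) := by
        have := mul_le_mul_of_nonneg_left hqT2 hpos
        linarith

/-- survival bound for large times. -/
theorem eventual_bound (hd : 3 ≤ d) {a : ℝ} (ha : 0 < a) (hW : IsBM P' W) {κ : ℝ}
    (hκ : Tendsto (fun t : ℝ≥0 => (∫⁻ ω, volume (sausage W a t ω) ∂P') / t) atTop
      (𝓝 (ENNReal.ofReal κ))) {ε : ℝ} (hε : 0 < ε) (hε1 : ε ≤ 1) :
    ∃ lam₀ : ℝ, 0 < lam₀ ∧ ∀ lam : ℝ≥0, (lam : ℝ) < lam₀ →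
      ∀ {Ω : Type u₂} [MeasurableSpace Ω] {P : Measure Ω} [IsProbabilityMeasure P]
        {X : ℝ≥0 → Ω → EuclideanSpace ℝ (Fin d)} {x : ℕ → Ω → EuclideanSpace ℝ (Fin d)}
        {Y : ℕ → ℝ≥0 → Ω → EuclideanSpace ℝ (Fin d)}, TrapModel P lam X x Y →
        ∀ᶠ t : ℝ≥0 in atTop, P {ω | (t : ℝ≥0∞) < hitTime a X x Y ω} ≤
          ENNReal.ofReal (Real.exp (-((2 - ε) * (lam * κ) * t))) := by
  have hκ0 := rate_pos hd hW ha hκ
  obtain ⟨lam₀, hlam₀, T, hT, hmain⟩ := quant_bound hd ha hW hκ hε hε1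
  refine ⟨lam₀, hlam₀, ?_⟩
  intro lam hlam Ω _ P _ X x Y hMod
  have hη : 0 < ε * κ / 8 := by positivity
  have hc : 0 ≤ 2 * κ - 7 * (ε * κ / 8) := by
    have : ε * κ ≤ 1 * κ := mul_le_mul_of_nonneg_right hε1 hκ0.le
    linarith
  filter_upwards [eventually_ge_atTop
    (((2 * κ - 7 * (ε * κ / 8)) * T / (ε * κ / 8)).toNNReal)] with t ht
  refine (hmain lam hlam hMod t).trans ?_
  apply ENNReal.ofReal_le_ofReal
  apply Real.exp_le_exp.mpr
  have ht' : (2 * κ - 7 * (ε * κ / 8)) * T ≤ (ε * κ / 8) * t := by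
    have := Real.toNNReal_le_iff_le_coe.mp ht
    rw [div_le_iff₀ hη] at this
    linarith
  have h1 := mul_le_mul_of_nonneg_left ht' lam.2
  have h2 : (lam : ℝ) * (2 * κ - 7 * (ε * κ / 8)) * (t - T) - (2 - ε) * (lam * κ) * t =
      lam * ((ε * κ / 8) * t) - lam * ((2 * κ - 7 * (ε * κ / 8)) * T) := by ring
  have h3 : (lam : ℝ) = lam.1 := rfl
  rw [h3] at h2 ⊢
  linarith

end Pool.Agent.H143R3.Sausage
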