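import Pool.Agent.H143R3.BM10

namespace Pool.Agent.H143R3.Sausage

open MeasureTheory ProbabilityTheory Set Filter Topology
open scoped ENNReal NNReal

set_option linter.unusedSectionVars false

variable {d : ℕ} {Ω' : Type*} [MeasurableSpace Ω'] {P' : Measure Ω'} [IsProbabilityMeasure P']
  {W : ℝ≥0 → Ω' → EuclideanSpace ℝ (Fin d)}

/-- a large ball carries at least half of the Gaussian mass, uniformly for variance at most
`2`. -/
lemma exists_radius (d : ℕ) : ∃ R : ℝ, 0 < R ∧ ∀ s : ℝ≥0, s ≤ 2 →
    1 / 2 ≤ gam d s (Metric.ball 0 R) := by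
  have h1 : Tendsto (fun n : ℕ => stdGaussian (EuclideanSpace ℝ (Fin d)) (Metric.ball 0 n)) atTop
      (𝓝 (stdGaussian (EuclideanSpace ℝ (Fin d)) (⋃ n : ℕ, Metric.ball 0 n))) := by
    refine tendsto_measure_iUnion_atTop ?_
    intro m n hmn
    exact Metric.ball_subset_ball (by exact_mod_cast hmn)
  rw [Metric.iUnion_ball_nat, measure_univ] at h1
  obtain ⟨n, hn1, hn2⟩ := ((h1.eventually (lt_mem_nhds (show (1/2 : ℝ≥0∞) < 1 by
    simp))).and (eventually_ge_atTop 1)).exists
  have hn0 : (0:ℝ) < n := by exact_mod_cast hn2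
  refine ⟨2 * n, by positivity, fun s hs => ?_⟩
  refine hn1.le.trans ?_
  unfold gam
  rw [Measure.map_apply (by fun_prop) Metric.isOpen_ball.measurableSet]
  refine measure_mono ?_
  intro z hz
  simp only [mem_preimage, Metric.mem_ball, dist_zero_right] at hz ⊢
  rw [norm_smul, Real.norm_eq_abs, abs_of_nonneg (Real.sqrt_nonneg _)]
  have h2 : Real.sqrt s ≤ 2 := by
    rw [Real.sqrt_le_left (by norm_num)]
    have : (s : ℝ) ≤ 2 := by exact_mod_cast hs
    linarith
  calc Real.sqrt s * ‖z‖ ≤ 2 * ‖z‖ := by gcongr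
    _ < 2 * n := by gcongr

/-- first passage estimate for a fixed centre. -/
lemma hit_le (hW : IsBM P' W) (a : ℝ) {R : ℝ} (hR : ∀ s : ℝ≥0, s ≤ 2 →
    1 / 2 ≤ gam d s (Metric.ball 0 R)) (h : ℝ≥0) (N : ℕ) (hN : N * h = 1)
    (z : EuclideanSpace ℝ (Fin d)) :
    P' {ω | ∃ j < N + 1, dist z (psum (fun i => inc W h i ω) j) < a} ≤
      2 * P' {ω | dist z (psum (fun i => inc W h i ω) (2 * N)) < a + R} := by
  set ξ : Ω' → ℕ → EuclideanSpace ℝ (Fin d) := fun ω i => inc W h i ω with hξ
  have hξm : Measurable ξ := measurable_pi_iff.mpr (inc_measurable hW h)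
  have hpm : ∀ j, Measurable (fun ω => psum (ξ ω) j) := fun j =>
    (measurable_pi_apply j).comp (measurable_psum.comp hξm)
  have hN1 : 1 ≤ N := by
    rcases Nat.eq_zero_or_pos N with h0 | h0
    · rw [h0] at hN; simp at hN
    · exact h0
  set A : ℕ → Set Ω' := fun j => {ω | dist z (psum (ξ ω) j) < a ∧
    ∀ i < j, ¬ dist z (psum (ξ ω) i) < a} with hA
  set D : ℕ → Set Ω' := fun j => {ω | psum (ξ ω) (2 * N) - psum (ξ ω) j ∈ Metric.ball 0 R} with hD
  have hset : ∀ j, MeasurableSet {ω | dist z (psum (ξ ω) j) < a} := fun j =>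
    measurableSet_lt (measurable_const.dist (hpm j)) measurable_const
  have hAm : ∀ j, MeasurableSet (A j) := by
    intro j
    have : A j = {ω | dist z (psum (ξ ω) j) < a} ∩
        ⋂ i ∈ Finset.range j, {ω | dist z (psum (ξ ω) i) < a}ᶜ := by
      ext ω; simp [hA]
    rw [this]
    exact (hset j).inter (Finset.measurableSet_biInter _ fun i _ => (hset i).compl)
  have hDm : ∀ j, MeasurableSet (D j) := fun j =>
    ((hpm _).sub (hpm _)) Metric.isOpen_ball.measurableSet
  have hpsum : ∀ ω j, psum (ξ ω) j = grid W h ω j - grid W h ω 0 := by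
    intro ω j
    unfold psum
    simp only [hξ, inc, grid]
    rw [Finset.sum_range_sub (fun j => W (j * h) ω)]
  have hDP : ∀ j < N + 1, 1 / 2 ≤ P' (D j) := by
    intro j hj
    have h1 : D j = (fun ω => W ((2 * N : ℕ) * h) ω - W (j * h) ω) ⁻¹' Metric.ball 0 R := by
      ext ω
      simp only [hD, Set.mem_ofPred_eq, mem_preimage]
      rw [hpsum, hpsum]
      unfold grid
      rw [sub_sub_sub_cancel_right]
    have hm : Measurable (fun ω => W ((2 * N : ℕ) * h) ω - W (j * h) ω) :=
      (hW.measurable _).sub (hW.measurable _)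
    rw [h1, ← Measure.map_apply hm
      Metric.isOpen_ball.measurableSet, hW.law _ _ (by gcongr; omega)]
    refine hR _ ?_
    refine tsub_le_self.trans ?_
    push_cast
    rw [mul_assoc, hN, mul_one]
  have hindep : ∀ j < N + 1, P' (A j ∩ D j) = P' (A j) * P' (D j) := by
    intro j hj
    have h1 := (inc_indep hW h).indepFun_finset (Finset.range j) (Finset.Ico j (2 * N)) (by
      rw [Finset.disjoint_left]
      intro i hi hi'
      rw [Finset.mem_range] at hi
      rw [Finset.mem_Ico] at hi'
      omega) (inc_measurable hW h)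
    -- partial sums as functions of the first `j` increments
    set S1 : ((i : Finset.range j) → EuclideanSpace ℝ (Fin d)) → ℕ → EuclideanSpace ℝ (Fin d) :=
      fun η i => ∑ l : Finset.range j, if l.1 < i then η l else 0 with hS1
    have hS1m : ∀ i, Measurable (fun η => S1 η i) := by
      intro i
      refine Finset.measurable_fun_sum _ fun l _ => ?_
      split_ifs
      · exact measurable_pi_apply l
      · exact measurable_const
    have hS1e : ∀ ω, ∀ i ≤ j, S1 (fun l => inc W h l ω) i = psum (ξ ω) i := by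
      intro ω i hi
      simp only [hS1]
      rw [Finset.sum_coe_sort (Finset.range j) (fun l => if l < i then inc W h l ω else 0),
        ← Finset.sum_filter]
      unfold psum
      congr 1
      ext l
      simp only [Finset.mem_filter, Finset.mem_range]
      omega
    set S2 : ((i : Finset.Ico j (2 * N)) → EuclideanSpace ℝ (Fin d)) → EuclideanSpace ℝ (Fin d) :=
      fun η => ∑ l : Finset.Ico j (2 * N), η l with hS2
    have hS2m : Measurable S2 := Finset.measurable_fun_sum _ fun l _ => measurable_pi_apply l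
    have hS2e : ∀ ω, S2 (fun l => inc W h l ω) = psum (ξ ω) (2 * N) - psum (ξ ω) j := by
      intro ω
      simp only [hS2]
      rw [Finset.sum_coe_sort (Finset.Ico j (2 * N)) (fun l => inc W h l ω),
        Finset.sum_Ico_eq_sub _ (by omega)]
      rfl
    have hB : MeasurableSet {η : ((i : Finset.range j) → EuclideanSpace ℝ (Fin d)) |
        dist z (S1 η j) < a ∧ ∀ i < j, ¬ dist z (S1 η i) < a} := by
      have : {η : ((i : Finset.range j) → EuclideanSpace ℝ (Fin d)) |
          dist z (S1 η j) < a ∧ ∀ i < j, ¬ dist z (S1 η i) < a} =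
          {η | dist z (S1 η j) < a} ∩ ⋂ i ∈ Finset.range j, {η | dist z (S1 η i) < a}ᶜ := by
        ext η; simp
      rw [this]
      refine (measurableSet_lt (measurable_const.dist (hS1m j)) measurable_const).inter
        (Finset.measurableSet_biInter _ fun i _ =>
          (measurableSet_lt (measurable_const.dist (hS1m i)) measurable_const).compl)
    have h2 := h1.measure_inter_preimage_eq_mul _ (S2 ⁻¹' Metric.ball 0 R) hB
      (hS2m Metric.isOpen_ball.measurableSet)
    have e1 : (fun ω (i : Finset.range j) => inc W h i ω) ⁻¹'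
        {η : ((i : Finset.range j) → EuclideanSpace ℝ (Fin d)) |
        dist z (S1 η j) < a ∧ ∀ i < j, ¬ dist z (S1 η i) < a} = A j := by
      ext ω
      simp only [mem_preimage, Set.mem_ofPred_eq, hA]
      rw [hS1e ω j le_rfl]
      refine and_congr_right fun _ => forall_congr' fun i => ?_
      refine imp_congr_right fun hi => ?_
      rw [hS1e ω i hi.le]
    have e2 : (fun ω (i : Finset.Ico j (2 * N)) => inc W h i ω) ⁻¹'
        (S2 ⁻¹' Metric.ball 0 R) = D j := by
      ext ω
      simp only [mem_preimage, Set.mem_ofPred_eq, hD]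
      rw [hS2e ω]
    rw [e1, e2] at h2
    exact h2
  have hAD : ∀ j < N + 1, P' (A j) ≤ 2 * P' (A j ∩ D j) := by
    intro j hj
    rw [hindep j hj]
    calc P' (A j) = 2 * (P' (A j) * (1 / 2)) := by
          rw [mul_comm (P' (A j)), ← mul_assoc, one_div, ENNReal.mul_inv_cancel (by norm_num)
            (by norm_num), one_mul]
      _ ≤ 2 * (P' (A j) * P' (D j)) := by
          gcongr
          exact hDP j hj
  have hdisj : ∀ i j, i < j → Disjoint (A i) (A j) := by
    intro i j hij
    rw [Set.disjoint_left]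
    intro ω h1 h2
    exact h2.2 i hij h1.1
  calc P' {ω | ∃ j < N + 1, dist z (psum (ξ ω) j) < a}
      ≤ P' (⋃ j ∈ Finset.range (N + 1), A j) := by
        refine measure_mono ?_
        classical
        rintro ω ⟨j, hj, hz⟩
        have hex : ∃ j, dist z (psum (ξ ω) j) < a := ⟨j, hz⟩
        simp only [mem_iUnion, exists_prop, Finset.mem_range]
        refine ⟨Nat.find hex, (Nat.find_min' hex hz).trans_lt hj, Nat.find_spec hex, ?_⟩
        intro i hi
        exact Nat.find_min hex hi
    _ ≤ ∑ j ∈ Finset.range (N + 1), P' (A j) := measure_biUnion_finset_le _ _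
    _ ≤ ∑ j ∈ Finset.range (N + 1), 2 * P' (A j ∩ D j) :=
        Finset.sum_le_sum fun j hj => hAD j (Finset.mem_range.mp hj)
    _ = 2 * P' (⋃ j ∈ Finset.range (N + 1), (A j ∩ D j)) := by
        rw [← Finset.mul_sum, measure_biUnion_finset]
        · intro i _ j _ hij
          rcases lt_or_gt_of_ne hij with h1 | h1
          · exact (hdisj i j h1).mono inter_subset_left inter_subset_left
          · exact (hdisj j i h1).symm.mono inter_subset_left inter_subset_left
        · intro j _
          exact (hAm j).inter (hDm j)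
    _ ≤ 2 * P' {ω | dist z (psum (ξ ω) (2 * N)) < a + R} := by
        gcongr
        intro ω hω
        simp only [mem_iUnion, exists_prop] at hω
        obtain ⟨j, _, h1, h2⟩ := hω
        simp only [hD, Set.mem_ofPred_eq, Metric.mem_ball, dist_zero_right] at h2
        simp only [Set.mem_ofPred_eq]
        calc dist z (psum (ξ ω) (2 * N)) ≤ dist z (psum (ξ ω) j) +
              dist (psum (ξ ω) j) (psum (ξ ω) (2 * N)) := dist_triangle _ _ _
          _ < a + R := by
            rw [dist_comm (psum (ξ ω) j), dist_eq_norm (psum (ξ ω) (2 * N))]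
            exact add_lt_add h1.1 h2

/-- uniform bound on the dyadic approximations at time `1`. -/
lemma ud_one_bound (hW : IsBM P' W) (a : ℝ) : ∃ C : ℝ≥0∞, C ≠ ∞ ∧ ∀ m, ud P' W a 1 m ≤ C := by
  obtain ⟨R, hR0, hR⟩ := exists_radius d
  refine ⟨2 * vb d (a + R), ENNReal.mul_ne_top (by norm_num) (vb_ne_top _), fun m => ?_⟩
  have hξm : Measurable (fun ω (i : ℕ) => inc W (dm m) i ω) :=
    measurable_pi_iff.mpr (inc_measurable hW (dm m))
  have hpm : ∀ j, Measurable (fun ω => psum (fun i => inc W (dm m) i ω) j) := fun j =>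
    (measurable_pi_apply j).comp (measurable_psum.comp hξm)
  have h1 : ud P' W a 1 m = ∫⁻ ω, vU a (Finset.range (2 ^ m + 1))
      (psum (fun i => inc W (dm m) i ω)) ∂P' := by
    unfold ud u
    rw [one_mul]
    refine lintegral_congr_ae ?_
    filter_upwards [psum_inc_ae hW (dm m)] with ω hω
    rw [hω]
  set Q : Set (Ω' × EuclideanSpace ℝ (Fin d)) :=
    {q | ∃ j < 2 ^ m + 1, dist q.2 (psum (fun i => inc W (dm m) i q.1) j) < a} with hQ
  have hQm : MeasurableSet Q := by
    have : Q = ⋃ j ∈ Finset.range (2 ^ m + 1),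
        {q | dist q.2 (psum (fun i => inc W (dm m) i q.1) j) < a} := by
      ext q; simp [hQ]
    rw [this]
    exact Finset.measurableSet_biUnion _ fun j _ =>
      measurableSet_lt (measurable_snd.dist ((hpm j).comp measurable_fst)) measurable_const
  set Q' : Set (Ω' × EuclideanSpace ℝ (Fin d)) :=
    {q | dist q.2 (psum (fun i => inc W (dm m) i q.1) (2 * 2 ^ m)) < a + R} with hQ'
  have hQm' : MeasurableSet Q' :=
    measurableSet_lt (measurable_snd.dist ((hpm _).comp measurable_fst)) measurable_const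
  have h2 : ∫⁻ ω, vU a (Finset.range (2 ^ m + 1)) (psum (fun i => inc W (dm m) i ω)) ∂P' =
      (P'.prod volume) Q := by
    rw [Measure.prod_apply hQm]
    refine lintegral_congr fun ω => ?_
    unfold vU U
    congr 1
    ext z
    simp [hQ]
  have h3 : ∫⁻ ω, volume (Prod.mk ω ⁻¹' Q') ∂P' = vb d (a + R) := by
    have : ∀ ω, volume (Prod.mk ω ⁻¹' Q') = vb d (a + R) := by
      intro ω
      rw [← vb_eq (a + R) (psum (fun i => inc W (dm m) i ω) (2 * 2 ^ m))]
      rfl
    simp_rw [this]
    simp
  have hNh : ((2 ^ m : ℕ) : ℝ≥0) * dm m = 1 := by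
    push_cast
    exact dm_mul m
  rw [h1, h2, Measure.prod_apply_symm hQm]
  calc ∫⁻ z, P' ((fun ω => (ω, z)) ⁻¹' Q)
      ≤ ∫⁻ z, 2 * P' ((fun ω => (ω, z)) ⁻¹' Q') := by
        refine lintegral_mono fun z => ?_
        exact hit_le hW a hR (dm m) (2 ^ m) hNh z
    _ = 2 * (P'.prod volume) Q' := by
        rw [lintegral_const_mul _ (measurable_measure_prodMk_right hQm'),
          Measure.prod_apply_symm hQm']
    _ = 2 * vb d (a + R) := by rw [Measure.prod_apply hQm', h3]

end Pool.Agent.H143R3.Sausage
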