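import Pool.Agent.H143R3.BM11

namespace Pool.Agent.H143R3.Sausage

open MeasureTheory ProbabilityTheory Set Filter Topology
open scoped ENNReal NNReal

set_option linter.unusedSectionVars false

variable {d : ℕ} {Ω' : Type*} [MeasurableSpace Ω'] {P' : Measure Ω'} [IsProbabilityMeasure P']
  {W : ℝ≥0 → Ω' → EuclideanSpace ℝ (Fin d)}

lemma u_union_le (hW : IsBM P' W) (a : ℝ) (h : ℝ≥0) (I J : Finset ℕ) :
    u P' W a h (I ∪ J) ≤ u P' W a h I + u P' W a h J := by
  unfold u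
  have hm : Measurable (fun ω => vU a I (grid W h ω)) :=
    (measurable_vU a I).comp (grid_measurable hW h)
  rw [← lintegral_add_left hm]
  refine lintegral_mono fun ω => ?_
  unfold vU
  rw [vU_union]
  exact measure_union_le _ _

lemma ud_add_le (hW : IsBM P' W) (a : ℝ) (M N m : ℕ) :
    ud P' W a (M + N) m ≤ ud P' W a M m + ud P' W a N m := by
  unfold ud
  rw [← u_shift hW a (dm m) (Finset.range (N * 2 ^ m + 1)) (M * 2 ^ m)]
  refine le_trans ?_ (u_union_le hW a (dm m) _ _)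
  unfold u
  refine lintegral_mono fun ω => vU_mono a ?_ _
  intro i hi
  simp only [Finset.mem_range, Finset.mem_union, Finset.mem_image] at hi ⊢
  rcases Nat.lt_or_ge i (M * 2 ^ m + 1) with h1 | h1
  · exact Or.inl h1
  · refine Or.inr ⟨i - M * 2 ^ m, ?_, by omega⟩
    rw [add_mul] at hi
    omega

/-- the expected volume of the sausage grows linearly. -/
theorem rate_exists (hW : IsBM P' W) (a : ℝ) : ∃ κ : ℝ,
    Tendsto (fun t : ℝ≥0 => (∫⁻ ω, volume (sausage W a t ω) ∂P') / t) atTop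
      (𝓝 (ENNReal.ofReal κ)) := by
  set w : ℝ≥0 → ℝ≥0∞ := fun t => ∫⁻ ω, volume (sausage W a t ω) ∂P' with hw
  have hmono : ∀ s t : ℝ≥0, s ≤ t → w s ≤ w t := by
    intro s t hst
    refine lintegral_mono fun ω => measure_mono ?_
    exact biUnion_subset_biUnion_left (Iic_subset_Iic.mpr hst)
  have hsup : ∀ M : ℕ, w M = ⨆ m, ud P' W a M m := fun M => sausage_eq_iSup hW a M
  have hadd : ∀ M N : ℕ, w ((M + N : ℕ) : ℝ≥0) ≤ w M + w N := by
    intro M N
    rw [hsup, hsup, hsup]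
    refine iSup_le fun m => (ud_add_le hW a M N m).trans ?_
    exact add_le_add (le_iSup (fun m => ud P' W a M m) m) (le_iSup (fun m => ud P' W a N m) m)
  obtain ⟨C, hC, hCm⟩ := ud_one_bound hW a
  have hw1 : w (1 : ℕ) ≠ ∞ := by
    rw [hsup]
    exact ne_top_of_le_ne_top hC (iSup_le hCm)
  have hfinN : ∀ M : ℕ, w M ≠ ∞ := by
    intro M
    induction M with
    | zero => exact ne_top_of_le_ne_top hw1 (hmono _ _ (by simp))
    | succ M ih => exact ne_top_of_le_ne_top (ENNReal.add_ne_top.mpr ⟨ih, hw1⟩) (hadd M 1)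
  have hfin : ∀ t : ℝ≥0, w t ≠ ∞ := by
    intro t
    obtain ⟨M, hM⟩ := exists_nat_ge t
    exact ne_top_of_le_ne_top (hfinN M) (hmono _ _ hM)
  set v : ℕ → ℝ := fun M => (w M).toReal with hv
  have hsub : Subadditive v := by
    intro M N
    simp only [hv]
    rw [← ENNReal.toReal_add (hfinN M) (hfinN N)]
    exact ENNReal.toReal_mono (ENNReal.add_ne_top.mpr ⟨hfinN M, hfinN N⟩) (hadd M N)
  have hbdd : BddBelow (range fun n => v n / n) := by
    refine ⟨0, ?_⟩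
    rintro _ ⟨n, rfl⟩
    exact div_nonneg ENNReal.toReal_nonneg (Nat.cast_nonneg n)
  have hlim := hsub.tendsto_lim hbdd
  set κ := hsub.lim with hκ
  refine ⟨κ, ?_⟩
  have hreal : Tendsto (fun t : ℝ≥0 => (w t).toReal / t) atTop (𝓝 κ) := by
    have hfl : Tendsto (fun t : ℝ≥0 => ⌊(t : ℝ)⌋₊) atTop atTop :=
      tendsto_nat_floor_atTop.comp (NNReal.tendsto_coe_atTop.mpr tendsto_id)
    have hdiv : Tendsto (fun t : ℝ≥0 => (⌊(t : ℝ)⌋₊ : ℝ) / t) atTop (𝓝 1) :=
      (tendsto_nat_floor_div_atTop (R := ℝ)).comp (NNReal.tendsto_coe_atTop.mpr tendsto_id)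
    have hdiv2 : Tendsto (fun t : ℝ≥0 => ((⌊(t : ℝ)⌋₊ + 1 : ℕ) : ℝ) / t) atTop (𝓝 1) := by
      have h1 : Tendsto (fun t : ℝ≥0 => (1 : ℝ) / t) atTop (𝓝 0) :=
        tendsto_const_nhds.div_atTop (NNReal.tendsto_coe_atTop.mpr tendsto_id)
      have h2 := hdiv.add h1
      rw [add_zero] at h2
      refine h2.congr fun t => ?_
      push_cast
      ring
    have hlow : Tendsto (fun t : ℝ≥0 => v ⌊(t : ℝ)⌋₊ / ⌊(t : ℝ)⌋₊ * ((⌊(t : ℝ)⌋₊ : ℝ) / t)) atTop
        (𝓝 (κ * 1)) := (hlim.comp hfl).mul hdiv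
    have hup : Tendsto (fun t : ℝ≥0 => v (⌊(t : ℝ)⌋₊ + 1) / ((⌊(t : ℝ)⌋₊ + 1 : ℕ) : ℝ) *
        (((⌊(t : ℝ)⌋₊ + 1 : ℕ) : ℝ) / t)) atTop (𝓝 (κ * 1)) :=
      (hlim.comp ((tendsto_add_atTop_nat 1).comp hfl)).mul hdiv2
    rw [mul_one] at hlow hup
    refine tendsto_of_tendsto_of_tendsto_of_le_of_le' hlow hup ?_ ?_
    · filter_upwards [eventually_ge_atTop 1] with t ht
      have ht' : (1:ℝ) ≤ t := by exact_mod_cast ht
      have hf : 1 ≤ ⌊(t : ℝ)⌋₊ := Nat.one_le_floor_iff _ |>.mpr ht'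
      have hf' : (0:ℝ) < ⌊(t : ℝ)⌋₊ := by exact_mod_cast hf
      rw [div_mul_div_cancel₀ hf'.ne']
      gcongr
      refine ENNReal.toReal_mono (hfin t) (hmono _ _ ?_)
      rw [← NNReal.coe_le_coe]
      push_cast
      exact Nat.floor_le (NNReal.coe_nonneg t)
    · filter_upwards [eventually_ge_atTop 1] with t ht
      rw [div_mul_div_cancel₀ (by positivity)]
      gcongr
      refine ENNReal.toReal_mono (hfinN _) (hmono _ _ ?_)
      rw [← NNReal.coe_le_coe]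
      push_cast
      exact (Nat.lt_floor_add_one _).le
  have hE := ENNReal.tendsto_ofReal hreal
  refine hE.congr' ?_
  filter_upwards [eventually_gt_atTop 0] with t ht
  rw [ENNReal.ofReal_div_of_pos (by exact_mod_cast ht), ENNReal.ofReal_toReal (hfin t)]
  congr 1
  exact ENNReal.ofReal_coe_nnreal

end Pool.Agent.H143R3.Sausage
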