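import Pool.Agent.H143R3.BM1

namespace Pool.Agent.H143R3.Sausage

open MeasureTheory ProbabilityTheory Set Filter Topology
open scoped ENNReal NNReal

set_option linter.unusedSectionVars false

variable {d : ℕ} {Ω Ω' : Type*} [MeasurableSpace Ω] [MeasurableSpace Ω']
  {P : Measure Ω} {P' : Measure Ω'} [IsProbabilityMeasure P] [IsProbabilityMeasure P']
  {X : ℝ≥0 → Ω → EuclideanSpace ℝ (Fin d)} {W : ℝ≥0 → Ω' → EuclideanSpace ℝ (Fin d)}

/-- the shifted process is again a Brownian motion. -/
lemma IsBM.shift (hX : IsBM P X) (s : ℝ≥0) :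
    IsBM P (fun t ω => X (s + t) ω - X s ω) where
  measurable t := (hX.measurable _).sub (hX.measurable _)
  zero := by simp
  cont := by
    filter_upwards [hX.cont] with ω hω
    exact (hω.comp (continuous_const.add continuous_id)).sub continuous_const
  indep := by
    intro n t ht
    have := hX.indep n (fun i => s + t i) (fun i j hij => by dsimp only; gcongr; exact ht hij)
    simpa using this
  law u t hut := by
    have := hX.law (s + u) (s + t) (by gcongr)
    rw [add_tsub_add_eq_tsub_left] at this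
    simpa using this

/-- the increments of `X` along the grid of mesh `h`. -/
def inc (X : ℝ≥0 → Ω → EuclideanSpace ℝ (Fin d)) (h : ℝ≥0) (i : ℕ) (ω : Ω) :
    EuclideanSpace ℝ (Fin d) := X ((i + 1 : ℕ) * h) ω - X (i * h) ω

/-- partial sums of a sequence. -/
def psum (ξ : ℕ → EuclideanSpace ℝ (Fin d)) (j : ℕ) : EuclideanSpace ℝ (Fin d) :=
  ∑ i ∈ Finset.range j, ξ i

lemma measurable_psum : Measurable (psum (d := d)) := by
  unfold psum
  refine measurable_pi_iff.mpr fun j => ?_
  exact Finset.measurable_fun_sum _ fun i _ => measurable_pi_apply i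

lemma inc_measurable (hX : IsBM P X) (h : ℝ≥0) (i : ℕ) : Measurable (inc X h i) :=
  (hX.measurable _).sub (hX.measurable _)

lemma inc_indep (hX : IsBM P X) (h : ℝ≥0) : iIndepFun (inc X h) P := by
  have := hX.indep.nat (t := fun i : ℕ => (i : ℝ≥0) * h)
    (fun i j hij => by dsimp only; gcongr)
  exact this

lemma inc_law (hX : IsBM P X) (h : ℝ≥0) (i : ℕ) : P.map (inc X h i) = gam d h := by
  have := hX.law (i * h) ((i + 1 : ℕ) * h) (by gcongr; simp)
  rw [show (inc X h i) = (fun ω => X ((i + 1 : ℕ) * h) ω - X (i * h) ω) from rfl, this]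
  congr 1
  push_cast
  rw [add_mul, one_mul, add_tsub_cancel_left]

lemma inc_map (hX : IsBM P X) (h : ℝ≥0) :
    P.map (fun ω i => inc X h i ω) = Measure.infinitePi (fun _ : ℕ => gam d h) := by
  rw [(inc_indep hX h).map_fun_eq_infinitePi_map (inc_measurable hX h)]
  simp_rw [inc_law hX h]

/-- the process along the grid of mesh `h`. -/
def grid (X : ℝ≥0 → Ω → EuclideanSpace ℝ (Fin d)) (h : ℝ≥0) (ω : Ω) (j : ℕ) :
    EuclideanSpace ℝ (Fin d) := X (j * h) ω

lemma grid_measurable (hX : IsBM P X) (h : ℝ≥0) : Measurable (grid X h) :=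
  measurable_pi_iff.mpr fun _ => hX.measurable _

lemma psum_inc_ae (hX : IsBM P X) (h : ℝ≥0) :
    ∀ᵐ ω ∂P, psum (fun i => inc X h i ω) = grid X h ω := by
  filter_upwards [hX.zero] with ω hω
  ext1 j
  unfold psum grid inc
  rw [Finset.sum_range_sub (fun j => X (j * h) ω)]
  simp [hω]

lemma grid_map (hX : IsBM P X) (h : ℝ≥0) :
    P.map (grid X h) = (Measure.infinitePi (fun _ : ℕ => gam d h)).map psum := by
  rw [← inc_map hX h, Measure.map_map measurable_psum
    (measurable_pi_iff.mpr (inc_measurable hX h))]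
  exact Measure.map_congr ((psum_inc_ae hX h).mono fun ω hω => hω.symm)

/-- two Brownian motions have the same law along grids. -/
lemma grid_law_eq (hX : IsBM P X) (hW : IsBM P' W) (h : ℝ≥0) :
    P.map (grid X h) = P'.map (grid W h) := by
  rw [grid_map hX, grid_map hW]

lemma lintegral_grid_eq (hX : IsBM P X) (hW : IsBM P' W) (h : ℝ≥0)
    {Φ : (ℕ → EuclideanSpace ℝ (Fin d)) → ℝ≥0∞} (hΦ : Measurable Φ) :
    ∫⁻ ω, Φ (grid X h ω) ∂P = ∫⁻ ω, Φ (grid W h ω) ∂P' := by
  rw [← lintegral_map hΦ (grid_measurable hX h), ← lintegral_map hΦ (grid_measurable hW h),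
    grid_law_eq hX hW]

/-- the difference of two independent Brownian motions, run at half speed, is a Brownian
motion. -/
lemma diff_isBM (hX : IsBM P X) (hW : IsBM P' W) :
    IsBM (P.prod P') (fun t p => X (t / 2) p.1 - W (t / 2) p.2) where
  measurable t := ((hX.measurable _).comp measurable_fst).sub
    ((hW.measurable _).comp measurable_snd)
  zero := by
    have h1 : ∀ᵐ p ∂(P.prod P'), X 0 p.1 = 0 :=
      (Measure.quasiMeasurePreserving_fst (μ := P) (ν := P')).ae hX.zero
    have h2 : ∀ᵐ p ∂(P.prod P'), W 0 p.2 = 0 :=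
      (Measure.quasiMeasurePreserving_snd (μ := P) (ν := P')).ae hW.zero
    filter_upwards [h1, h2] with p hp1 hp2
    simp [hp1, hp2]
  cont := by
    have h1 : ∀ᵐ p ∂(P.prod P'), Continuous (fun t => X t p.1) :=
      (Measure.quasiMeasurePreserving_fst (μ := P) (ν := P')).ae hX.cont
    have h2 : ∀ᵐ p ∂(P.prod P'), Continuous (fun t => W t p.2) :=
      (Measure.quasiMeasurePreserving_snd (μ := P) (ν := P')).ae hW.cont
    filter_upwards [h1, h2] with p hp1 hp2
    have hc : Continuous (fun t : ℝ≥0 => t / 2) := continuous_id.div_const 2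
    exact (hp1.comp hc).sub (hp2.comp hc)
  indep := by
    intro n t ht
    have hm : Monotone (fun i => t i / 2) := fun i j hij => by dsimp only; gcongr; exact ht hij
    have hA := hX.indep n (fun i => t i / 2) hm
    have hB := hW.indep n (fun i => t i / 2) hm
    set A : Fin n → Ω → EuclideanSpace ℝ (Fin d) :=
      fun i ω => X (t i.succ / 2) ω - X (t i.castSucc / 2) ω with hAdef
    set B : Fin n → Ω' → EuclideanSpace ℝ (Fin d) :=
      fun i ω => W (t i.succ / 2) ω - W (t i.castSucc / 2) ω with hBdef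
    have hAm : ∀ i, Measurable (A i) := fun i => (hX.measurable _).sub (hX.measurable _)
    have hBm : ∀ i, Measurable (B i) := fun i => (hW.measurable _).sub (hW.measurable _)
    have hAp : ∀ i, IsProbabilityMeasure (P.map (A i)) :=
      fun i => Measure.isProbabilityMeasure_map (hAm i).aemeasurable
    have hBp : ∀ i, IsProbabilityMeasure (P'.map (B i)) :=
      fun i => Measure.isProbabilityMeasure_map (hBm i).aemeasurable
    have hfun : (fun (i : Fin n) (p : Ω × Ω') => (X (t i.succ / 2) p.1 - W (t i.succ / 2) p.2) -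
        (X (t i.castSucc / 2) p.1 - W (t i.castSucc / 2) p.2)) =
        fun i p => A i p.1 - B i p.2 := by
      ext1 i; ext1 p
      simp only [hAdef, hBdef]
      abel
    rw [hfun]
    rw [iIndepFun_iff_map_fun_eq_pi_map (fun i => by
      exact (((hAm i).comp measurable_fst).sub ((hBm i).comp measurable_snd)).aemeasurable)]
    have hAmap := (iIndepFun_iff_map_fun_eq_pi_map (fun i => (hAm i).aemeasurable)).mp hA
    have hBmap := (iIndepFun_iff_map_fun_eq_pi_map (fun i => (hBm i).aemeasurable)).mp hB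
    have hmAv : Measurable (fun ω i => A i ω) := measurable_pi_iff.mpr hAm
    have hmBv : Measurable (fun ω i => B i ω) := measurable_pi_iff.mpr hBm
    have e1 : (fun (p : Ω × Ω') (i : Fin n) => A i p.1 - B i p.2) =
        (fun w : Fin n → EuclideanSpace ℝ (Fin d) × EuclideanSpace ℝ (Fin d) =>
          fun i => (w i).1 - (w i).2) ∘
        (MeasurableEquiv.arrowProdEquivProdArrow (EuclideanSpace ℝ (Fin d))
          (EuclideanSpace ℝ (Fin d)) (Fin n)).symm ∘
        (Prod.map (fun ω i => A i ω) (fun ω i => B i ω)) := by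
      ext1 p
      rfl
    have e2 := (measurePreserving_arrowProdEquivProdArrow (EuclideanSpace ℝ (Fin d))
      (EuclideanSpace ℝ (Fin d)) (Fin n) (fun i => P.map (A i)) (fun i => P'.map (B i))).symm
    rw [e1, ← Measure.map_map (by fun_prop) (by
        exact (MeasurableEquiv.measurable _).comp (hmAv.prodMap hmBv)),
      ← Measure.map_map (MeasurableEquiv.measurable _) (hmAv.prodMap hmBv),
      ← Measure.map_prod_map _ _ hmAv hmBv, hAmap, hBmap, e2.map_eq]
    rw [Measure.pi_map_pi (f := fun _ (w : EuclideanSpace ℝ (Fin d) × EuclideanSpace ℝ (Fin d)) =>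
      w.1 - w.2) (fun i => by fun_prop)]
    congr 1
    ext1 i
    have e3 : (fun (p : Ω × Ω') => A i p.1 - B i p.2) = (fun w => w.1 - w.2) ∘
      (Prod.map (A i) (B i)) := rfl
    rw [e3, ← Measure.map_map (by fun_prop) ((hAm i).prodMap (hBm i)),
      ← Measure.map_prod_map _ _ (hAm i) (hBm i)]
  law s t hst := by
    have hst2 : s / 2 ≤ t / 2 := by gcongr
    have hA := hX.law (s / 2) (t / 2) hst2
    have hB := hW.law (s / 2) (t / 2) hst2
    have hAm : Measurable (fun ω => X (t / 2) ω - X (s / 2) ω) :=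
      (hX.measurable _).sub (hX.measurable _)
    have hBm : Measurable (fun ω => W (t / 2) ω - W (s / 2) ω) :=
      (hW.measurable _).sub (hW.measurable _)
    have hfun : (fun (p : Ω × Ω') => (X (t / 2) p.1 - W (t / 2) p.2) -
        (X (s / 2) p.1 - W (s / 2) p.2)) =
        (fun w => w.1 - w.2) ∘ (Prod.map (fun ω => X (t / 2) ω - X (s / 2) ω)
          (fun ω => W (t / 2) ω - W (s / 2) ω)) := by
      ext1 p
      simp only [Function.comp, Prod.map]
      abel
    rw [hfun, ← Measure.map_map (by fun_prop) (hAm.prodMap hBm),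
      ← Measure.map_prod_map _ _ hAm hBm, hA, hB, gam_prod_sub]
    congr 1
    rw [← tsub_div, add_halves]

end Pool.Agent.H143R3.Sausage
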