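import Pool.Agent.H143R3.BM2

namespace Pool.Agent.H143R3.Sausage

open MeasureTheory ProbabilityTheory Set Filter Topology
open scoped ENNReal NNReal

set_option linter.unusedSectionVars false

variable {d : ℕ} {Ω Ω' : Type*} [MeasurableSpace Ω] [MeasurableSpace Ω']
  {P : Measure Ω} {P' : Measure Ω'} [IsProbabilityMeasure P] [IsProbabilityMeasure P']
  {X : ℝ≥0 → Ω → EuclideanSpace ℝ (Fin d)} {W : ℝ≥0 → Ω' → EuclideanSpace ℝ (Fin d)}

/-- the union of the balls of radius `a` centred at `p j`, `j ∈ J`. -/
def U (a : ℝ) (J : Finset ℕ) (p : ℕ → EuclideanSpace ℝ (Fin d)) :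
    Set (EuclideanSpace ℝ (Fin d)) := ⋃ j ∈ J, Metric.ball (p j) a

/-- its volume. -/
noncomputable def vU (a : ℝ) (J : Finset ℕ) (p : ℕ → EuclideanSpace ℝ (Fin d)) : ℝ≥0∞ :=
  volume (U a J p)

lemma measurableSet_U (a : ℝ) (J : Finset ℕ) (p : ℕ → EuclideanSpace ℝ (Fin d)) :
    MeasurableSet (U a J p) :=
  Finset.measurableSet_biUnion _ fun _ _ => Metric.isOpen_ball.measurableSet

/-- the joint set. -/
def US (d : ℕ) (a : ℝ) (J : Finset ℕ) :
    Set ((ℕ → EuclideanSpace ℝ (Fin d)) × EuclideanSpace ℝ (Fin d)) :=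
  {q | ∃ j ∈ J, dist q.2 (q.1 j) < a}

lemma measurableSet_US (a : ℝ) (J : Finset ℕ) : MeasurableSet (US d a J) := by
  have : US d a J = ⋃ j ∈ J, {q | dist q.2 (q.1 j) < a} := by
    ext q; simp [US]
  rw [this]
  refine Finset.measurableSet_biUnion _ fun j _ => ?_
  exact measurableSet_lt (measurable_snd.dist ((measurable_pi_apply j).comp measurable_fst))
    measurable_const

lemma vU_eq (a : ℝ) (J : Finset ℕ) (p : ℕ → EuclideanSpace ℝ (Fin d)) :
    vU a J p = volume (Prod.mk p ⁻¹' US d a J) := by
  unfold vU U US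
  congr 1
  ext x
  simp

lemma measurable_vU (a : ℝ) (J : Finset ℕ) : Measurable (vU (d := d) a J) := by
  have : vU (d := d) a J = fun p => volume (Prod.mk p ⁻¹' US d a J) := by
    ext1 p; exact vU_eq a J p
  rw [this]
  exact measurable_measure_prodMk_left (measurableSet_US a J)

lemma vU_translate (a : ℝ) (J : Finset ℕ) (p : ℕ → EuclideanSpace ℝ (Fin d))
    (z : EuclideanSpace ℝ (Fin d)) : vU a J (fun j => p j + z) = vU a J p := by
  unfold vU
  have : U a J (fun j => p j + z) = (fun x => x + (-z)) ⁻¹' U a J p := by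
    ext x
    simp only [U, mem_iUnion, Metric.mem_ball, mem_preimage, exists_prop]
    refine exists_congr fun j => and_congr_right fun _ => ?_
    rw [dist_eq_norm, dist_eq_norm]
    have : x - (p j + z) = x + -z - p j := by abel
    rw [this]
  rw [this, measure_preimage_add_right]

lemma vU_mono (a : ℝ) {I J : Finset ℕ} (h : I ⊆ J) (p : ℕ → EuclideanSpace ℝ (Fin d)) :
    vU a I p ≤ vU a J p := by
  refine measure_mono ?_
  exact biUnion_subset_biUnion_left h

lemma vU_union (a : ℝ) (I J : Finset ℕ) (p : ℕ → EuclideanSpace ℝ (Fin d)) :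
    U a (I ∪ J) p = U a I p ∪ U a J p := by
  unfold U
  exact Finset.set_biUnion_union _ _ _

lemma vU_image (a : ℝ) (J : Finset ℕ) (f : ℕ → ℕ) (p : ℕ → EuclideanSpace ℝ (Fin d)) :
    vU a (J.image f) p = vU a J (fun j => p (f j)) := by
  unfold vU U
  rw [Finset.set_biUnion_finset_image]

/-- the volume of the unit of the sausage. -/
noncomputable def vb (d : ℕ) (a : ℝ) : ℝ≥0∞ :=
  volume (Metric.ball (0 : EuclideanSpace ℝ (Fin d)) a)

lemma vb_eq (a : ℝ) (c : EuclideanSpace ℝ (Fin d)) : volume (Metric.ball c a) = vb d a := by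
  unfold vb
  exact Measure.addHaar_ball_center _ _ _

lemma vb_ne_top (a : ℝ) : vb d a ≠ ∞ := (measure_ball_lt_top).ne

lemma vU_le (a : ℝ) (J : Finset ℕ) (p : ℕ → EuclideanSpace ℝ (Fin d)) :
    vU a J p ≤ J.card * vb d a := by
  unfold vU U
  refine (measure_biUnion_finset_le _ _).trans ?_
  simp_rw [vb_eq]
  simp

/-- the volume of the union of the moving balls, averaged over `W`. -/
noncomputable def V (P' : Measure Ω') (W : ℝ≥0 → Ω' → EuclideanSpace ℝ (Fin d)) (a : ℝ) (h : ℝ≥0)
    (J : Finset ℕ) (c : ℕ → EuclideanSpace ℝ (Fin d)) : ℝ≥0∞ :=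
  ∫⁻ ω, vU a J (fun j => c j - grid W h ω j) ∂P'

lemma V_le (a : ℝ) (h : ℝ≥0) (J : Finset ℕ) (c : ℕ → EuclideanSpace ℝ (Fin d)) :
    V P' W a h J c ≤ J.card * vb d a := by
  unfold V
  calc _ ≤ ∫⁻ _ω, J.card * vb d a ∂P' := lintegral_mono fun ω => vU_le _ _ _
    _ = _ := by simp

lemma measurable_sub_path (c : ℕ → EuclideanSpace ℝ (Fin d)) :
    Measurable (fun (w : ℕ → EuclideanSpace ℝ (Fin d)) (j : ℕ) => c j - w j) :=
  measurable_pi_iff.mpr fun j => measurable_const.sub (measurable_pi_apply j)

lemma measurable_V (hW : IsBM P' W) (a : ℝ) (h : ℝ≥0) (J : Finset ℕ) :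
    Measurable (V P' W a h J) := by
  unfold V
  have : Measurable (fun q : (ℕ → EuclideanSpace ℝ (Fin d)) × Ω' =>
      vU a J (fun j => q.1 j - grid W h q.2 j)) := by
    refine (measurable_vU a J).comp (measurable_pi_iff.mpr fun j => ?_)
    exact ((measurable_pi_apply j).comp measurable_fst).sub
      ((measurable_pi_apply j).comp ((grid_measurable hW h).comp measurable_snd))
  exact this.lintegral_prod_right'

/-- the tail of the overlap series. -/
noncomputable def tl (a : ℝ) (h : ℝ≥0) (g : ℕ) : ℝ≥0∞ :=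
  ∑' s : ℕ, if g < s then ENNReal.ofReal ((2 * a / Real.sqrt ((s : ℝ≥0) * h : ℝ≥0)) ^ 3) else 0

lemma overlap_pair (hd : 3 ≤ d) (hW : IsBM P' W) {a : ℝ} (ha : 0 < a) {h : ℝ≥0} (hh : 0 < h)
    (c : ℕ → EuclideanSpace ℝ (Fin d)) {i j : ℕ} (hij : i < j) :
    ∫⁻ ω, volume (Metric.ball (c i - grid W h ω i) a ∩ Metric.ball (c j - grid W h ω j) a) ∂P'
      ≤ ENNReal.ofReal ((2 * a / Real.sqrt (((j - i : ℕ) : ℝ≥0) * h : ℝ≥0)) ^ 3) * vb d a := by
  have hmeas : Measurable (fun ω => W (j * h) ω - W (i * h) ω) :=
    (hW.measurable _).sub (hW.measurable _)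
  set A : Set Ω' := (fun ω => W (j * h) ω - W (i * h) ω) ⁻¹'
    (Metric.closedBall (c j - c i) (2 * a)) with hA
  have hAm : MeasurableSet A := hmeas Metric.isClosed_closedBall.measurableSet
  calc ∫⁻ ω, volume (Metric.ball (c i - grid W h ω i) a ∩ Metric.ball (c j - grid W h ω j) a) ∂P'
      ≤ ∫⁻ ω, A.indicator (fun _ => vb d a) ω ∂P' := by
        refine lintegral_mono fun ω => ?_
        by_cases hω : ω ∈ A
        · simp only [indicator_of_mem hω]
          exact (measure_mono inter_subset_left).trans (vb_eq _ _).le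
        · simp only [indicator_of_notMem hω]
          have : Metric.ball (c i - grid W h ω i) a ∩ Metric.ball (c j - grid W h ω j) a = ∅ := by
            rw [eq_empty_iff_forall_notMem]
            rintro x ⟨h1, h2⟩
            apply hω
            simp only [hA, mem_preimage, Metric.mem_closedBall, Metric.mem_ball, grid] at *
            rw [dist_eq_norm] at *
            have : (W (j * h) ω - W (i * h) ω) - (c j - c i) =
              (x - (c j - W (j * h) ω)) - (x - (c i - W (i * h) ω)) := by abel
            rw [this]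
            exact (norm_sub_le _ _).trans (by linarith)
          rw [this]
          simp
    _ = vb d a * P' A := by rw [lintegral_indicator_const hAm]
    _ ≤ _ := by
        rw [mul_comm]
        gcongr
        have h1 : P' A = gam d (((j - i : ℕ) : ℝ≥0) * h) (Metric.closedBall (c j - c i) (2 * a)) := by
          rw [hA, ← Measure.map_apply hmeas Metric.isClosed_closedBall.measurableSet,
            hW.law _ _ (by gcongr)]
          congr 2
          rw [← tsub_mul]
          push_cast [Nat.cast_sub hij.le]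
          rfl
        rw [h1]
        refine smallBall hd _ ?_ _ _ (by positivity)
        have : 0 < j - i := Nat.sub_pos_of_lt hij
        positivity

/-- near-additivity for separated index sets. -/
lemma V_union (hd : 3 ≤ d) (hW : IsBM P' W) {a : ℝ} (ha : 0 < a) {h : ℝ≥0} (hh : 0 < h)
    (c : ℕ → EuclideanSpace ℝ (Fin d)) {I J : Finset ℕ} {g : ℕ}
    (hIJ : ∀ i ∈ I, ∀ j ∈ J, i + g < j) :
    V P' W a h I c + V P' W a h J c ≤
      V P' W a h (I ∪ J) c + J.card * (tl a h g * vb d a) := by
  have hmp : Measurable (fun ω => (fun j => c j - grid W h ω j)) :=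
    (measurable_sub_path c).comp (grid_measurable hW h)
  have hm : ∀ K : Finset ℕ, Measurable (fun ω => vU a K (fun j => c j - grid W h ω j)) :=
    fun K => (measurable_vU a K).comp hmp
  have hpt : ∀ ω, vU a I (fun j => c j - grid W h ω j) + vU a J (fun j => c j - grid W h ω j) ≤
      vU a (I ∪ J) (fun j => c j - grid W h ω j) + ∑ j ∈ J, ∑ i ∈ I,
        volume (Metric.ball (c i - grid W h ω i) a ∩ Metric.ball (c j - grid W h ω j) a) := by
    intro ω
    set p : ℕ → EuclideanSpace ℝ (Fin d) := fun j => c j - grid W h ω j with hp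
    have h1 : volume (U a I p ∪ U a J p) + volume (U a I p ∩ U a J p) =
        volume (U a I p) + volume (U a J p) :=
      measure_union_add_inter _ (measurableSet_U a J p)
    have h2 : volume (U a I p ∩ U a J p) ≤
        ∑ j ∈ J, ∑ i ∈ I, volume (Metric.ball (p i) a ∩ Metric.ball (p j) a) := by
      have : U a I p ∩ U a J p ⊆ ⋃ j ∈ J, ⋃ i ∈ I, (Metric.ball (p i) a ∩ Metric.ball (p j) a) := by
        rintro x ⟨hx1, hx2⟩
        simp only [U, mem_iUnion, exists_prop] at hx1 hx2 ⊢
        obtain ⟨i, hi, hxi⟩ := hx1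
        obtain ⟨j, hj, hxj⟩ := hx2
        exact ⟨j, hj, i, hi, hxi, hxj⟩
      refine (measure_mono this).trans ?_
      refine (measure_biUnion_finset_le _ _).trans ?_
      refine Finset.sum_le_sum fun j _ => ?_
      exact measure_biUnion_finset_le _ _
    unfold vU
    rw [← h1, ← vU_union]
    gcongr
  have hmB : ∀ i j, Measurable (fun ω => volume (Metric.ball (c i - grid W h ω i) a ∩
      Metric.ball (c j - grid W h ω j) a)) := by
    intro i j
    have hS : MeasurableSet {q : Ω' × EuclideanSpace ℝ (Fin d) |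
        dist q.2 (c i - grid W h q.1 i) < a ∧ dist q.2 (c j - grid W h q.1 j) < a} := by
      refine MeasurableSet.inter ?_ ?_
      · exact measurableSet_lt (measurable_snd.dist (measurable_const.sub
          ((hW.measurable _).comp measurable_fst))) measurable_const
      · exact measurableSet_lt (measurable_snd.dist (measurable_const.sub
          ((hW.measurable _).comp measurable_fst))) measurable_const
    exact measurable_measure_prodMk_left hS
  calc V P' W a h I c + V P' W a h J c
      = ∫⁻ ω, (vU a I (fun j => c j - grid W h ω j) + vU a J (fun j => c j - grid W h ω j)) ∂P' := by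
        unfold V
        rw [lintegral_add_left (hm I)]
    _ ≤ ∫⁻ ω, (vU a (I ∪ J) (fun j => c j - grid W h ω j) + ∑ j ∈ J, ∑ i ∈ I,
        volume (Metric.ball (c i - grid W h ω i) a ∩ Metric.ball (c j - grid W h ω j) a)) ∂P' :=
        lintegral_mono hpt
    _ = V P' W a h (I ∪ J) c + ∑ j ∈ J, ∑ i ∈ I, ∫⁻ ω,
        volume (Metric.ball (c i - grid W h ω i) a ∩ Metric.ball (c j - grid W h ω j) a) ∂P' := by
        rw [lintegral_add_left (hm _)]
        congr 1
        rw [lintegral_finsetSum _ (fun j _ => Finset.measurable_fun_sum _ (fun i _ => hmB i j))]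
        refine Finset.sum_congr rfl fun j _ => ?_
        rw [lintegral_finsetSum _ (fun i _ => hmB i j)]
    _ ≤ V P' W a h (I ∪ J) c + ∑ _j ∈ J, tl a h g * vb d a := by
        gcongr with j hj
        calc ∑ i ∈ I, ∫⁻ ω, volume (Metric.ball (c i - grid W h ω i) a ∩
              Metric.ball (c j - grid W h ω j) a) ∂P'
            ≤ ∑ i ∈ I, ENNReal.ofReal ((2 * a /
              Real.sqrt (((j - i : ℕ) : ℝ≥0) * h : ℝ≥0)) ^ 3) * vb d a := by
              refine Finset.sum_le_sum fun i hi => ?_
              exact overlap_pair hd hW ha hh c (by have := hIJ i hi j hj; omega)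
          _ = (∑ i ∈ I, ENNReal.ofReal ((2 * a /
              Real.sqrt (((j - i : ℕ) : ℝ≥0) * h : ℝ≥0)) ^ 3)) * vb d a := by
              rw [Finset.sum_mul]
          _ ≤ tl a h g * vb d a := by
              gcongr
              have hinj : Set.InjOn (fun i => j - i) (I : Set ℕ) := by
                intro i hi i' hi' he
                have h1 := hIJ i hi j hj
                have h2 := hIJ i' hi' j hj
                simp only at he
                omega
              have h3 : ∑ i ∈ I, ENNReal.ofReal ((2 * a /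
                  Real.sqrt (((j - i : ℕ) : ℝ≥0) * h : ℝ≥0)) ^ 3) =
                  ∑ s ∈ I.image (fun i => j - i), if g < s then
                    ENNReal.ofReal ((2 * a / Real.sqrt ((s : ℝ≥0) * h : ℝ≥0)) ^ 3) else 0 := by
                rw [Finset.sum_image hinj]
                refine Finset.sum_congr rfl fun i hi => ?_
                rw [if_pos (by have := hIJ i hi j hj; omega)]
              rw [h3]
              exact ENNReal.sum_le_tsum _
    _ = _ := by simp

end Pool.Agent.H143R3.Sausage
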