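import Pool.Agent.H143R3.BM3

namespace Pool.Agent.H143R3.Sausage

open MeasureTheory ProbabilityTheory Set Filter Topology
open scoped ENNReal NNReal

set_option linter.unusedSectionVars false

variable {d : ℕ} {Ω Ω' : Type*} [MeasurableSpace Ω] [MeasurableSpace Ω']
  {P : Measure Ω} {P' : Measure Ω'} [IsProbabilityMeasure P] [IsProbabilityMeasure P']
  {X : ℝ≥0 → Ω → EuclideanSpace ℝ (Fin d)} {W : ℝ≥0 → Ω' → EuclideanSpace ℝ (Fin d)}

/-- stationarity of the averaged volume. -/
lemma V_shift (hW : IsBM P' W) (a : ℝ) (h : ℝ≥0) (J : Finset ℕ)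
    (c : ℕ → EuclideanSpace ℝ (Fin d)) (k : ℕ) :
    V P' W a h (J.image (fun j => k + j)) c =
      V P' W a h J (fun j => c (k + j) - c k) := by
  unfold V
  simp_rw [vU_image]
  have h1 : ∀ ω, vU a J (fun j => c (k + j) - grid W h ω (k + j)) =
      vU a J (fun j => (c (k + j) - c k) -
        grid (fun t ω => W (k * h + t) ω - W (k * h) ω) h ω j) := by
    intro ω
    rw [← vU_translate a J (fun j => (c (k + j) - c k) -
      grid (fun t ω => W (k * h + t) ω - W (k * h) ω) h ω j) (c k - W (k * h) ω)]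
    congr 1
    ext1 j
    unfold grid
    dsimp only
    rw [← add_mul]
    push_cast
    abel
  simp_rw [h1]
  have hΦ : Measurable (fun w : ℕ → EuclideanSpace ℝ (Fin d) =>
      vU a J (fun j => (c (k + j) - c k) - w j)) :=
    (measurable_vU a J).comp (measurable_sub_path (fun j => c (k + j) - c k))
  exact lintegral_grid_eq (hW.shift (k * h)) hW h hΦ

/-- block decomposition: the averaged volume of `q` blocks of length `b = b' + g` dominates the
sum of the block volumes up to an overlap error. -/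
lemma V_blocks (hd : 3 ≤ d) (hW : IsBM P' W) {a : ℝ} (ha : 0 < a) {h : ℝ≥0} (hh : 0 < h)
    (c : ℕ → EuclideanSpace ℝ (Fin d)) (b' g : ℕ) (q : ℕ) :
    ∑ k ∈ Finset.range q, V P' W a h (Finset.range b')
        (fun j => c (k * (b' + g) + j) - c (k * (b' + g))) ≤
      V P' W a h (Finset.range (q * (b' + g))) c + q * (b' * (tl a h g * vb d a)) := by
  set J : ℕ → Finset ℕ := fun q => (Finset.range q).biUnion
    (fun k => (Finset.range b').image (fun j => k * (b' + g) + j)) with hJ
  have hmain : ∀ q, ∑ k ∈ Finset.range q, V P' W a h (Finset.range b')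
        (fun j => c (k * (b' + g) + j) - c (k * (b' + g))) ≤
      V P' W a h (J q) c + q * (b' * (tl a h g * vb d a)) := by
    intro q
    induction q with
    | zero => simp
    | succ q ih =>
      rw [Finset.sum_range_succ]
      have hJs : J (q + 1) = J q ∪ (Finset.range b').image (fun j => q * (b' + g) + j) := by
        simp only [hJ, Finset.range_add_one, Finset.biUnion_insert]
        rw [Finset.union_comm]
      have hsep : ∀ i ∈ J q, ∀ j ∈ (Finset.range b').image (fun j => q * (b' + g) + j),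
          i + g < j := by
        intro i hi j hj
        simp only [hJ, Finset.mem_biUnion, Finset.mem_range, Finset.mem_image] at hi hj
        obtain ⟨k, hk, i', hi', rfl⟩ := hi
        obtain ⟨j', hj', rfl⟩ := hj
        have : (k + 1) * (b' + g) ≤ q * (b' + g) := Nat.mul_le_mul_right _ hk
        nlinarith
      have hV := V_union hd hW ha hh c hsep
      rw [← hJs] at hV
      have hcard : ((Finset.range b').image (fun j => q * (b' + g) + j)).card = b' := by
        rw [Finset.card_image_of_injective _ (fun x y hxy => by simpa using hxy)]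
        simp
      rw [hcard, V_shift hW] at hV
      calc _ ≤ (V P' W a h (J q) c + q * (b' * (tl a h g * vb d a))) +
            V P' W a h (Finset.range b')
              (fun j => c (q * (b' + g) + j) - c (q * (b' + g))) := by gcongr
        _ = (V P' W a h (J q) c + V P' W a h (Finset.range b')
              (fun j => c (q * (b' + g) + j) - c (q * (b' + g)))) +
              q * (b' * (tl a h g * vb d a)) := by ring
        _ ≤ (V P' W a h (J (q + 1)) c + b' * (tl a h g * vb d a)) +
              q * (b' * (tl a h g * vb d a)) := by gcongr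
        _ = _ := by push_cast; ring
  refine (hmain q).trans ?_
  gcongr
  unfold V
  refine lintegral_mono fun ω => vU_mono a ?_ _
  intro i hi
  simp only [hJ, Finset.mem_biUnion, Finset.mem_range, Finset.mem_image] at hi ⊢
  obtain ⟨k, hk, i', hi', rfl⟩ := hi
  have : (k + 1) * (b' + g) ≤ q * (b' + g) := Nat.mul_le_mul_right _ hk
  nlinarith

/-- finiteness and decay of the overlap tail. -/
lemma tl_eq (a : ℝ) (ha : 0 < a) (h : ℝ≥0) (hh : 0 < h) (g : ℕ) :
    tl a h g = ENNReal.ofReal ((2 * a / Real.sqrt h) ^ 3) *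
      ∑' s : ℕ, if g < s then ENNReal.ofReal (1 / (s:ℝ) ^ (3/2 : ℝ)) else 0 := by
  unfold tl
  rw [← ENNReal.tsum_mul_left]
  congr 1
  ext1 s
  split_ifs with hs
  · rw [← ENNReal.ofReal_mul (by positivity)]
    congr 1
    have hs0 : (0:ℝ) < s := by exact_mod_cast (by omega : 0 < s)
    have hh' : (0:ℝ) < h := by exact_mod_cast hh
    push_cast
    rw [Real.sqrt_mul hs0.le]
    have h1 : (s:ℝ) ^ (3/2 : ℝ) = Real.sqrt s ^ 3 := by
      rw [Real.sqrt_eq_rpow, ← Real.rpow_natCast, ← Real.rpow_mul hs0.le]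
      norm_num
    rw [h1]
    have h2 : 0 < Real.sqrt (s:ℝ) := Real.sqrt_pos.mpr hs0
    have h3 : 0 < Real.sqrt (h:ℝ) := Real.sqrt_pos.mpr hh'
    field_simp
  · simp

lemma summable_aux : ∑' s : ℕ, ENNReal.ofReal (1 / (s:ℝ) ^ (3/2 : ℝ)) ≠ ∞ := by
  have : Summable (fun s : ℕ => 1 / (s:ℝ) ^ (3/2 : ℝ)) :=
    Real.summable_one_div_nat_rpow.mpr (by norm_num)
  exact this.tsum_ofReal_ne_top

lemma tl_tendsto (a : ℝ) (ha : 0 < a) (h : ℝ≥0) (hh : 0 < h) :
    Tendsto (tl a h) atTop (𝓝 0) := by
  have h0 := ENNReal.tendsto_sum_nat_add (fun s : ℕ => ENNReal.ofReal (1 / (s:ℝ) ^ (3/2 : ℝ)))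
    summable_aux
  have h1 : ∀ g, tl a h g ≤ ENNReal.ofReal ((2 * a / Real.sqrt h) ^ 3) *
      ∑' k : ℕ, ENNReal.ofReal (1 / ((k + g : ℕ):ℝ) ^ (3/2 : ℝ)) := by
    intro g
    rw [tl_eq a ha h hh]
    gcongr _ * ?_
    rw [← Summable.sum_add_tsum_nat_add' (k := g) ENNReal.summable (f := fun s : ℕ =>
      if g < s then ENNReal.ofReal (1 / (s:ℝ) ^ (3/2 : ℝ)) else 0)]
    have : ∑ i ∈ Finset.range g, (if g < i then ENNReal.ofReal (1 / (i:ℝ) ^ (3/2 : ℝ)) else 0) = 0 := by
      refine Finset.sum_eq_zero fun i hi => ?_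
      rw [Finset.mem_range] at hi
      rw [if_neg (by omega)]
    rw [this, zero_add]
    refine ENNReal.tsum_le_tsum fun k => ?_
    split_ifs
    · exact le_rfl
    · exact zero_le
  have h2 : Tendsto (fun g => ENNReal.ofReal ((2 * a / Real.sqrt h) ^ 3) *
      ∑' k : ℕ, ENNReal.ofReal (1 / ((k + g : ℕ):ℝ) ^ (3/2 : ℝ))) atTop (𝓝 0) := by
    have := ENNReal.Tendsto.const_mul (a := ENNReal.ofReal ((2 * a / Real.sqrt h) ^ 3)) h0
      (Or.inr ENNReal.ofReal_ne_top)
    simpa using this
  exact tendsto_of_tendsto_of_tendsto_of_le_of_le tendsto_const_nhds h2 (fun _ => zero_le) h1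

end Pool.Agent.H143R3.Sausage
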