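import Pool.Agent.H143R3.BM4

namespace Pool.Agent.H143R3.Sausage

open MeasureTheory ProbabilityTheory Set Filter Topology
open scoped ENNReal NNReal

set_option linter.unusedSectionVars false

variable {d : ℕ} {Ω Ω' : Type*} [MeasurableSpace Ω] [MeasurableSpace Ω']
  {P : Measure Ω} {P' : Measure Ω'} [IsProbabilityMeasure P] [IsProbabilityMeasure P']
  {X : ℝ≥0 → Ω → EuclideanSpace ℝ (Fin d)} {W : ℝ≥0 → Ω' → EuclideanSpace ℝ (Fin d)}

lemma tl_ne_top (a : ℝ) (ha : 0 < a) (h : ℝ≥0) (hh : 0 < h) (g : ℕ) : tl a h g ≠ ∞ := by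
  rw [tl_eq a ha h hh]
  refine ENNReal.mul_ne_top ENNReal.ofReal_ne_top ?_
  refine ne_top_of_le_ne_top summable_aux (ENNReal.tsum_le_tsum fun s => ?_)
  split_ifs
  · exact le_rfl
  · exact zero_le

/-- blocks of increments. -/
def blk (X : ℝ≥0 → Ω → EuclideanSpace ℝ (Fin d)) (h : ℝ≥0) (b : ℕ) (k : ℕ) (ω : Ω) :
    Fin b → EuclideanSpace ℝ (Fin d) := fun j => inc X h (k * b + j) ω

lemma blk_measurable (hX : IsBM P X) (h : ℝ≥0) (b k : ℕ) : Measurable (blk X h b k) :=
  measurable_pi_iff.mpr fun _ => inc_measurable hX h _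

lemma blk_indep (hX : IsBM P X) (h : ℝ≥0) (b : ℕ) : iIndepFun (blk X h b) P := by
  have hinj : Function.Injective (fun p : ℕ × Fin b => p.1 * b + p.2) := by
    rintro ⟨k, j⟩ ⟨k', j'⟩ he
    simp only at he
    have hb : 0 < b := by have := j.2; omega
    have h1 : k = k' := by
      have e1 : (k * b + j) / b = k := by
        rw [mul_comm, Nat.mul_add_div hb, Nat.div_eq_of_lt j.2, add_zero]
      have e2 : (k' * b + j') / b = k' := by
        rw [mul_comm, Nat.mul_add_div hb, Nat.div_eq_of_lt j'.2, add_zero]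
      rw [← e1, ← e2, he]
    subst h1
    have : (j : ℕ) = j' := by omega
    rw [Fin.ext this]
  have h1 := (inc_indep hX h).precomp hinj
  have h2 := h1.map_fun_eq_infinitePi_map (fun p => inc_measurable hX h _)
  rw [iIndepFun_iff_map_fun_eq_infinitePi_map (blk_measurable hX h b)]
  have h3 : (fun ω k => blk X h b k ω) = (MeasurableEquiv.curry ℕ (Fin b) _) ∘
      (fun ω (p : ℕ × Fin b) => inc X h (p.1 * b + p.2) ω) := by
    ext1 ω
    rfl
  have hpr : ∀ k (j : Fin b), IsProbabilityMeasure (P.map (inc X h (k * b + j))) :=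
    fun k j => Measure.isProbabilityMeasure_map (inc_measurable hX h _).aemeasurable
  rw [h3, ← Measure.map_map (MeasurableEquiv.measurable _)
    (measurable_pi_iff.mpr fun p => inc_measurable hX h _)]
  have h2' : P.map (fun ω (p : ℕ × Fin b) => inc X h (p.1 * b + p.2) ω) =
      Measure.infinitePi (fun p : ℕ × Fin b => P.map (inc X h (p.1 * b + p.2))) := h2
  rw [h2', Measure.infinitePi_map_curry (fun k (j : Fin b) => P.map (inc X h (k * b + j)))]
  congr 1
  ext1 k
  have h4 := ((inc_indep hX h).precomp (g := fun j : Fin b => k * b + j) (fun i j hij => by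
    simp only at hij
    exact Fin.ext (by omega))).map_fun_eq_infinitePi_map (fun p => inc_measurable hX h _)
  exact h4.symm

lemma V_congr (a : ℝ) (h : ℝ≥0) (J : Finset ℕ) {c c' : ℕ → EuclideanSpace ℝ (Fin d)}
    (hc : ∀ j ∈ J, c j = c' j) : V P' W a h J c = V P' W a h J c' := by
  unfold V vU U
  congr 1
  ext1 ω
  congr 1
  refine iUnion₂_congr fun j hj => ?_
  dsimp only
  rw [hc j hj]

/-- the exponential of minus `lam` times a volume. -/
noncomputable def ex (lam : ℝ) (t : ℝ≥0∞) : ℝ≥0∞ := ENNReal.ofReal (Real.exp (-lam * t.toReal))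

lemma measurable_ex (lam : ℝ) : Measurable (ex lam) := by
  unfold ex
  fun_prop

lemma ex_lintegral_le {f : Ω → ℝ≥0∞} (hf : Measurable f) {B : ℝ} (hB : 0 ≤ B)
    (hfB : ∀ ω, f ω ≤ ENNReal.ofReal B) {lam : ℝ} (hlam : 0 ≤ lam) :
    ∫⁻ ω, ex lam (f ω) ∂P ≤
      ENNReal.ofReal (Real.exp (-lam * (∫⁻ ω, f ω ∂P).toReal + (lam * B) ^ 2)) := by
  have hft : ∀ ω, f ω < ∞ := fun ω => (hfB ω).trans_lt ENNReal.ofReal_lt_top
  have hfB' : ∀ ω, (f ω).toReal ≤ B := fun ω => ENNReal.toReal_le_of_le_ofReal hB (hfB ω)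
  have hmr : Measurable (fun ω => (f ω).toReal) := hf.ennreal_toReal
  have hint : Integrable (fun ω => (f ω).toReal) P := by
    refine Integrable.of_bound hmr.aestronglyMeasurable B (ae_of_all _ fun ω => ?_)
    rw [Real.norm_eq_abs, abs_of_nonneg ENNReal.toReal_nonneg]
    exact hfB' ω
  have hinte : Integrable (fun ω => Real.exp (-lam * (f ω).toReal)) P := by
    refine Integrable.of_bound
      (Real.measurable_exp.comp (hmr.const_mul (-lam))).aestronglyMeasurable 1
      (ae_of_all _ fun ω => ?_)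
    rw [Real.norm_eq_abs, abs_of_pos (Real.exp_pos _)]
    apply Real.exp_le_one_iff.mpr
    have := mul_nonneg hlam (ENNReal.toReal_nonneg (a := f ω))
    linarith
  unfold ex
  rw [← ofReal_integral_eq_lintegral_ofReal hinte (ae_of_all _ fun ω => (Real.exp_pos _).le)]
  apply ENNReal.ofReal_le_ofReal
  calc ∫ ω, Real.exp (-lam * (f ω).toReal) ∂P
      ≤ ∫ ω, ((1 + (lam * B) ^ 2) + (-lam) * (f ω).toReal) ∂P := by
        refine integral_mono hinte ((integrable_const _).add (hint.const_mul _)) fun ω => ?_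
        set x := lam * (f ω).toReal with hx
        have hx0 : 0 ≤ x := mul_nonneg hlam ENNReal.toReal_nonneg
        have hxB : x ≤ lam * B := mul_le_mul_of_nonneg_left (hfB' ω) hlam
        have h1 : Real.exp (-x) ≤ 1 - x + x ^ 2 := by
          rw [Real.exp_neg]
          have h2 : 1 + x ≤ Real.exp x := by linarith [Real.add_one_le_exp x]
          have h3 : (Real.exp x)⁻¹ ≤ (1 + x)⁻¹ := inv_anti₀ (by linarith) h2
          refine h3.trans ?_
          rw [inv_eq_one_div, div_le_iff₀ (by linarith)]
          have : 0 ≤ x ^ 3 := by positivity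
          nlinarith
        have h4 : x ^ 2 ≤ (lam * B) ^ 2 := by gcongr
        have h5 : -lam * (f ω).toReal = -x := by rw [hx]; ring
        simp only [h5]
        linarith
    _ = 1 + (lam * B) ^ 2 + (-lam) * (∫⁻ ω, f ω ∂P).toReal := by
        rw [integral_add (integrable_const _) (hint.const_mul _), integral_const_mul,
          integral_toReal hf.aemeasurable (ae_of_all _ hft)]
        simp
    _ ≤ _ := by
        have := Real.add_one_le_exp (-lam * (∫⁻ ω, f ω ∂P).toReal + (lam * B) ^ 2)
        linarith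

/-- Laplace transform bound along blocks. -/
lemma laplace_blocks (hd : 3 ≤ d) (hX : IsBM P X) (hW : IsBM P' W) {a : ℝ} (ha : 0 < a)
    {h : ℝ≥0} (hh : 0 < h) (b' g q : ℕ) {lam : ℝ} (hlam : 0 ≤ lam) :
    ∫⁻ ω, ex lam (V P' W a h (Finset.range (q * (b' + g))) (grid X h ω)) ∂P ≤
      ENNReal.ofReal (Real.exp (q * (lam * (b' * (tl a h g * vb d a).toReal)
        - lam * (∫⁻ ω, V P' W a h (Finset.range b') (grid X h ω) ∂P).toReal
        + (lam * (b' * (vb d a).toReal)) ^ 2))) := by
  set F : ℕ → Ω → ℝ≥0∞ := fun k ω => V P' W a h (Finset.range b')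
    (fun j => grid X h ω (k * (b' + g) + j) - grid X h ω (k * (b' + g))) with hF
  set R : ℝ := b' * (tl a h g * vb d a).toReal with hR
  have htlv : tl a h g * vb d a ≠ ∞ := ENNReal.mul_ne_top (tl_ne_top a ha h hh g) (vb_ne_top a)
  have hFfin : ∀ k ω, F k ω ≠ ∞ := fun k ω => ne_top_of_le_ne_top
    (ENNReal.mul_ne_top (ENNReal.natCast_ne_top _) (vb_ne_top a)) (V_le a h _ _)
  have hVfin : ∀ J ω, V P' W a h J (grid X h ω) ≠ ∞ := fun J ω => ne_top_of_le_ne_top
    (ENNReal.mul_ne_top (ENNReal.natCast_ne_top _) (vb_ne_top a)) (V_le a h _ _)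
  -- the block functional in terms of increments
  set G : (Fin (b' + g) → EuclideanSpace ℝ (Fin d)) → ℝ≥0∞ := fun ξ =>
    V P' W a h (Finset.range b') (fun j => ∑ i : Fin (b' + g), if i.val < j then ξ i else 0)
    with hG
  have hGm : Measurable G := by
    refine (measurable_V hW a h _).comp (measurable_pi_iff.mpr fun j => ?_)
    refine Finset.measurable_fun_sum _ fun i _ => ?_
    split_ifs
    · exact measurable_pi_apply i
    · exact measurable_const
  have hFG : ∀ k ω, F k ω = G (blk X h (b' + g) k ω) := by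
    intro k ω
    simp only [hF, hG]
    refine V_congr a h _ fun j hj => ?_
    rw [Finset.mem_range] at hj
    have h1 : ∑ i : Fin (b' + g), (if i.val < j then blk X h (b' + g) k ω i else 0) =
        ∑ i ∈ Finset.range j, inc X h (k * (b' + g) + i) ω := by
      have h2 : ∑ i : Fin (b' + g), (if i.val < j then blk X h (b' + g) k ω i else 0) =
          ∑ i ∈ Finset.range (b' + g),
            (if i < j then inc X h (k * (b' + g) + i) ω else 0) := by
        rw [Finset.sum_range]
        rfl
      rw [h2, ← Finset.sum_filter]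
      congr 1
      ext i
      simp only [Finset.mem_filter, Finset.mem_range]
      omega
    rw [h1]
    have h3 : ∀ m, ∑ i ∈ Finset.range m, inc X h (k * (b' + g) + i) ω =
        grid X h ω (k * (b' + g) + m) - grid X h ω (k * (b' + g)) := by
      intro m
      induction m with
      | zero => simp
      | succ m ih =>
        rw [Finset.sum_range_succ, ih]
        unfold inc grid
        rw [← add_assoc]
        abel
    rw [h3]
  have hFm : ∀ k, Measurable (F k) := by
    intro k
    have : F k = fun ω => G (blk X h (b' + g) k ω) := by ext1 ω; exact hFG k ω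
    rw [this]
    exact hGm.comp (blk_measurable hX h _ _)
  have hindep : iIndepFun (fun k ω => ex lam (F k ω)) P := by
    have := (blk_indep hX h (b' + g)).comp (fun _ ξ => ex lam (G ξ))
      (fun _ => (measurable_ex lam).comp hGm)
    have e : (fun k ω => ex lam (F k ω)) =
        fun k => (fun ξ => ex lam (G ξ)) ∘ (blk X h (b' + g) k) := by
      ext1 k; ext1 ω
      simp only [Function.comp, hFG]
    rw [e]
    exact this
  have hlaw : ∀ k, ∫⁻ ω, ex lam (F k ω) ∂P =
      ∫⁻ ω, ex lam (V P' W a h (Finset.range b') (grid X h ω)) ∂P := by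
    intro k
    have h1 := lintegral_grid_eq (hX.shift ((k * (b' + g) : ℕ) * h)) hX h
      (Φ := fun w => ex lam (V P' W a h (Finset.range b') w))
      ((measurable_ex lam).comp (measurable_V hW a h _))
    rw [← h1]
    congr 1
    ext1 ω
    simp only [hF]
    congr 2
    ext1 j
    unfold grid
    dsimp only
    rw [← add_mul]
    push_cast
    rfl
  have hpt : ∀ ω, ex lam (V P' W a h (Finset.range (q * (b' + g))) (grid X h ω)) ≤
      ENNReal.ofReal (Real.exp (lam * (q * R))) * ∏ k ∈ Finset.range q, ex lam (F k ω) := by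
    intro ω
    have h1 := V_blocks hd hW ha hh (grid X h ω) b' g q
    have h2 : ∑ k ∈ Finset.range q, (F k ω).toReal ≤
        (V P' W a h (Finset.range (q * (b' + g))) (grid X h ω)).toReal + q * R := by
      have h3 := ENNReal.toReal_mono (ENNReal.add_ne_top.mpr ⟨hVfin _ ω,
        ENNReal.mul_ne_top (ENNReal.natCast_ne_top q)
          (ENNReal.mul_ne_top (ENNReal.natCast_ne_top b') htlv)⟩) h1
      rw [ENNReal.toReal_sum (fun k _ => hFfin k ω), ENNReal.toReal_add (hVfin _ ω)
        (ENNReal.mul_ne_top (ENNReal.natCast_ne_top q)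
          (ENNReal.mul_ne_top (ENNReal.natCast_ne_top b') htlv)), ENNReal.toReal_mul,
        ENNReal.toReal_mul (a := (b' : ℝ≥0∞))] at h3
      simpa [hR] using h3
    unfold ex
    rw [← ENNReal.ofReal_prod_of_nonneg (fun k _ => (Real.exp_pos _).le),
      ← ENNReal.ofReal_mul (Real.exp_pos _).le, ← Real.exp_sum, ← Real.exp_add]
    apply ENNReal.ofReal_le_ofReal
    apply Real.exp_le_exp.mpr
    rw [← Finset.mul_sum]
    have := mul_le_mul_of_nonneg_left h2 hlam
    linarith
  calc ∫⁻ ω, ex lam (V P' W a h (Finset.range (q * (b' + g))) (grid X h ω)) ∂P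
      ≤ ∫⁻ ω, ENNReal.ofReal (Real.exp (lam * (q * R))) *
          ∏ k ∈ Finset.range q, ex lam (F k ω) ∂P := lintegral_mono hpt
    _ = ENNReal.ofReal (Real.exp (lam * (q * R))) *
          ∏ k ∈ Finset.range q, ∫⁻ ω, ex lam (F k ω) ∂P := by
        have hme : ∀ k, Measurable (fun ω => ex lam (F k ω)) := fun k =>
          (measurable_ex lam).comp (hFm k)
        rw [lintegral_const_mul _ (Finset.measurable_fun_prod _ fun k _ => hme k),
          lintegral_prod_eq_prod_lintegral_of_indepFun _ _ hindep hme]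
    _ = ENNReal.ofReal (Real.exp (lam * (q * R))) *
          (∫⁻ ω, ex lam (V P' W a h (Finset.range b') (grid X h ω)) ∂P) ^ q := by
        rw [Finset.prod_congr rfl (fun k _ => hlaw k)]
        simp
    _ ≤ ENNReal.ofReal (Real.exp (lam * (q * R))) * (ENNReal.ofReal (Real.exp
          (-lam * (∫⁻ ω, V P' W a h (Finset.range b') (grid X h ω) ∂P).toReal +
            (lam * (b' * (vb d a).toReal)) ^ 2))) ^ q := by
        gcongr
        refine ex_lintegral_le ((measurable_V hW a h _).comp (grid_measurable hX h))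
          (by positivity) (fun ω => ?_) hlam
        refine (V_le a h _ _).trans ?_
        rw [ENNReal.ofReal_mul (by positivity), ENNReal.ofReal_toReal (vb_ne_top a),
          Finset.card_range, ENNReal.ofReal_natCast]
    _ = _ := by
        rw [← ENNReal.ofReal_pow (Real.exp_pos _).le, ← ENNReal.ofReal_mul (Real.exp_pos _).le,
          ← Real.exp_nat_mul, ← Real.exp_add]
        congr 2
        ring

end Pool.Agent.H143R3.Sausage
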