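import Pool.Agent.H143R3.BM5

namespace Pool.Agent.H143R3.Sausage

open MeasureTheory ProbabilityTheory Set Filter Topology
open scoped ENNReal NNReal

set_option linter.unusedSectionVars false

variable {d : ℕ} {Ω Ω' : Type*} [MeasurableSpace Ω] [MeasurableSpace Ω']
  {P : Measure Ω} {P' : Measure Ω'} [IsProbabilityMeasure P] [IsProbabilityMeasure P']
  {X : ℝ≥0 → Ω → EuclideanSpace ℝ (Fin d)} {W : ℝ≥0 → Ω' → EuclideanSpace ℝ (Fin d)}

/-- The Wiener sausage `⋃_{s ≤ t} B(W_s, a)`. -/
def sausage (W : ℝ≥0 → Ω' → EuclideanSpace ℝ (Fin d)) (a : ℝ) (t : ℝ≥0) (ω : Ω') :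
    Set (EuclideanSpace ℝ (Fin d)) := ⋃ s ∈ Set.Iic t, Metric.ball (W s ω) a

/-- expected volume of the union of the balls around the grid points. -/
noncomputable def u (P' : Measure Ω') (W : ℝ≥0 → Ω' → EuclideanSpace ℝ (Fin d)) (a : ℝ)
    (h : ℝ≥0) (J : Finset ℕ) : ℝ≥0∞ := ∫⁻ ω, vU a J (grid W h ω) ∂P'

lemma u_ne_top (a : ℝ) (h : ℝ≥0) (J : Finset ℕ) : u P' W a h J ≠ ∞ := by
  unfold u
  refine ne_top_of_le_ne_top ?_ (lintegral_mono fun ω => vU_le a J (grid W h ω))
  rw [lintegral_const, measure_univ, mul_one]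
  exact ENNReal.mul_ne_top (ENNReal.natCast_ne_top _) (vb_ne_top a)

lemma u_shift (hW : IsBM P' W) (a : ℝ) (h : ℝ≥0) (J : Finset ℕ) (k : ℕ) :
    u P' W a h (J.image (fun j => k + j)) = u P' W a h J := by
  unfold u
  simp_rw [vU_image]
  have h1 : ∀ ω, vU a J (fun j => grid W h ω (k + j)) =
      vU a J (grid (fun t ω => W (k * h + t) ω - W (k * h) ω) h ω) := by
    intro ω
    rw [← vU_translate a J (grid (fun t ω => W (k * h + t) ω - W (k * h) ω) h ω) (W (k * h) ω)]
    congr 1
    ext1 j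
    unfold grid
    dsimp only
    rw [← add_mul]
    push_cast
    abel
  simp_rw [h1]
  exact lintegral_grid_eq (hW.shift (k * h)) hW h (measurable_vU a J)

/-- the half speed difference. -/
lemma lintegral_V_grid (hX : IsBM P X) (hW : IsBM P' W) (a : ℝ) (h : ℝ≥0) (J : Finset ℕ) :
    ∫⁻ ω, V P' W a h J (grid X h ω) ∂P = u P' W a (2 * h) J := by
  have h0 : ∀ p : Ω × Ω', (fun j => grid X h p.1 j - grid W h p.2 j) =
      grid (fun t (p : Ω × Ω') => X (t / 2) p.1 - W (t / 2) p.2) (2 * h) p := by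
    intro p
    ext1 j
    unfold grid
    dsimp only
    have : (j : ℝ≥0) * (2 * h) / 2 = j * h := by
      rw [mul_left_comm, mul_div_cancel_left₀ _ (by norm_num : (2:ℝ≥0) ≠ 0)]
    rw [this]
  have hD := diff_isBM hX hW
  have h1 := lintegral_grid_eq hD hW (2 * h) (measurable_vU (d := d) a J)
  unfold u V
  rw [← h1]
  have hm : Measurable (fun p : Ω × Ω' => vU a J
      (grid (fun t (p : Ω × Ω') => X (t / 2) p.1 - W (t / 2) p.2) (2 * h) p)) :=
    (measurable_vU a J).comp (grid_measurable hD _)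
  rw [lintegral_prod _ hm.aemeasurable]
  congr 1
  ext1 ω
  congr 1
  ext1 ω'
  exact congrArg (vU a J) (h0 (ω, ω'))

lemma vU_compare (a : ℝ) (p : ℕ → EuclideanSpace ℝ (Fin d)) (M : ℕ) (A B : ℕ → Finset ℕ)
    (hBA : ∀ k, B k ⊆ A k) :
    vU a ((Finset.range M).biUnion A) p + ∑ k ∈ Finset.range M, vU a (B k) p ≤
      vU a ((Finset.range M).biUnion B) p + ∑ k ∈ Finset.range M, vU a (A k) p := by
  have hU : ∀ (C : ℕ → Finset ℕ), U a ((Finset.range M).biUnion C) p =
      ⋃ k ∈ Finset.range M, U a (C k) p := by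
    intro C
    ext x
    simp only [U, Finset.mem_biUnion, mem_iUnion, exists_prop]
    constructor
    · rintro ⟨j, ⟨k, hk, hj⟩, hx⟩
      exact ⟨k, hk, j, hj, hx⟩
    · rintro ⟨k, hk, j, hj, hx⟩
      exact ⟨j, ⟨k, hk, hj⟩, hx⟩
  have hsub : ∀ k, U a (B k) p ⊆ U a (A k) p := fun k => biUnion_subset_biUnion_left (hBA k)
  have h1 : U a ((Finset.range M).biUnion A) p ⊆ U a ((Finset.range M).biUnion B) p ∪
      ⋃ k ∈ Finset.range M, (U a (A k) p \ U a (B k) p) := by
    rw [hU, hU]
    intro x hx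
    simp only [mem_iUnion, exists_prop, mem_union, Set.mem_sdiff] at hx ⊢
    obtain ⟨k, hk, hxk⟩ := hx
    by_cases hxB : x ∈ U a (B k) p
    · exact Or.inl ⟨k, hk, hxB⟩
    · exact Or.inr ⟨k, hk, hxk, hxB⟩
  have h2 : vU a ((Finset.range M).biUnion A) p ≤ vU a ((Finset.range M).biUnion B) p +
      ∑ k ∈ Finset.range M, volume (U a (A k) p \ U a (B k) p) := by
    unfold vU
    refine (measure_mono h1).trans ((measure_union_le _ _).trans ?_)
    gcongr
    exact measure_biUnion_finset_le _ _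
  have h3 : ∀ k, volume (U a (A k) p \ U a (B k) p) + vU a (B k) p = vU a (A k) p := by
    intro k
    unfold vU
    have := measure_inter_add_sdiff (μ := (volume : Measure (EuclideanSpace ℝ (Fin d))))
      (U a (A k) p) (measurableSet_U a (B k) p)
    rw [inter_eq_self_of_subset_right (hsub k)] at this
    rw [add_comm]
    exact this
  calc _ ≤ (vU a ((Finset.range M).biUnion B) p +
      ∑ k ∈ Finset.range M, volume (U a (A k) p \ U a (B k) p)) +
        ∑ k ∈ Finset.range M, vU a (B k) p := by gcongr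
    _ = vU a ((Finset.range M).biUnion B) p +
      ∑ k ∈ Finset.range M, (volume (U a (A k) p \ U a (B k) p) + vU a (B k) p) := by
        rw [Finset.sum_add_distrib, add_assoc]
    _ = _ := by simp_rw [h3]

/-- comparison between a fine grid and a coarse grid. -/
lemma u_compare (hW : IsBM P' W) (a : ℝ) (h : ℝ≥0) (r n M : ℕ) :
    u P' W a h (Finset.range (M * (n * r) + 1)) +
        M * u P' W a (r * h) (Finset.range (n + 1)) ≤
      u P' W a (r * h) (Finset.range (M * n + 1)) + M * u P' W a h (Finset.range (n * r + 1)) := by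
  have hgr : ∀ ω (j : ℕ), grid W (r * h) ω j = grid W h ω (j * r) := by
    intro ω j
    unfold grid
    push_cast
    rw [mul_assoc]
  have hcoarse : ∀ J : Finset ℕ, ∀ ω, vU a J (grid W (r * h) ω) =
      vU a (J.image (fun j => j * r)) (grid W h ω) := by
    intro J ω
    rw [vU_image]
    congr 1
    ext1 j
    exact hgr ω j
  set A : ℕ → Finset ℕ := fun k => (Finset.range (n * r + 1)).image (fun j => k * (n * r) + j)
    with hA
  set B : ℕ → Finset ℕ := fun k =>
    ((Finset.range (n + 1)).image (fun j => k * n + j)).image (fun j => j * r) with hB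
  have hBA : ∀ k, B k ⊆ A k := by
    intro k i hi
    simp only [hB, hA, Finset.mem_image, Finset.mem_range] at hi ⊢
    obtain ⟨j, ⟨l, hl, rfl⟩, rfl⟩ := hi
    refine ⟨l * r, ?_, by ring⟩
    have : l * r ≤ n * r := Nat.mul_le_mul_right r (by omega)
    omega
  have hmeas : ∀ J : Finset ℕ, Measurable (fun ω => vU a J (grid W h ω)) :=
    fun J => (measurable_vU a J).comp (grid_measurable hW h)
  rcases Nat.eq_zero_or_pos M with hM | hM
  · subst hM
    simp only [zero_mul, zero_add, Nat.cast_zero, add_zero]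
    unfold u
    refine lintegral_mono fun ω => ?_
    rw [hcoarse]
    simp
  have hAall : Finset.range (M * (n * r) + 1) = (Finset.range M).biUnion A := by
    ext i
    simp only [hA, Finset.mem_biUnion, Finset.mem_range, Finset.mem_image]
    constructor
    · intro hi
      rcases Nat.eq_zero_or_pos (n * r) with h0 | h0
      · refine ⟨0, hM, 0, by omega, ?_⟩
        rw [h0] at hi
        omega
      · rcases Nat.lt_or_ge i (M * (n * r)) with h1 | h1
        · refine ⟨i / (n * r), Nat.div_lt_of_lt_mul (by rwa [mul_comm] at h1),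
            i % (n * r), (Nat.mod_lt _ h0).trans (by omega), ?_⟩
          rw [mul_comm]
          exact Nat.div_add_mod _ _
        · have h2 : i = M * (n * r) := by omega
          refine ⟨M - 1, by omega, n * r, by omega, ?_⟩
          rw [h2]
          obtain ⟨M', rfl⟩ : ∃ M', M = M' + 1 := ⟨M - 1, by omega⟩
          simp only [Nat.add_sub_cancel]
          ring
    · rintro ⟨k, hk, j, hj, rfl⟩
      have : (k + 1) * (n * r) ≤ M * (n * r) := Nat.mul_le_mul_right _ hk
      have h2 : (k + 1) * (n * r) = k * (n * r) + n * r := by ring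
      omega
  have hBall : (Finset.range M).biUnion B ⊆
      (Finset.range (M * n + 1)).image (fun j => j * r) := by
    intro i hi
    simp only [hB, Finset.mem_biUnion, Finset.mem_range, Finset.mem_image] at hi ⊢
    obtain ⟨k, hk, j, ⟨l, hl, rfl⟩, rfl⟩ := hi
    refine ⟨k * n + l, ?_, rfl⟩
    have : (k + 1) * n ≤ M * n := Nat.mul_le_mul_right _ hk
    have h2 : (k + 1) * n = k * n + n := by ring
    omega
  have hpt := fun ω => vU_compare a (grid W h ω) M A B hBA
  have hint := lintegral_mono (μ := P') hpt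
  rw [lintegral_add_left (hmeas _), lintegral_add_left (hmeas _),
    lintegral_finsetSum _ (fun k _ => hmeas _), lintegral_finsetSum _ (fun k _ => hmeas _)] at hint
  have hAk : ∀ k, ∫⁻ ω, vU a (A k) (grid W h ω) ∂P' = u P' W a h (Finset.range (n * r + 1)) :=
    fun k => u_shift hW a h _ _
  have hBk : ∀ k, ∫⁻ ω, vU a (B k) (grid W h ω) ∂P' = u P' W a (r * h) (Finset.range (n + 1)) := by
    intro k
    have h1 := u_shift hW a (r * h) (Finset.range (n + 1)) (k * n)
    rw [← h1]
    unfold u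
    simp_rw [hcoarse]
    rfl
  simp_rw [hAk, hBk] at hint
  rw [Finset.sum_const, Finset.card_range, nsmul_eq_mul, Finset.sum_const, Finset.card_range,
    nsmul_eq_mul] at hint
  calc _ = ∫⁻ ω, vU a ((Finset.range M).biUnion A) (grid W h ω) ∂P' +
      M * u P' W a (r * h) (Finset.range (n + 1)) := by
        rw [hAall]; rfl
    _ ≤ _ := hint
    _ ≤ _ := by
        gcongr
        unfold u
        refine lintegral_mono fun ω => ?_
        rw [hcoarse]
        exact vU_mono a hBall _

/-- dyadic mesh. -/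
noncomputable def dm (m : ℕ) : ℝ≥0 := (1 / 2) ^ m

lemma dm_mul (m : ℕ) : (2 ^ m : ℝ≥0) * dm m = 1 := by
  unfold dm
  rw [← mul_pow]
  norm_num

/-- the dyadic approximation of the expected volume. -/
noncomputable def ud (P' : Measure Ω') (W : ℝ≥0 → Ω' → EuclideanSpace ℝ (Fin d)) (a : ℝ)
    (M m : ℕ) : ℝ≥0∞ := u P' W a (dm m) (Finset.range (M * 2 ^ m + 1))

lemma ud_ne_top (a : ℝ) (M m : ℕ) : ud P' W a M m ≠ ∞ := u_ne_top _ _ _

lemma ud_compare (hW : IsBM P' W) (a : ℝ) (M : ℕ) {m m' : ℕ} (hmm : m ≤ m') :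
    ud P' W a M m' + M * ud P' W a 1 m ≤ ud P' W a M m + M * ud P' W a 1 m' := by
  have h1 := u_compare hW a (dm m') (2 ^ (m' - m)) (2 ^ m) M
  have h2 : (2:ℕ) ^ m * 2 ^ (m' - m) = 2 ^ m' := by
    rw [← pow_add, Nat.add_sub_cancel' hmm]
  have h3 : ((2 ^ (m' - m) : ℕ) : ℝ≥0) * dm m' = dm m := by
    unfold dm
    rw [show m' = (m' - m) + m by omega, pow_add, Nat.add_sub_cancel, ← mul_assoc]
    push_cast
    rw [← mul_pow]
    norm_num
  rw [h2, h3] at h1
  unfold ud
  simpa using h1

lemma dyadic_mono (a : ℝ) (M : ℕ) (f : ℝ≥0 → EuclideanSpace ℝ (Fin d)) :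
    Monotone (fun m => U a (Finset.range (M * 2 ^ m + 1)) (fun j => f (j * dm m))) := by
  refine monotone_nat_of_le_succ fun m => ?_
  intro x hx
  simp only [U, mem_iUnion, exists_prop, Finset.mem_range] at hx ⊢
  obtain ⟨j, hj, hx⟩ := hx
  refine ⟨2 * j, ?_, ?_⟩
  · rw [pow_succ]
    nlinarith
  · have : ((2 * j : ℕ) : ℝ≥0) * dm (m + 1) = j * dm m := by
      unfold dm
      rw [pow_succ]
      push_cast
      ring_nf
    rw [this]
    exact hx

lemma dyadic_iUnion (a : ℝ) (M : ℕ) (f : ℝ≥0 → EuclideanSpace ℝ (Fin d)) (hf : Continuous f) :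
    (⋃ s ∈ Set.Iic (M : ℝ≥0), Metric.ball (f s) a) =
      ⋃ m, U a (Finset.range (M * 2 ^ m + 1)) (fun j => f (j * dm m)) := by
  ext x
  simp only [U, mem_iUnion, exists_prop, Finset.mem_range, mem_Iic, Metric.mem_ball]
  constructor
  · rintro ⟨s, hs, hx⟩
    have hlim : Tendsto (fun m : ℕ => (⌊s * 2 ^ m⌋₊ : ℝ≥0) * dm m) atTop (𝓝 s) := by
      have h1 : ∀ m : ℕ, (⌊s * 2 ^ m⌋₊ : ℝ≥0) * dm m ≤ s := by
        intro m
        calc (⌊s * 2 ^ m⌋₊ : ℝ≥0) * dm m ≤ (s * 2 ^ m) * dm m := by
              gcongr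
              exact Nat.floor_le (by positivity)
          _ = s := by rw [mul_assoc, dm_mul, mul_one]
      have h2 : ∀ m : ℕ, s - dm m ≤ (⌊s * 2 ^ m⌋₊ : ℝ≥0) * dm m := by
        intro m
        rw [tsub_le_iff_right]
        calc s = (s * 2 ^ m) * dm m := by rw [mul_assoc, dm_mul, mul_one]
          _ ≤ ((⌊s * 2 ^ m⌋₊ : ℝ≥0) + 1) * dm m := by
              gcongr
              exact (Nat.lt_floor_add_one _).le
          _ = _ := by ring
      have h3 : Tendsto (fun m : ℕ => s - dm m) atTop (𝓝 s) := by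
        have h4 : Tendsto dm atTop (𝓝 0) := by
          unfold dm
          exact NNReal.tendsto_pow_atTop_nhds_zero_of_lt_one (by
            rw [div_lt_one (by norm_num)]; norm_num)
        have := (tendsto_const_nhds (x := s)).sub h4
        simpa using this
      exact tendsto_of_tendsto_of_tendsto_of_le_of_le h3 tendsto_const_nhds h2 h1
    have h5 : Tendsto (fun m : ℕ => dist x (f ((⌊s * 2 ^ m⌋₊ : ℝ≥0) * dm m))) atTop
        (𝓝 (dist x (f s))) :=
      tendsto_const_nhds.dist ((hf.tendsto s).comp hlim)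
    obtain ⟨m, hm⟩ := (h5.eventually (gt_mem_nhds hx)).exists
    refine ⟨m, ⌊s * 2 ^ m⌋₊, ?_, hm⟩
    have : ⌊s * 2 ^ m⌋₊ ≤ M * 2 ^ m := by
      rw [← Nat.cast_le (α := ℝ≥0)]
      refine (Nat.floor_le (by positivity)).trans ?_
      push_cast
      gcongr
    omega
  · rintro ⟨m, j, hj, hx⟩
    refine ⟨j * dm m, ?_, hx⟩
    calc (j : ℝ≥0) * dm m ≤ (M * 2 ^ m : ℕ) * dm m := by
          gcongr
          omega
      _ = M := by
          push_cast
          rw [mul_assoc, dm_mul, mul_one]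

/-- the expected volume of the sausage is the limit of the dyadic approximations. -/
lemma sausage_eq_iSup (hW : IsBM P' W) (a : ℝ) (M : ℕ) :
    ∫⁻ ω, volume (sausage W a M ω) ∂P' = ⨆ m, ud P' W a M m := by
  have h1 : ∀ᵐ ω ∂P', volume (sausage W a M ω) =
      ⨆ m, vU a (Finset.range (M * 2 ^ m + 1)) (grid W (dm m) ω) := by
    filter_upwards [hW.cont] with ω hω
    unfold sausage
    rw [dyadic_iUnion a M (fun s => W s ω) hω]
    exact (dyadic_mono a M (fun s => W s ω)).measure_iUnion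
  rw [lintegral_congr_ae h1, lintegral_iSup]
  · rfl
  · intro m
    exact (measurable_vU a _).comp (grid_measurable hW _)
  · intro m m' hmm ω
    exact measure_mono (dyadic_mono a M (fun s => W s ω) hmm)

end Pool.Agent.H143R3.Sausage
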