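import Pool.Agent.H143R3.BM6

namespace Pool.Agent.H143R3.Sausage

open MeasureTheory ProbabilityTheory Set Filter Topology
open scoped ENNReal NNReal

set_option linter.unusedSectionVars false

variable {d : ℕ} {Ω Ω' : Type*} [MeasurableSpace Ω] [MeasurableSpace Ω']
  {P : Measure Ω} {P' : Measure Ω'} [IsProbabilityMeasure P] [IsProbabilityMeasure P']
  {X : ℝ≥0 → Ω → EuclideanSpace ℝ (Fin d)} {W : ℝ≥0 → Ω' → EuclideanSpace ℝ (Fin d)}

/-- dyadic grids capture the sausage up to a small proportion. -/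
lemma grid_approx (hW : IsBM P' W) (a : ℝ) {κ : ℝ}
    (hκ : Tendsto (fun t : ℝ≥0 => (∫⁻ ω, volume (sausage W a t ω) ∂P') / t) atTop
      (𝓝 (ENNReal.ofReal κ))) {η : ℝ} (hη : 0 < η) :
    ∃ m M₀ : ℕ, ∀ M ≥ M₀, M * (κ - 2 * η) ≤ (ud P' W a M m).toReal := by
  set w : ℝ≥0 → ℝ≥0∞ := fun t => ∫⁻ ω, volume (sausage W a t ω) ∂P' with hw
  have hmono : ∀ s t : ℝ≥0, s ≤ t → w s ≤ w t := by
    intro s t hst
    refine lintegral_mono fun ω => measure_mono ?_
    exact biUnion_subset_biUnion_left (Iic_subset_Iic.mpr hst)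
  have hnat : Tendsto (fun M : ℕ => w M / M) atTop (𝓝 (ENNReal.ofReal κ)) := by
    have := hκ.comp (tendsto_natCast_atTop_atTop (R := ℝ≥0))
    refine this.congr fun M => ?_
    simp [hw]
  -- finiteness of `w 1`
  have hw1 : w 1 ≠ ∞ := by
    have h1 : ∀ᶠ M : ℕ in atTop, w M / M < ENNReal.ofReal κ + 1 :=
      hnat.eventually (gt_mem_nhds (ENNReal.lt_add_right ENNReal.ofReal_ne_top (by simp)))
    obtain ⟨M, hM1, hM2⟩ := (h1.and (eventually_ge_atTop 1)).exists
    have h2 : w 1 ≤ w M := hmono _ _ (by exact_mod_cast hM2)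
    refine ne_top_of_le_ne_top ?_ h2
    intro h3
    rw [h3, ENNReal.top_div_of_ne_top (ENNReal.natCast_ne_top M)] at hM1
    exact absurd hM1 (by simp)
  have hw1s : w 1 = ⨆ m, ud P' W a 1 m := by
    have := sausage_eq_iSup hW a 1
    simpa [hw] using this
  obtain ⟨m, hm⟩ : ∃ m, w 1 ≤ ud P' W a 1 m + ENNReal.ofReal η := by
    by_contra hcon
    push Not at hcon
    have h1 : (⨆ m, ud P' W a 1 m) + ENNReal.ofReal η ≤ w 1 := by
      rw [ENNReal.iSup_add]
      exact iSup_le fun m => (hcon m).le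
    rw [← hw1s] at h1
    have h2 : w 1 < w 1 + ENNReal.ofReal η :=
      ENNReal.lt_add_right hw1 (by simpa using hη)
    exact absurd (h2.trans_le h1) (lt_irrefl _)
  have hcmp : ∀ M : ℕ, w M ≤ ud P' W a M m + M * ENNReal.ofReal η := by
    intro M
    have h1 : w M = ⨆ m, ud P' W a M m := sausage_eq_iSup hW a M
    rw [h1]
    refine iSup_le fun m' => ?_
    have h2 : ud P' W a M m' ≤ ud P' W a M (max m m') := by
      refine lintegral_mono fun ω => ?_
      exact measure_mono (dyadic_mono a M (fun s => W s ω) (le_max_right m m'))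
    refine h2.trans ?_
    have h3 := ud_compare hW a M (le_max_left m m')
    have h4 : ud P' W a 1 (max m m') ≤ ud P' W a 1 m + ENNReal.ofReal η := by
      refine le_trans ?_ hm
      rw [hw1s]
      exact le_iSup (fun m => ud P' W a 1 m) _
    have h5 : ud P' W a M (max m m') + M * ud P' W a 1 m ≤
        (ud P' W a M m + M * ENNReal.ofReal η) + M * ud P' W a 1 m := by
      calc _ ≤ ud P' W a M m + M * ud P' W a 1 (max m m') := h3
        _ ≤ ud P' W a M m + M * (ud P' W a 1 m + ENNReal.ofReal η) := by gcongr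
        _ = _ := by ring
    exact (ENNReal.add_le_add_iff_right (ENNReal.mul_ne_top (ENNReal.natCast_ne_top M)
      (ud_ne_top a 1 m))).mp h5
  rcases le_or_gt (κ - η) 0 with hneg | hpos
  · refine ⟨m, 0, fun M _ => ?_⟩
    have h1 : (M:ℝ) * (κ - 2 * η) ≤ 0 :=
      mul_nonpos_of_nonneg_of_nonpos (Nat.cast_nonneg M) (by linarith)
    exact h1.trans ENNReal.toReal_nonneg
  · have hlt : ENNReal.ofReal (κ - η) < ENNReal.ofReal κ :=
      (ENNReal.ofReal_lt_ofReal_iff (by linarith)).mpr (by linarith)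
    have h1 : ∀ᶠ M : ℕ in atTop, ENNReal.ofReal (κ - η) < w M / M :=
      hnat.eventually (lt_mem_nhds hlt)
    obtain ⟨M₀, hM₀⟩ := (h1.and (eventually_ge_atTop 1)).exists_forall_of_atTop
    refine ⟨m, M₀, fun M hM => ?_⟩
    obtain ⟨h2, h3⟩ := hM₀ M hM
    have h4 : ENNReal.ofReal (κ - η) * M ≤ w M := by
      rw [← ENNReal.le_div_iff_mul_le (by left; simp; omega) (by left; simp)]
      exact h2.le
    have h5 := h4.trans (hcmp M)
    have h6 := ENNReal.toReal_mono (ENNReal.add_ne_top.mpr ⟨ud_ne_top a M m,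
      ENNReal.mul_ne_top (ENNReal.natCast_ne_top M) ENNReal.ofReal_ne_top⟩) h5
    rw [ENNReal.toReal_mul, ENNReal.toReal_add (ud_ne_top a M m)
      (ENNReal.mul_ne_top (ENNReal.natCast_ne_top M) ENNReal.ofReal_ne_top),
      ENNReal.toReal_mul, ENNReal.toReal_ofReal hpos.le, ENNReal.toReal_ofReal hη.le,
      ENNReal.toReal_natCast] at h6
    nlinarith

/-- the sausage rate is positive in dimension at least `3`. -/
lemma rate_pos (hd : 3 ≤ d) (hW : IsBM P' W) {a : ℝ} (ha : 0 < a) {κ : ℝ}
    (hκ : Tendsto (fun t : ℝ≥0 => (∫⁻ ω, volume (sausage W a t ω) ∂P') / t) atTop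
      (𝓝 (ENNReal.ofReal κ))) : 0 < κ := by
  -- choose a mesh with small overlap
  have htl1 := tl_tendsto (a := a) ha 1 one_pos
  obtain ⟨g, hg⟩ : ∃ g, tl a 1 g < 1 / 2 :=
    (htl1.eventually (gt_mem_nhds (by norm_num))).exists
  -- indices spaced by `g + 1`
  have hind : ∀ q : ℕ, (q : ℝ≥0∞) * vb d a ≤
      V P' W a 1 (((Finset.range q).image (fun k => k * (g + 1)))) (fun _ => 0) +
        q * (1 / 2 * vb d a) := by
    intro q
    induction q with
    | zero => simp
    | succ q ih =>
      have hsep : ∀ i ∈ (Finset.range q).image (fun k => k * (g + 1)),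
          ∀ j ∈ ({q * (g + 1)} : Finset ℕ), i + g < j := by
        intro i hi j hj
        simp only [Finset.mem_image, Finset.mem_range, Finset.mem_singleton] at hi hj
        obtain ⟨k, hk, rfl⟩ := hi
        subst hj
        have : (k + 1) * (g + 1) ≤ q * (g + 1) := Nat.mul_le_mul_right _ hk
        nlinarith
      have hV := V_union hd hW ha one_pos (fun _ => 0) hsep
      have hS : (Finset.range q).image (fun k => k * (g + 1)) ∪ {q * (g + 1)} =
          (Finset.range (q + 1)).image (fun k => k * (g + 1)) := by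
        rw [Finset.range_add_one, Finset.image_insert, Finset.union_comm]
        rfl
      have hone : V P' W a 1 {q * (g + 1)} (fun _ => 0) = vb d a := by
        unfold V vU U
        have : ∀ ω, volume (⋃ j ∈ ({q * (g + 1)} : Finset ℕ),
            Metric.ball ((0 : EuclideanSpace ℝ (Fin d)) - grid W 1 ω j) a) = vb d a := by
          intro ω
          simp only [Finset.mem_singleton, iUnion_iUnion_eq_left]
          exact vb_eq _ _
        simp_rw [this]
        simp
      rw [hS, hone, Finset.card_singleton, Nat.cast_one, one_mul] at hV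
      calc ((q + 1 : ℕ) : ℝ≥0∞) * vb d a = q * vb d a + vb d a := by push_cast; ring
        _ ≤ (V P' W a 1 (((Finset.range q).image (fun k => k * (g + 1)))) (fun _ => 0) +
            q * (1 / 2 * vb d a)) + vb d a := by gcongr
        _ = (V P' W a 1 (((Finset.range q).image (fun k => k * (g + 1)))) (fun _ => 0) + vb d a) +
            q * (1 / 2 * vb d a) := by ring
        _ ≤ (V P' W a 1 ((Finset.range (q + 1)).image (fun k => k * (g + 1))) (fun _ => 0) +
            tl a 1 g * vb d a) + q * (1 / 2 * vb d a) := by gcongr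
        _ ≤ (V P' W a 1 ((Finset.range (q + 1)).image (fun k => k * (g + 1))) (fun _ => 0) +
            1 / 2 * vb d a) + q * (1 / 2 * vb d a) := by gcongr
        _ = _ := by push_cast; ring
  have hvb : 0 < vb d a := Metric.measure_ball_pos _ _ ha
  have hhalf : ∀ q : ℕ, (q : ℝ≥0∞) * (1 / 2 * vb d a) ≤
      ∫⁻ ω, volume (sausage W a (q * (g + 1) : ℕ) ω) ∂P' := by
    intro q
    have h1 := hind q
    have h2 : (q : ℝ≥0∞) * vb d a = q * (1 / 2 * vb d a) + q * (1 / 2 * vb d a) := by
      rw [← mul_add, ← add_mul, ENNReal.add_halves, one_mul]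
    rw [h2] at h1
    have h3 := (ENNReal.add_le_add_iff_right (ENNReal.mul_ne_top (ENNReal.natCast_ne_top q)
      (ENNReal.mul_ne_top (by simp) (vb_ne_top a)))).mp h1
    refine h3.trans ?_
    unfold V
    refine lintegral_mono fun ω => ?_
    have h4 : vU a ((Finset.range q).image (fun k => k * (g + 1)))
        (fun j => (0 : EuclideanSpace ℝ (Fin d)) - grid W 1 ω j) =
        vU a ((Finset.range q).image (fun k => k * (g + 1))) (grid W 1 ω) := by
      unfold vU
      have : U a ((Finset.range q).image (fun k => k * (g + 1)))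
        (fun j => (0 : EuclideanSpace ℝ (Fin d)) - grid W 1 ω j) =
        Neg.neg ⁻¹' (U a ((Finset.range q).image (fun k => k * (g + 1))) (grid W 1 ω)) := by
        ext x
        simp only [U, mem_iUnion, Metric.mem_ball, mem_preimage, exists_prop]
        refine exists_congr fun j => and_congr_right fun _ => ?_
        rw [dist_eq_norm, dist_eq_norm, ← norm_neg]
        have : -(x - (0 - grid W 1 ω j)) = -x - grid W 1 ω j := by abel
        rw [this]
      rw [this, Measure.measure_preimage_neg]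
    rw [h4]
    unfold vU
    refine measure_mono ?_
    intro x hx
    simp only [U, mem_iUnion, exists_prop, Finset.mem_image, Finset.mem_range] at hx
    obtain ⟨j, ⟨k, hk, rfl⟩, hx⟩ := hx
    simp only [sausage, mem_iUnion, exists_prop, mem_Iic]
    refine ⟨((k * (g + 1) : ℕ) : ℝ≥0) * 1, ?_, hx⟩
    rw [mul_one]
    exact_mod_cast Nat.mul_le_mul_right _ hk.le
  by_contra hcon
  push Not at hcon
  rw [ENNReal.ofReal_of_nonpos hcon] at hκ
  have hseq : Tendsto (fun q : ℕ => ((q * (g + 1) : ℕ) : ℝ≥0)) atTop atTop := by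
    have h1 : Tendsto (fun q : ℕ => q * (g + 1)) atTop atTop :=
      tendsto_id.atTop_mul_const' (Nat.succ_pos g)
    exact (tendsto_natCast_atTop_atTop (R := ℝ≥0)).comp h1
  have h1 := hκ.comp hseq
  have h2 : (1 / 2 * vb d a) / (g + 1 : ℕ) ≤ 0 := by
    refine ge_of_tendsto h1 ?_
    filter_upwards [eventually_ge_atTop 1] with q hq
    have hq0 : (q : ℝ≥0∞) ≠ 0 := by simp; omega
    calc (1 / 2 * vb d a) / (g + 1 : ℕ) = ((q : ℝ≥0∞) * (1 / 2 * vb d a)) / (q * (g + 1 : ℕ)) := by
          rw [ENNReal.mul_div_mul_left _ _ hq0 (ENNReal.natCast_ne_top q)]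
      _ ≤ (∫⁻ ω, volume (sausage W a (q * (g + 1) : ℕ) ω) ∂P') / (q * (g + 1 : ℕ)) := by
          gcongr
          exact hhalf q
      _ = _ := by
          simp only [Function.comp]
          push_cast
          rfl
  have h3 : 0 < (1 / 2 * vb d a) / (g + 1 : ℕ) := by
    apply ENNReal.div_pos
    · exact (ENNReal.mul_pos (by simp) hvb.ne').ne'
    · exact ENNReal.natCast_ne_top _
  exact absurd h2 (not_le.mpr h3)

end Pool.Agent.H143R3.Sausage
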