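import Pool.Agent.H143R3.BM7

namespace Pool.Agent.H143R3.Sausage

open MeasureTheory ProbabilityTheory Set Filter Topology
open scoped ENNReal NNReal

set_option linter.unusedSectionVars false

variable {d : ℕ} {Ω : Type*} [MeasurableSpace Ω] {P : Measure Ω} [IsProbabilityMeasure P]
  {x : ℕ → Ω → EuclideanSpace ℝ (Fin d)}

/-- The number of points `x i ω` in the set `A`. -/
noncomputable def count (x : ℕ → Ω → EuclideanSpace ℝ (Fin d))
    (A : Set (EuclideanSpace ℝ (Fin d))) (ω : Ω) : ℝ≥0∞ :=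
  ∑' i, A.indicator (fun _ => (1 : ℝ≥0∞)) (x i ω)

/-- The sequence of random points `x 0, x 1, …` is an enumeration of a Poisson point process on
`ℝ^d` with intensity `lam` times Lebesgue measure: the number of points in a Borel set `A` of
finite volume is Poisson with mean `lam * |A|`, and the numbers of points in finitely many
disjoint such sets are independent. -/
structure IsPoissonProcess (P : Measure Ω) (lam : ℝ≥0)
    (x : ℕ → Ω → EuclideanSpace ℝ (Fin d)) : Prop where
  measurable : ∀ i, Measurable (x i)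
  law : ∀ A, MeasurableSet A → volume A ≠ ∞ → P.map (count x A) =
    (poissonMeasure (lam * (volume A).toNNReal)).map (fun n : ℕ => (n : ℝ≥0∞))
  indep : ∀ (ι : Type) [Finite ι] (A : ι → Set (EuclideanSpace ℝ (Fin d))),
    (∀ i, MeasurableSet (A i)) → (∀ i, volume (A i) ≠ ∞) →
    Pairwise (Function.onFun Disjoint A) → iIndepFun (fun i => count x (A i)) P

lemma measurable_count (hx : ∀ i, Measurable (x i)) {A : Set (EuclideanSpace ℝ (Fin d))}
    (hA : MeasurableSet A) : Measurable (count x A) := by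
  unfold count
  refine Measurable.tsum fun i => ?_
  exact (measurable_const.indicator hA).comp (hx i)

lemma poisson_pgf (r : ℝ≥0) (c : ℝ≥0) (hc : c ≤ 1) :
    ∫⁻ n : ℕ, (1 - (c : ℝ≥0∞)) ^ n ∂(poissonMeasure r) =
      ENNReal.ofReal (Real.exp (-(r * c))) := by
  have h1 : (1 - (c : ℝ≥0∞)) = ENNReal.ofReal (1 - c) := by
    rw [ENNReal.ofReal_sub _ (NNReal.coe_nonneg c), ENNReal.ofReal_one,
      ENNReal.ofReal_coe_nnreal]
  have hc' : (0:ℝ) ≤ 1 - c := by
    have : (c:ℝ) ≤ 1 := by exact_mod_cast hc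
    linarith
  rw [h1, poissonMeasure, lintegral_sum_measure]
  simp_rw [lintegral_smul_measure, lintegral_dirac, smul_eq_mul]
  have h2 : ∀ n : ℕ, ENNReal.ofReal (Real.exp (-r) * r ^ n / (n.factorial)) *
      ENNReal.ofReal (1 - c) ^ n =
      ENNReal.ofReal (Real.exp (-r) * ((r * (1 - c)) ^ n / n.factorial)) := by
    intro n
    rw [← ENNReal.ofReal_pow hc', ← ENNReal.ofReal_mul (by positivity)]
    congr 1
    rw [mul_pow]
    ring
  simp_rw [h2]
  have h3 : HasSum (fun n : ℕ => Real.exp (-r) * ((r * (1 - c)) ^ n / n.factorial))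
      (Real.exp (-r) * Real.exp (r * (1 - c))) := by
    have := (NormedSpace.expSeries_div_hasSum_exp ((r:ℝ) * (1 - c)))
    rw [← Real.exp_eq_exp_ℝ] at this
    exact this.mul_left _
  rw [← ENNReal.ofReal_tsum_of_nonneg (fun n => by positivity) h3.summable, h3.tsum_eq,
    ← Real.exp_add]
  congr 2
  ring

/-- Laplace functional upper bound for simple functions. -/
lemma ppp_simple {lam : ℝ≥0} (hx : IsPoissonProcess P lam x)
    {p : EuclideanSpace ℝ (Fin d) → ℝ≥0∞} (hp : ∀ z, p z ≤ 1) (hpi : ∫⁻ z, p z ≠ ∞)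
    (ψ : SimpleFunc (EuclideanSpace ℝ (Fin d)) ℝ≥0) (hψ : ∀ z, (ψ z : ℝ≥0∞) ≤ p z) :
    ∫⁻ ω, ⨅ m : ℕ, ∏ i ∈ Finset.range m, (1 - p (x i ω)) ∂P ≤
      ex lam (∫⁻ z, (ψ z : ℝ≥0∞)) := by
  classical
  set S : Finset ℝ≥0 := ψ.range.filter (fun c => c ≠ 0) with hS
  have hψi : ∫⁻ z, (ψ z : ℝ≥0∞) ≠ ∞ := ne_top_of_le_ne_top hpi (lintegral_mono hψ)
  set A : S → Set (EuclideanSpace ℝ (Fin d)) := fun c => ψ ⁻¹' {c.1} with hA
  have hAm : ∀ c, MeasurableSet (A c) := fun c => ψ.measurableSet_preimage _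
  have hS0 : ∀ c ∈ S, c ≠ 0 := fun c hc => (Finset.mem_filter.mp hc).2
  have hS1 : ∀ c ∈ S, c ≤ 1 := by
    intro c hc
    have h1 := (Finset.mem_filter.mp hc).1
    rw [SimpleFunc.mem_range] at h1
    obtain ⟨z, rfl⟩ := h1
    exact_mod_cast (hψ z).trans (hp z)
  have hint : ∫⁻ z, (ψ z : ℝ≥0∞) = ∑ c ∈ S, (c : ℝ≥0∞) * volume (ψ ⁻¹' {c}) := by
    have h1 : ∫⁻ z, (ψ z : ℝ≥0∞) = ∫⁻ z, (ψ.map ((↑) : ℝ≥0 → ℝ≥0∞)) z := rfl
    rw [h1, SimpleFunc.lintegral_eq_lintegral, SimpleFunc.map_lintegral]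
    rw [hS, Finset.sum_filter]
    refine Finset.sum_congr rfl fun c _ => ?_
    split_ifs with h0
    · rfl
    · push Not at h0
      simp [h0]
  have hAv : ∀ c, volume (A c) ≠ ∞ := by
    intro c htop
    have h1 : ((c.1 : ℝ≥0) : ℝ≥0∞) * volume (ψ ⁻¹' {c.1}) ≤ ∫⁻ z, (ψ z : ℝ≥0∞) := by
      rw [hint]
      exact Finset.single_le_sum (f := fun c : ℝ≥0 => (c : ℝ≥0∞) * volume (ψ ⁻¹' {c}))
        (fun _ _ => zero_le) c.2
    have h2 : volume (ψ ⁻¹' {c.1}) = ∞ := htop
    rw [h2, ENNReal.mul_top (by exact_mod_cast hS0 c.1 c.2)] at h1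
    exact hψi (top_le_iff.mp h1)
  have hdisj : Pairwise (Function.onFun Disjoint A) := by
    intro c c' hcc
    rw [Function.onFun, Set.disjoint_left]
    intro z hz hz'
    simp only [hA, mem_preimage, mem_singleton_iff] at hz hz'
    exact hcc (Subtype.ext (hz.symm.trans hz'))
  have hindep := hx.indep S A hAm hAv hdisj
  -- almost sure finiteness
  have hfin : ∀ᵐ ω ∂P, ∀ c : S, count x (A c) ω ≠ ∞ := by
    rw [ae_all_iff]
    intro c
    have h1 := hx.law (A c) (hAm c) (hAv c)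
    have h2 : P.map (count x (A c)) {∞} = 0 := by
      rw [h1, Measure.map_apply (by fun_prop) (measurableSet_singleton _)]
      have : (fun n : ℕ => (n : ℝ≥0∞)) ⁻¹' {∞} = ∅ := by
        ext n; simp
      rw [this]
      simp
    rw [Measure.map_apply (measurable_count hx.measurable (hAm c)) (measurableSet_singleton _)]
      at h2
    rw [ae_iff]
    convert h2 using 2
    ext ω
    simp
  have hpt : ∀ᵐ ω ∂P, ⨅ m : ℕ, ∏ i ∈ Finset.range m, (1 - p (x i ω)) ≤
      ∏ c : S, (1 - ((c.1 : ℝ≥0) : ℝ≥0∞)) ^ (count x (A c) ω).toReal := by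
    filter_upwards [hfin] with ω hω
    have hfs : ∀ c : S, {i | x i ω ∈ A c}.Finite := by
      intro c
      have h1 := ENNReal.finite_const_le_of_tsum_ne_top (hω c) (ε := 1) one_ne_zero
      refine h1.subset fun i hi => ?_
      simp only [Set.mem_ofPred_eq] at hi ⊢
      rw [indicator_of_mem hi]
    obtain ⟨m, hm⟩ : ∃ m, ∀ c : S, ∀ i, x i ω ∈ A c → i < m := by
      have h1 : (⋃ c : S, {i | x i ω ∈ A c}).Finite := Set.finite_iUnion hfs
      obtain ⟨m, hm⟩ := h1.bddAbove
      refine ⟨m + 1, fun c i hi => ?_⟩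
      have := hm (mem_iUnion.mpr ⟨c, hi⟩)
      omega
    refine (iInf_le _ m).trans ?_
    have hcount : ∀ c : S, count x (A c) ω =
        (((Finset.range m).filter (fun i => x i ω ∈ A c)).card : ℝ≥0∞) := by
      intro c
      unfold count
      rw [tsum_eq_sum (s := Finset.range m)]
      · rw [Finset.card_filter]
        push_cast
        refine Finset.sum_congr rfl fun i _ => ?_
        by_cases hi : x i ω ∈ A c
        · rw [indicator_of_mem hi, if_pos hi]
        · rw [indicator_of_notMem hi, if_neg hi]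
      · intro i hi
        rw [indicator_of_notMem]
        intro h1
        exact hi (Finset.mem_range.mpr (hm c i h1))
    calc ∏ i ∈ Finset.range m, (1 - p (x i ω))
        ≤ ∏ i ∈ Finset.range m, (1 - (ψ (x i ω) : ℝ≥0∞)) := by
          refine Finset.prod_le_prod' fun i _ => ?_
          exact tsub_le_tsub_left (hψ _) _
      _ = ∏ i ∈ Finset.range m, ∏ c : S, (if x i ω ∈ A c then
            (1 - ((c.1 : ℝ≥0) : ℝ≥0∞)) else 1) := by
          refine Finset.prod_congr rfl fun i _ => ?_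
          by_cases hi : ψ (x i ω) ∈ S
          · rw [Finset.prod_eq_single (⟨ψ (x i ω), hi⟩ : S)]
            · rw [if_pos (by simp [hA])]
            · intro c _ hc
              rw [if_neg]
              intro h1
              apply hc
              simp only [hA, mem_preimage, mem_singleton_iff] at h1
              exact Subtype.ext h1.symm
            · intro h1
              exact absurd (Finset.mem_univ _) h1
          · have h0 : ψ (x i ω) = 0 := by
              by_contra hne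
              exact hi (Finset.mem_filter.mpr ⟨SimpleFunc.mem_range_self _ _, hne⟩)
            rw [h0]
            symm
            rw [ENNReal.coe_zero, tsub_zero]
            refine Finset.prod_eq_one fun c _ => ?_
            rw [if_neg]
            intro h1
            simp only [hA, mem_preimage, mem_singleton_iff] at h1
            exact hS0 c.1 c.2 (h1.symm.trans h0)
      _ = ∏ c : S, ∏ i ∈ Finset.range m, (if x i ω ∈ A c then
            (1 - ((c.1 : ℝ≥0) : ℝ≥0∞)) else 1) := Finset.prod_comm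
      _ ≤ _ := by
          refine Finset.prod_le_prod' fun c _ => ?_
          rw [hcount c, ENNReal.toReal_natCast, ENNReal.rpow_natCast, Finset.prod_ite,
            Finset.prod_const, Finset.prod_const_one, mul_one]
  have hφm : ∀ c : S, Measurable (fun t : ℝ≥0∞ => (1 - ((c.1 : ℝ≥0) : ℝ≥0∞)) ^ t.toReal) := by
    intro c
    exact Measurable.pow measurable_const ENNReal.measurable_toReal
  calc ∫⁻ ω, ⨅ m : ℕ, ∏ i ∈ Finset.range m, (1 - p (x i ω)) ∂P
      ≤ ∫⁻ ω, ∏ c : S, (1 - ((c.1 : ℝ≥0) : ℝ≥0∞)) ^ (count x (A c) ω).toReal ∂P :=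
        lintegral_mono_ae hpt
    _ = ∏ c : S, ∫⁻ ω, (1 - ((c.1 : ℝ≥0) : ℝ≥0∞)) ^ (count x (A c) ω).toReal ∂P := by
        have h1 := hindep.comp (fun (c : S) t => (1 - ((c.1 : ℝ≥0) : ℝ≥0∞)) ^ (t : ℝ≥0∞).toReal) hφm
        exact lintegral_prod_eq_prod_lintegral_of_indepFun Finset.univ _ h1
          (fun c => (hφm c).comp (measurable_count hx.measurable (hAm c)))
    _ = ∏ c : S, ENNReal.ofReal (Real.exp (-((lam * (volume (A c)).toNNReal : ℝ≥0) * c.1))) := by
        refine Finset.prod_congr rfl fun c _ => ?_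
        rw [← poisson_pgf _ _ (hS1 c.1 c.2),
          ← lintegral_map (hφm c) (measurable_count hx.measurable (hAm c)),
          hx.law (A c) (hAm c) (hAv c), lintegral_map (hφm c) (by fun_prop)]
        simp only [ENNReal.toReal_natCast, ENNReal.rpow_natCast]
    _ = ex lam (∫⁻ z, (ψ z : ℝ≥0∞)) := by
        unfold ex
        rw [← ENNReal.ofReal_prod_of_nonneg (fun _ _ => (Real.exp_pos _).le), ← Real.exp_sum]
        congr 2
        rw [hint, ENNReal.toReal_sum (fun c hc => ENNReal.mul_ne_top ENNReal.coe_ne_top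
          (hAv ⟨c, hc⟩)), Finset.mul_sum, ← Finset.sum_coe_sort S]
        refine Finset.sum_congr rfl fun c _ => ?_
        rw [ENNReal.toReal_mul]
        simp only [hA, NNReal.coe_mul, ENNReal.coe_toNNReal_eq_toReal, ENNReal.coe_toReal]
        ring

/-- Laplace functional upper bound. -/
lemma ppp_bound {lam : ℝ≥0} (hx : IsPoissonProcess P lam x)
    {p : EuclideanSpace ℝ (Fin d) → ℝ≥0∞} (hp : ∀ z, p z ≤ 1) (hpi : ∫⁻ z, p z ≠ ∞) :
    ∫⁻ ω, ⨅ m : ℕ, ∏ i ∈ Finset.range m, (1 - p (x i ω)) ∂P ≤ ex lam (∫⁻ z, p z) := by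
  set L := ∫⁻ ω, ⨅ m : ℕ, ∏ i ∈ Finset.range m, (1 - p (x i ω)) ∂P with hL
  set I := (∫⁻ z, p z).toReal with hI
  have h1 : ∀ n : ℕ, L ≤ ENNReal.ofReal (Real.exp (-lam * (I - 1 / (n + 1)))) := by
    intro n
    have hlt : ∃ ψ : SimpleFunc (EuclideanSpace ℝ (Fin d)) ℝ≥0, (∀ z, (ψ z : ℝ≥0∞) ≤ p z) ∧
        I - 1 / (n + 1) ≤ (∫⁻ z, (ψ z : ℝ≥0∞)).toReal := by
      by_contra hcon
      push Not at hcon
      have h2 : ∫⁻ z, p z ≤ ENNReal.ofReal (I - 1 / (n + 1)) := by
        rw [lintegral_eq_nnreal]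
        refine iSup₂_le fun ψ hψ => ?_
        have h3 := hcon ψ hψ
        have h4 : ∫⁻ z, (ψ z : ℝ≥0∞) ≠ ∞ := ne_top_of_le_ne_top hpi (lintegral_mono hψ)
        rw [← SimpleFunc.lintegral_eq_lintegral]
        change ∫⁻ z, (ψ z : ℝ≥0∞) ≤ _
        rw [← ENNReal.ofReal_toReal h4]
        exact ENNReal.ofReal_le_ofReal h3.le
      have h5 : 0 ≤ I - 1 / (n + 1) := by
        by_contra hneg
        push Not at hneg
        have := hcon 0 (by simp)
        rw [show (∫⁻ z, (((0 : SimpleFunc (EuclideanSpace ℝ (Fin d)) ℝ≥0) z : ℝ≥0) : ℝ≥0∞)).toReal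
          = 0 by simp] at this
        linarith
      have h6 := ENNReal.toReal_mono ENNReal.ofReal_ne_top h2
      rw [ENNReal.toReal_ofReal h5, ← hI] at h6
      have : (0:ℝ) < 1 / (n + 1) := by positivity
      linarith
    obtain ⟨ψ, hψ, hψI⟩ := hlt
    refine (ppp_simple hx hp hpi ψ hψ).trans ?_
    unfold ex
    apply ENNReal.ofReal_le_ofReal
    apply Real.exp_le_exp.mpr
    have := mul_le_mul_of_nonneg_left hψI lam.2
    simp only [neg_mul, neg_le_neg_iff]
    exact this
  have h2 : Tendsto (fun n : ℕ => ENNReal.ofReal (Real.exp (-lam * (I - 1 / (n + 1))))) atTop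
      (𝓝 (ENNReal.ofReal (Real.exp (-lam * I)))) := by
    have h3 : Tendsto (fun n : ℕ => (1:ℝ) / (n + 1)) atTop (𝓝 0) :=
      tendsto_one_div_add_atTop_nhds_zero_nat
    have h4 : Tendsto (fun n : ℕ => -(lam:ℝ) * (I - 1 / (n + 1))) atTop (𝓝 (-lam * (I - 0))) :=
      (tendsto_const_nhds.sub h3).const_mul _
    rw [sub_zero] at h4
    exact ENNReal.tendsto_ofReal ((Real.continuous_exp.tendsto _).comp h4)
  exact ge_of_tendsto' h2 h1

end Pool.Agent.H143R3.Sausage
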