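import Pool.Agent.H143R3.BM8

namespace Pool.Agent.H143R3.Sausage

open MeasureTheory ProbabilityTheory Set Filter Topology
open scoped ENNReal NNReal

set_option linter.unusedSectionVars false

variable {d : ℕ} {Ω Ω' : Type*} [MeasurableSpace Ω] [MeasurableSpace Ω']
  {P : Measure Ω} {P' : Measure Ω'} [IsProbabilityMeasure P] [IsProbabilityMeasure P']
  {X : ℝ≥0 → Ω → EuclideanSpace ℝ (Fin d)} {x : ℕ → Ω → EuclideanSpace ℝ (Fin d)}
  {Y : ℕ → ℝ≥0 → Ω → EuclideanSpace ℝ (Fin d)} {W : ℝ≥0 → Ω' → EuclideanSpace ℝ (Fin d)}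

/-- The moving trap model: under `P`, the particle `X` is a standard Brownian motion, `x` is a
Poisson point process of intensity `lam`, the motions `Y i` of the traps are independent standard
Brownian motions, independent of the points `x`, and `X` is independent of the traps `(x, Y)`. -/
structure TrapModel (P : Measure Ω) (lam : ℝ≥0) (X : ℝ≥0 → Ω → EuclideanSpace ℝ (Fin d))
    (x : ℕ → Ω → EuclideanSpace ℝ (Fin d)) (Y : ℕ → ℝ≥0 → Ω → EuclideanSpace ℝ (Fin d)) :
    Prop where
  particle : IsBM P X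
  points : IsPoissonProcess P lam x
  traps : ∀ i, IsBM P (Y i)
  indep_traps : iIndepFun (fun i ω t => Y i t ω) P
  indep_points_traps : IndepFun (fun ω i => x i ω) (fun ω i t => Y i t ω) P
  indep_particle : IndepFun (fun ω t => X t ω) (fun ω => (fun i => x i ω, fun i t => Y i t ω)) P

/-- The trap field `K_s`, the union of the closed balls of radius `a` around the traps at
time `s`. -/
def trapField (a : ℝ) (x : ℕ → Ω → EuclideanSpace ℝ (Fin d))
    (Y : ℕ → ℝ≥0 → Ω → EuclideanSpace ℝ (Fin d)) (s : ℝ≥0) (ω : Ω) :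
    Set (EuclideanSpace ℝ (Fin d)) := ⋃ i, Metric.closedBall (x i ω + Y i s ω) a

/-- The hitting time `T` of the trap field by the particle, infinite if there is no hit. -/
noncomputable def hitTime (a : ℝ) (X : ℝ≥0 → Ω → EuclideanSpace ℝ (Fin d))
    (x : ℕ → Ω → EuclideanSpace ℝ (Fin d)) (Y : ℕ → ℝ≥0 → Ω → EuclideanSpace ℝ (Fin d))
    (ω : Ω) : ℝ≥0∞ := ⨅ s : ℝ≥0, ⨅ _ : X s ω ∈ trapField a x Y s ω, (s : ℝ≥0∞)

/-- a Brownian path has the same averaged volume functional. -/
lemma V_eq (hX : IsBM P X) (hW : IsBM P' W) (a : ℝ) (h : ℝ≥0) (J : Finset ℕ)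
    (c : ℕ → EuclideanSpace ℝ (Fin d)) : V P X a h J c = V P' W a h J c := by
  unfold V
  exact lintegral_grid_eq hX hW h (Φ := fun w => vU a J (fun j => c j - w j))
    ((measurable_vU a J).comp (measurable_sub_path c))

/-- the hitting probability of a trap started at `z`. -/
noncomputable def hp (ν : Measure (ℕ → EuclideanSpace ℝ (Fin d))) (a : ℝ) (n : ℕ)
    (c : ℕ → EuclideanSpace ℝ (Fin d)) (z : EuclideanSpace ℝ (Fin d)) : ℝ≥0∞ :=
  ν {y | ∃ j < n, dist z (c j - y j) < a}

lemma measurableSet_hit (a : ℝ) (n : ℕ) : MeasurableSet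
    {q : ((ℕ → EuclideanSpace ℝ (Fin d)) × EuclideanSpace ℝ (Fin d)) ×
      (ℕ → EuclideanSpace ℝ (Fin d)) | ∃ j < n, dist q.1.2 (q.1.1 j - q.2 j) < a} := by
  have : {q : ((ℕ → EuclideanSpace ℝ (Fin d)) × EuclideanSpace ℝ (Fin d)) ×
      (ℕ → EuclideanSpace ℝ (Fin d)) | ∃ j < n, dist q.1.2 (q.1.1 j - q.2 j) < a} =
      ⋃ j ∈ Finset.range n, {q | dist q.1.2 (q.1.1 j - q.2 j) < a} := by
    ext q; simp
  rw [this]
  refine Finset.measurableSet_biUnion _ fun j _ => ?_
  exact measurableSet_lt ((measurable_snd.comp measurable_fst).dist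
    (((measurable_pi_apply j).comp (measurable_fst.comp measurable_fst)).sub
      ((measurable_pi_apply j).comp measurable_snd))) measurable_const

lemma measurable_hp (ν : Measure (ℕ → EuclideanSpace ℝ (Fin d))) [IsProbabilityMeasure ν]
    (a : ℝ) (n : ℕ) :
    Measurable (fun q : (ℕ → EuclideanSpace ℝ (Fin d)) × EuclideanSpace ℝ (Fin d) =>
      hp ν a n q.1 q.2) :=
  measurable_measure_prodMk_left (measurableSet_hit a n)

lemma lintegral_hp (hW : IsBM P' W) (a : ℝ) (h : ℝ≥0) (n : ℕ)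
    (c : ℕ → EuclideanSpace ℝ (Fin d)) :
    ∫⁻ z, hp (P'.map (grid W h)) a n c z = V P' W a h (Finset.range n) c := by
  have hgm := grid_measurable hW h
  have hpr : IsProbabilityMeasure (P'.map (grid W h)) :=
    Measure.isProbabilityMeasure_map hgm.aemeasurable
  set D : Set (EuclideanSpace ℝ (Fin d) × (ℕ → EuclideanSpace ℝ (Fin d))) :=
    {q | ∃ j < n, dist q.1 (c j - q.2 j) < a} with hD
  have hDm : MeasurableSet D := by
    have h1 : Measurable (fun q : EuclideanSpace ℝ (Fin d) × (ℕ → EuclideanSpace ℝ (Fin d)) =>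
      ((c, q.1), q.2)) := (measurable_const.prodMk measurable_fst).prodMk measurable_snd
    exact h1 (measurableSet_hit a n)
  have h1 := Measure.prod_apply (μ := (volume : Measure (EuclideanSpace ℝ (Fin d))))
    (ν := P'.map (grid W h)) hDm
  have h2 := Measure.prod_apply_symm (μ := (volume : Measure (EuclideanSpace ℝ (Fin d))))
    (ν := P'.map (grid W h)) hDm
  have h3 : ∫⁻ z, hp (P'.map (grid W h)) a n c z =
      (volume.prod (P'.map (grid W h))) D := h1.symm
  rw [h3, h2]
  have h4 : ∀ y : ℕ → EuclideanSpace ℝ (Fin d),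
      volume ((fun z => (z, y)) ⁻¹' D) = vU a (Finset.range n) (fun j => c j - y j) := by
    intro y
    unfold vU U
    congr 1
    ext z
    simp [hD]
  simp_rw [h4]
  have hmm : Measurable (fun y : ℕ → EuclideanSpace ℝ (Fin d) =>
      vU a (Finset.range n) (fun j => c j - y j)) :=
    (measurable_vU a _).comp (measurable_sub_path c)
  rw [lintegral_map hmm hgm]
  rfl

lemma measurable_restr (h : ℝ≥0) :
    Measurable (fun (w : ℝ≥0 → EuclideanSpace ℝ (Fin d)) (j : ℕ) => w (j * h)) :=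
  measurable_pi_iff.mpr fun _ => measurable_pi_apply _

/-- the joint law along the grid. -/
lemma joint_law {lam : ℝ≥0} (hM : TrapModel P lam X x Y) (hW : IsBM P' W) (h : ℝ≥0) :
    P.map (fun ω => (grid X h ω, (fun i => x i ω, fun i => grid (Y i) h ω))) =
      (P.map (grid X h)).prod ((P.map (fun ω i => x i ω)).prod
        (Measure.infinitePi (fun _ : ℕ => P'.map (grid W h)))) := by
  have hgX := grid_measurable hM.particle h
  have hgY : ∀ i, Measurable (grid (Y i) h) := fun i => grid_measurable (hM.traps i) h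
  have hxm : Measurable (fun ω i => x i ω) := measurable_pi_iff.mpr hM.points.measurable
  have hYm : Measurable (fun ω i => grid (Y i) h ω) := measurable_pi_iff.mpr hgY
  have hYlaw : P.map (fun ω i => grid (Y i) h ω) =
      Measure.infinitePi (fun _ : ℕ => P'.map (grid W h)) := by
    have h2 : iIndepFun (fun i => grid (Y i) h) P :=
      hM.indep_traps.comp (fun _ w (j : ℕ) => w (j * h)) (fun _ => measurable_restr h)
    rw [h2.map_fun_eq_infinitePi_map hgY]
    congr 1
    ext1 i
    exact grid_law_eq (hM.traps i) hW h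
  have hxY : P.map (fun ω => (fun i => x i ω, fun i => grid (Y i) h ω)) =
      (P.map (fun ω i => x i ω)).prod (Measure.infinitePi (fun _ : ℕ => P'.map (grid W h))) := by
    have hres2 : Measurable (fun (w : ℕ → ℝ≥0 → EuclideanSpace ℝ (Fin d)) (i : ℕ) (j : ℕ) =>
        w i (j * h)) :=
      measurable_pi_iff.mpr fun i => (measurable_restr h).comp (measurable_pi_apply i)
    have h2 : IndepFun (fun ω i => x i ω) (fun ω i => grid (Y i) h ω) P :=
      hM.indep_points_traps.comp measurable_id hres2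
    rw [(indepFun_iff_map_prod_eq_prod_map_map hxm.aemeasurable hYm.aemeasurable).mp h2, hYlaw]
  have hres3 : Measurable (fun (q : (ℕ → EuclideanSpace ℝ (Fin d)) ×
      (ℕ → ℝ≥0 → EuclideanSpace ℝ (Fin d))) =>
      (q.1, fun (i : ℕ) (j : ℕ) => q.2 i (j * h))) :=
    measurable_fst.prodMk (measurable_pi_iff.mpr fun i =>
      (measurable_restr h).comp ((measurable_pi_apply i).comp measurable_snd))
  have h2 : IndepFun (grid X h) (fun ω => (fun i => x i ω, fun i => grid (Y i) h ω)) P :=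
    hM.indep_particle.comp (measurable_restr h) hres3
  rw [(indepFun_iff_map_prod_eq_prod_map_map hgX.aemeasurable
    (hxm.prodMk hYm).aemeasurable).mp h2, hxY]

/-- the grid survival event. -/
def surv (d : ℕ) (a : ℝ) (n : ℕ) : Set ((ℕ → EuclideanSpace ℝ (Fin d)) ×
    ((ℕ → EuclideanSpace ℝ (Fin d)) × (ℕ → ℕ → EuclideanSpace ℝ (Fin d)))) :=
  {q | ∀ i, ¬ ∃ j < n, dist (q.2.1 i) (q.1 j - q.2.2 i j) < a}

lemma measurableSet_surv (a : ℝ) (n : ℕ) : MeasurableSet (surv d a n) := by
  have : surv d a n = ⋂ i, ((fun q : (ℕ → EuclideanSpace ℝ (Fin d)) ×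
    ((ℕ → EuclideanSpace ℝ (Fin d)) × (ℕ → ℕ → EuclideanSpace ℝ (Fin d))) =>
      ((q.1, q.2.1 i), q.2.2 i)) ⁻¹'
    {q | ∃ j < n, dist q.1.2 (q.1.1 j - q.2 j) < a})ᶜ := by
    ext q; simp [surv]
  rw [this]
  refine MeasurableSet.iInter fun i => MeasurableSet.compl ?_
  refine (measurableSet_hit a n).preimage ?_
  exact (measurable_fst.prodMk ((measurable_pi_apply i).comp
    (measurable_fst.comp measurable_snd))).prodMk
    ((measurable_pi_apply i).comp (measurable_snd.comp measurable_snd))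

lemma surv_sub (a : ℝ) (h : ℝ≥0) (n : ℕ) (t : ℝ≥0) (ht : ∀ j < n, (j : ℝ≥0) * h ≤ t) :
    {ω | (t : ℝ≥0∞) < hitTime a X x Y ω} ⊆
      (fun ω => (grid X h ω, (fun i => x i ω, fun i => grid (Y i) h ω))) ⁻¹' (surv d a n) := by
  intro ω hω
  simp only [Set.mem_ofPred_eq, surv, mem_preimage] at hω ⊢
  rintro i ⟨j, hj, hd⟩
  have h1 : hitTime a X x Y ω ≤ ((j * h : ℝ≥0) : ℝ≥0∞) := by
    unfold hitTime
    refine iInf₂_le (j * h) ?_
    unfold trapField
    rw [mem_iUnion]
    refine ⟨i, ?_⟩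
    rw [Metric.mem_closedBall]
    unfold grid at hd
    have h2 : dist (X (j * h) ω) (x i ω + Y i (j * h) ω) =
        dist (x i ω) (X (j * h) ω - Y i (j * h) ω) := by
      rw [dist_comm, dist_eq_norm, dist_eq_norm]
      congr 1
      abel
    rw [h2]
    exact hd.le
  have h3 : ((j * h : ℝ≥0) : ℝ≥0∞) ≤ t := by exact_mod_cast ht j hj
  exact absurd (hω.trans_le (h1.trans h3)) (lt_irrefl _)

lemma surv_section (ν : Measure (ℕ → EuclideanSpace ℝ (Fin d))) [IsProbabilityMeasure ν]
    (a : ℝ) (n : ℕ) (c z : ℕ → EuclideanSpace ℝ (Fin d)) :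
    (Measure.infinitePi (fun _ : ℕ => ν)) (Prod.mk z ⁻¹' (Prod.mk c ⁻¹' (surv d a n))) ≤
      ⨅ m : ℕ, ∏ i ∈ Finset.range m, (1 - hp ν a n c (z i)) := by
  refine le_iInf fun m => ?_
  have hB : ∀ i, MeasurableSet {y : ℕ → EuclideanSpace ℝ (Fin d) |
      ∃ j < n, dist (z i) (c j - y j) < a} := fun i =>
    measurable_prodMk_left (x := (c, z i)) (measurableSet_hit a n)
  have h1 : Prod.mk z ⁻¹' (Prod.mk c ⁻¹' (surv d a n)) ⊆ Set.pi (Finset.range m : Set ℕ)
      (fun i => {y : ℕ → EuclideanSpace ℝ (Fin d) | ∃ j < n, dist (z i) (c j - y j) < a}ᶜ) := by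
    intro y hy i _
    exact hy i
  refine (measure_mono h1).trans ?_
  rw [Measure.infinitePi_pi _ (fun i _ => (hB i).compl)]
  refine Finset.prod_le_prod' fun i _ => ?_
  rw [prob_compl_eq_one_sub (hB i)]
  exact le_refl _

lemma section_bound {lam : ℝ≥0} (hx : IsPoissonProcess P lam x) (hW : IsBM P' W) (a : ℝ)
    (h : ℝ≥0) (n : ℕ) (c : ℕ → EuclideanSpace ℝ (Fin d)) :
    ∫⁻ z, (Measure.infinitePi (fun _ : ℕ => P'.map (grid W h)))
        (Prod.mk z ⁻¹' (Prod.mk c ⁻¹' (surv d a n))) ∂(P.map (fun ω i => x i ω)) ≤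
      ex lam (V P' W a h (Finset.range n) c) := by
  have hνp : IsProbabilityMeasure (P'.map (grid W h)) :=
    Measure.isProbabilityMeasure_map (grid_measurable hW h).aemeasurable
  have hxm : Measurable (fun ω i => x i ω) := measurable_pi_iff.mpr hx.measurable
  have h1 : ∫⁻ z, (Measure.infinitePi (fun _ : ℕ => P'.map (grid W h)))
        (Prod.mk z ⁻¹' (Prod.mk c ⁻¹' (surv d a n))) ∂(P.map (fun ω i => x i ω))
      ≤ ∫⁻ z, ⨅ m : ℕ, ∏ i ∈ Finset.range m, (1 - hp (P'.map (grid W h)) a n c (z i))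
        ∂(P.map (fun ω i => x i ω)) := lintegral_mono (surv_section _ a n c)
  have hm2 : Measurable (fun z : ℕ → EuclideanSpace ℝ (Fin d) =>
      ⨅ m : ℕ, ∏ i ∈ Finset.range m, (1 - hp (P'.map (grid W h)) a n c (z i))) := by
    refine Measurable.iInf fun m => ?_
    refine Finset.measurable_fun_prod _ fun i _ => ?_
    have h5 : Measurable (fun z : ℕ → EuclideanSpace ℝ (Fin d) => (c, z i)) :=
      measurable_const.prodMk (measurable_pi_apply i)
    have h6 := (measurable_hp (P'.map (grid W h)) a n).comp h5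
    exact Measurable.sub measurable_const h6
  have h2 := lintegral_map (μ := P) hm2 hxm
  have h3 : ∫⁻ ω', ⨅ m : ℕ, ∏ i ∈ Finset.range m,
          (1 - hp (P'.map (grid W h)) a n c (x i ω')) ∂P ≤
      ex lam (∫⁻ z, hp (P'.map (grid W h)) a n c z) := by
    refine ppp_bound hx (fun z => prob_le_one) ?_
    rw [lintegral_hp hW]
    exact ne_top_of_le_ne_top (ENNReal.mul_ne_top (ENNReal.natCast_ne_top _) (vb_ne_top a))
      (V_le a h _ _)
  rw [lintegral_hp hW] at h3
  rw [h2] at h1
  exact h1.trans h3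

/-- the basic upper bound for the survival probability. -/
lemma survival_le {lam : ℝ≥0} (hM : TrapModel P lam X x Y) (hW : IsBM P' W) (a : ℝ) (h : ℝ≥0)
    (n : ℕ) (t : ℝ≥0) (ht : ∀ j < n, (j : ℝ≥0) * h ≤ t) :
    P {ω | (t : ℝ≥0∞) < hitTime a X x Y ω} ≤
      ∫⁻ ω, ex lam (V P' W a h (Finset.range n) (grid X h ω)) ∂P := by
  have hgX := grid_measurable hM.particle h
  have hgY : ∀ i, Measurable (grid (Y i) h) := fun i => grid_measurable (hM.traps i) h
  have hνp : IsProbabilityMeasure (P'.map (grid W h)) :=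
    Measure.isProbabilityMeasure_map (grid_measurable hW h).aemeasurable
  have hxm : Measurable (fun ω i => x i ω) := measurable_pi_iff.mpr hM.points.measurable
  have hYm : Measurable (fun ω i => grid (Y i) h ω) := measurable_pi_iff.mpr hgY
  have hxp : IsProbabilityMeasure (P.map (fun ω i => x i ω)) :=
    Measure.isProbabilityMeasure_map hxm.aemeasurable
  have hSm := measurableSet_surv (d := d) a n
  have hgm : Measurable (fun ω => (grid X h ω, (fun i => x i ω, fun i => grid (Y i) h ω))) :=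
    hgX.prodMk (hxm.prodMk hYm)
  refine (measure_mono (surv_sub a h n t ht)).trans ?_
  rw [← Measure.map_apply hgm hSm, joint_law hM hW, Measure.prod_apply hSm]
  rw [lintegral_map (measurable_measure_prodMk_left hSm) hgX]
  refine lintegral_mono fun ω => ?_
  have hSc : MeasurableSet (Prod.mk (grid X h ω) ⁻¹' (surv d a n)) := measurable_prodMk_left hSm
  have h1 := Measure.prod_apply (μ := P.map (fun ω i => x i ω))
    (ν := Measure.infinitePi (fun _ : ℕ => P'.map (grid W h))) hSc
  exact h1.le.trans (section_bound hM.points hW a h n (grid X h ω))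

end Pool.Agent.H143R3.Sausage
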