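import Pool.Agent.H143R3.Steps

set_option autoImplicit false

namespace Pool.Agent.H143R3

open Finset

section Cyl

variable {ι Λ : Type*} [Fintype ι] [DecidableEq ι] [Fintype Λ] [DecidableEq Λ]

lemma card_cyl (T : Finset ι) (φ : ι → Λ) :
    (univ.filter (fun f : ι → Λ => ∀ c ∈ T, f c = φ c)).card * Fintype.card Λ ^ T.card
      = Fintype.card Λ ^ Fintype.card ι := by
  have h1 : (univ.filter (fun f : ι → Λ => ∀ c ∈ T, f c = φ c))
      = Fintype.piFinset (fun c => if c ∈ T then {φ c} else (univ : Finset Λ)) := by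
    ext f
    simp only [mem_filter, mem_univ, true_and, Fintype.mem_piFinset]
    constructor
    · intro h c
      by_cases hc : c ∈ T
      · simp [hc, h c hc]
      · simp [hc]
    · intro h c hc
      have := h c
      simpa [hc] using this
  rw [h1, Fintype.card_piFinset]
  have h2 : ∀ c : ι, (if c ∈ T then ({φ c} : Finset Λ) else univ).card
      = if c ∈ T then 1 else Fintype.card Λ := by
    intro c
    by_cases hc : c ∈ T
    · simp [hc]
    · simp [hc, Finset.card_univ]
  simp only [h2]
  rw [Finset.prod_ite]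
  simp only [Finset.prod_const_one, one_mul, Finset.prod_const]
  rw [← pow_add]
  congr 1
  have h3 : univ.filter (fun c => c ∉ T) = univ \ T := by
    ext c
    simp
  rw [h3, Finset.card_sdiff_of_subset (Finset.subset_univ T)]
  have := Finset.card_le_univ T
  rw [Finset.card_univ]
  omega

end Cyl

section Words

variable {m W B : ℕ} {Λ : Type*} [Fintype Λ] [DecidableEq Λ]

lemma card_cyl2 (T : Finset (Fin W × Fin m)) (φ : Fin W → Fin m → Λ) :
    (univ.filter (fun w : Fin W → Fin m → Λ => ∀ c ∈ T, w c.1 c.2 = φ c.1 c.2)).card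
      * Fintype.card Λ ^ T.card = Fintype.card Λ ^ (W * m) := by
  have h := card_cyl (Λ := Λ) T (fun c => φ c.1 c.2)
  have h1 : (univ.filter (fun w : Fin W → Fin m → Λ => ∀ c ∈ T, w c.1 c.2 = φ c.1 c.2)).card
      = (univ.filter (fun f : Fin W × Fin m → Λ => ∀ c ∈ T, f c = φ c.1 c.2)).card := by
    refine Finset.card_bij' (fun w _ => Function.uncurry w) (fun f _ => Function.curry f)
      ?_ ?_ ?_ ?_
    · intro w hw
      rw [mem_filter] at hw ⊢
      refine ⟨mem_univ _, fun c hc => ?_⟩
      exact hw.2 c hc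
    · intro f hf
      rw [mem_filter] at hf ⊢
      refine ⟨mem_univ _, fun c hc => ?_⟩
      exact hf.2 c hc
    · intro w _
      rfl
    · intro f _
      rfl
  rw [h1, h]
  congr 1
  simp

/-- the letters read by the word `w` along the chain `x` -/
def wv (x : Fin B → Fin m → Fin W) (w : Fin W → Fin m → Λ) : Fin B → Fin m → Λ :=
  fun i j => w (x i j) j

/-- the words for which the chain `x` succeeds -/
def Ev (C : Fin B → Finset (Fin m → Λ)) (x : Fin B → Fin m → Fin W) :
    Finset (Fin W → Fin m → Λ) :=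
  univ.filter (fun w => ∀ i, wv x w i ∈ C i)

lemma cell_inj (x : Fin B → Fin m → Fin W) (hx : ∀ j, Function.Injective (fun i => x i j)) :
    Function.Injective (fun p : Fin B × Fin m => ((x p.1 p.2, p.2) : Fin W × Fin m)) := by
  rintro ⟨i, j⟩ ⟨i', j'⟩ h
  simp only [Prod.mk.injEq] at h
  obtain ⟨h1, h2⟩ := h
  subst h2
  have := hx j h1
  subst this
  rfl

lemma fiber_card [Nonempty Λ] (x : Fin B → Fin m → Fin W)
    (hx : ∀ j, Function.Injective (fun i => x i j)) (u : Fin B → Fin m → Λ) :
    (univ.filter (fun w : Fin W → Fin m → Λ => wv x w = u)).card * Fintype.card Λ ^ (B * m)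
      = Fintype.card Λ ^ (W * m) := by
  classical
  let w0 : Fin W → Fin m → Λ := fun p j =>
    Function.extend (fun i => x i j) (fun i => u i j) (fun _ => Classical.arbitrary Λ) p
  have hw0 : ∀ i j, w0 (x i j) j = u i j := by
    intro i j
    exact (hx j).extend_apply (fun i => u i j) _ i
  let T : Finset (Fin W × Fin m) := univ.image (fun p : Fin B × Fin m => (x p.1 p.2, p.2))
  have hT : T.card = B * m := by
    simp only [T]
    rw [Finset.card_image_of_injective _ (cell_inj x hx)]
    simp [Finset.card_univ]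
  have h := card_cyl2 T w0
  rw [hT] at h
  rw [← h]
  congr 2
  ext w
  simp only [mem_filter, mem_univ, true_and, T, mem_image, forall_exists_index,
    Prod.exists, Prod.forall, Prod.mk.injEq]
  constructor
  · rintro hw p j i j' ⟨h1, h2⟩
    subst h2
    subst h1
    rw [hw0]
    rw [← hw]
    rfl
  · intro hw
    funext i j
    have := hw (x i j) j i j ⟨rfl, rfl⟩
    rw [hw0] at this
    exact this

lemma card_Ev [Nonempty Λ] (C : Fin B → Finset (Fin m → Λ)) (x : Fin B → Fin m → Fin W)
    (hx : ∀ j, Function.Injective (fun i => x i j)) :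
    (Ev C x).card * Fintype.card Λ ^ (B * m)
      = (∏ i, (C i).card) * Fintype.card Λ ^ (W * m) := by
  classical
  have h1 : (Ev C x).card = ∑ u ∈ Fintype.piFinset C,
      (univ.filter (fun w : Fin W → Fin m → Λ => wv x w = u)).card := by
    rw [Finset.card_eq_sum_card_fiberwise (f := wv x) (t := Fintype.piFinset C)]
    · refine Finset.sum_congr rfl (fun u hu => ?_)
      congr 1
      ext w
      simp only [Ev, mem_filter, mem_univ, true_and]
      constructor
      · rintro ⟨_, h⟩
        exact h
      · intro h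
        refine ⟨?_, h⟩
        rw [h]
        exact Fintype.mem_piFinset.1 hu
    · intro w hw
      simp only [Ev, coe_filter, Set.mem_ofPred_eq, mem_univ, true_and] at hw
      simp only [mem_coe, Fintype.mem_piFinset]
      exact hw
  rw [h1, Finset.sum_mul, Finset.sum_congr rfl (fun u _ => fiber_card x hx u)]
  rw [Finset.sum_const, Fintype.card_piFinset, smul_eq_mul]

lemma card_fiber2_le (x x' : Fin B → Fin m → Fin W)
    (hx : ∀ j, Function.Injective (fun i => x i j))
    (hx' : ∀ j, Function.Injective (fun i => x' i j)) (u v : Fin B → Fin m → Λ)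
    (hcross : ∀ i i' j, i ≠ i' → u i j ≠ v i' j) (hL : 0 < Fintype.card Λ) :
    ((univ.filter (fun w : Fin W → Fin m → Λ => wv x w = u ∧ wv x' w = v)).card : ℝ)
      ≤ if (∀ i j, x i j = x' i j → u i j = v i j) then
          ((Fintype.card Λ : ℝ) ^ (W * m) / (Fintype.card Λ : ℝ) ^ (B * m)) *
            ∏ i, ((Fintype.card Λ : ℝ) ^ (univ.filter (fun j => x i j = x' i j)).card
              / (Fintype.card Λ : ℝ) ^ m)
        else 0 := by
  classical
  have hLr : (0 : ℝ) < (Fintype.card Λ : ℝ) := by exact_mod_cast hL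
  by_cases hne : (univ.filter (fun w : Fin W → Fin m → Λ => wv x w = u ∧ wv x' w = v)).Nonempty
  · obtain ⟨w0, hw0⟩ := hne
    simp only [mem_filter, mem_univ, true_and] at hw0
    obtain ⟨hu, hv⟩ := hw0
    have hu' : ∀ i j, w0 (x i j) j = u i j := fun i j => by rw [← hu]; rfl
    have hv' : ∀ i j, w0 (x' i j) j = v i j := fun i j => by rw [← hv]; rfl
    have hcond : ∀ i j, x i j = x' i j → u i j = v i j := by
      intro i j h
      rw [← hu', ← hv', h]
    rw [if_pos hcond]
    let f : Fin B × Fin m → Fin W × Fin m := fun p => (x p.1 p.2, p.2)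
    let f' : Fin B × Fin m → Fin W × Fin m := fun p => (x' p.1 p.2, p.2)
    let O : Finset (Fin B × Fin m) := univ.filter (fun p => x p.1 p.2 = x' p.1 p.2)
    let Oc : Finset (Fin B × Fin m) := univ.filter (fun p => ¬ x p.1 p.2 = x' p.1 p.2)
    let T : Finset (Fin W × Fin m) := univ.image f ∪ Oc.image f'
    have hdisj : Disjoint (univ.image f) (Oc.image f') := by
      rw [Finset.disjoint_left]
      intro c hc hc'
      rw [mem_image] at hc hc'
      obtain ⟨⟨i, j⟩, _, h1⟩ := hc
      obtain ⟨⟨i', j'⟩, h2, h3⟩ := hc'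
      rw [← h1] at h3
      simp only [f, f', Prod.mk.injEq] at h3
      obtain ⟨h3, h4⟩ := h3
      subst h4
      simp only [Oc, mem_filter, mem_univ, true_and] at h2
      by_cases hii : i = i'
      · subst hii
        exact h2 h3.symm
      · apply hcross i i' j' hii
        rw [← hu', ← hv', h3]
    have hTcard : T.card = B * m + Oc.card := by
      simp only [T]
      rw [Finset.card_union_of_disjoint hdisj, Finset.card_image_of_injective _ (cell_inj x hx),
        Finset.card_image_of_injective _ (cell_inj x' hx')]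
      simp [Finset.card_univ]
    have hO : O.card + Oc.card = B * m := by
      have := Finset.card_filter_add_card_filter_not (s := (univ : Finset (Fin B × Fin m)))
        (fun p => x p.1 p.2 = x' p.1 p.2)
      simp only [O, Oc]
      rw [this]
      simp [Finset.card_univ]
    have hO2 : O.card = ∑ i, (univ.filter (fun j => x i j = x' i j)).card := by
      simp only [O]
      rw [Finset.card_filter, ← Finset.univ_product_univ, Finset.sum_product]
      simp only [Finset.card_filter]
    have hsub : (univ.filter (fun w : Fin W → Fin m → Λ => wv x w = u ∧ wv x' w = v))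
        ⊆ (univ.filter (fun w : Fin W → Fin m → Λ => ∀ c ∈ T, w c.1 c.2 = w0 c.1 c.2)) := by
      intro w hw
      simp only [mem_filter, mem_univ, true_and] at hw ⊢
      obtain ⟨h1, h2⟩ := hw
      intro c hc
      simp only [T, mem_union, mem_image] at hc
      rcases hc with ⟨⟨i, j⟩, _, h3⟩ | ⟨⟨i, j⟩, _, h3⟩
      · rw [← h3]
        simp only [f]
        rw [hu', ← h1]
        rfl
      · rw [← h3]
        simp only [f']
        rw [hv', ← h2]
        rfl
    have hle := Finset.card_le_card hsub
    have hcyl := card_cyl2 T w0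
    have hcyl' : ((univ.filter (fun w : Fin W → Fin m → Λ =>
        ∀ c ∈ T, w c.1 c.2 = w0 c.1 c.2)).card : ℝ) * (Fintype.card Λ : ℝ) ^ T.card
        = (Fintype.card Λ : ℝ) ^ (W * m) := by exact_mod_cast hcyl
    have hle' : ((univ.filter (fun w : Fin W → Fin m → Λ => wv x w = u ∧ wv x' w = v)).card : ℝ)
        ≤ ((univ.filter (fun w : Fin W → Fin m → Λ =>
          ∀ c ∈ T, w c.1 c.2 = w0 c.1 c.2)).card : ℝ) := by exact_mod_cast hle
    refine hle'.trans (le_of_eq ?_)
    have h5 : ((univ.filter (fun w : Fin W → Fin m → Λ =>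
          ∀ c ∈ T, w c.1 c.2 = w0 c.1 c.2)).card : ℝ)
        = (Fintype.card Λ : ℝ) ^ (W * m) / (Fintype.card Λ : ℝ) ^ T.card := by
      rw [eq_div_iff (by positivity)]
      exact hcyl'
    rw [h5, Finset.prod_div_distrib, Finset.prod_pow_eq_pow_sum, ← hO2, Finset.prod_const,
      Finset.card_univ, Fintype.card_fin, ← pow_mul, hTcard]
    have h6 : (Fintype.card Λ : ℝ) ^ (m * B)
        = (Fintype.card Λ : ℝ) ^ O.card * (Fintype.card Λ : ℝ) ^ Oc.card := by
      rw [← pow_add, hO, mul_comm]
    rw [h6, pow_add]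
    field_simp
  · rw [Finset.not_nonempty_iff_eq_empty] at hne
    rw [hne]
    simp only [card_empty, Nat.cast_zero]
    split_ifs
    · positivity
    · exact le_rfl

lemma card_inter_le (C : Fin B → Finset (Fin m → Λ)) (x x' : Fin B → Fin m → Fin W)
    (hx : ∀ j, Function.Injective (fun i => x i j))
    (hx' : ∀ j, Function.Injective (fun i => x' i j))
    (hsep : ∀ i i', i ≠ i' → ∀ u ∈ C i, ∀ v ∈ C i', ∀ j, u j ≠ v j)
    (hL : 0 < Fintype.card Λ) (Hf : Fin B → ℝ)
    (hH : ∀ i, ∀ u ∈ C i, (((C i).filter (fun v => ∀ j, x i j = x' i j → u j = v j)).card : ℝ) *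
      ((Fintype.card Λ : ℝ) ^ (univ.filter (fun j => x i j = x' i j)).card
              / (Fintype.card Λ : ℝ) ^ m) ≤ Hf i) :
    (((Ev C x) ∩ (Ev C x')).card : ℝ) ≤ (∏ i, ((C i).card : ℝ)) *
      ((Fintype.card Λ : ℝ) ^ (W * m) / (Fintype.card Λ : ℝ) ^ (B * m)) * ∏ i, Hf i := by
  classical
  have hLr : (0 : ℝ) < (Fintype.card Λ : ℝ) := by exact_mod_cast hL
  have h1 : ((Ev C x) ∩ (Ev C x')).card = ∑ u ∈ Fintype.piFinset C, ∑ v ∈ Fintype.piFinset C,
      (univ.filter (fun w : Fin W → Fin m → Λ => wv x w = u ∧ wv x' w = v)).card := by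
    rw [← Finset.sum_product', Finset.card_eq_sum_card_fiberwise (f := fun w => (wv x w, wv x' w))
      (t := Fintype.piFinset C ×ˢ Fintype.piFinset C)]
    · refine Finset.sum_congr rfl (fun p hp => ?_)
      obtain ⟨u, v⟩ := p
      congr 1
      ext w
      simp only [Ev, mem_filter, mem_univ, true_and, mem_inter, Prod.mk.injEq]
      constructor
      · rintro ⟨_, h⟩
        exact h
      · intro h
        refine ⟨?_, h⟩
        rw [Finset.mem_product] at hp
        rw [h.1, h.2]
        exact ⟨Fintype.mem_piFinset.1 hp.1, Fintype.mem_piFinset.1 hp.2⟩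
    · intro w hw
      simp only [Ev, coe_inter, coe_filter, Set.mem_inter_iff, Set.mem_ofPred_eq, mem_univ,
        true_and] at hw
      simp only [mem_coe, Finset.mem_product, Fintype.mem_piFinset]
      exact hw
  have h2 : (((Ev C x) ∩ (Ev C x')).card : ℝ) = ∑ u ∈ Fintype.piFinset C,
      ∑ v ∈ Fintype.piFinset C,
      ((univ.filter (fun w : Fin W → Fin m → Λ => wv x w = u ∧ wv x' w = v)).card : ℝ) := by
    rw [h1]
    push_cast
    rfl
  rw [h2]
  set K : ℝ := ((Fintype.card Λ : ℝ) ^ (W * m) / (Fintype.card Λ : ℝ) ^ (B * m)) with hK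
  have hK0 : 0 ≤ K := by positivity
  set P : Fin B → ℝ := fun i => ((Fintype.card Λ : ℝ) ^ (univ.filter (fun j => x i j = x' i j)).card
              / (Fintype.card Λ : ℝ) ^ m) with hP
  have h3 : ∀ u ∈ Fintype.piFinset C, ∑ v ∈ Fintype.piFinset C,
      ((univ.filter (fun w : Fin W → Fin m → Λ => wv x w = u ∧ wv x' w = v)).card : ℝ)
      ≤ K * ∏ i, Hf i := by
    intro u hu
    have h4 : ∑ v ∈ Fintype.piFinset C,
      ((univ.filter (fun w : Fin W → Fin m → Λ => wv x w = u ∧ wv x' w = v)).card : ℝ)
      ≤ ∑ v ∈ Fintype.piFinset C, (if (∀ i j, x i j = x' i j → u i j = v i j) then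
          K * ∏ i, P i else 0) := by
      refine Finset.sum_le_sum (fun v hv => ?_)
      refine card_fiber2_le x x' hx hx' u v ?_ hL
      intro i i' j hii
      exact hsep i i' hii (u i) (Fintype.mem_piFinset.1 hu i) (v i')
        (Fintype.mem_piFinset.1 hv i') j
    refine h4.trans ?_
    rw [← Finset.sum_filter, Finset.sum_const]
    have h5 : (Fintype.piFinset C).filter (fun v => ∀ i j, x i j = x' i j → u i j = v i j)
        = Fintype.piFinset (fun i => (C i).filter (fun v => ∀ j, x i j = x' i j → u i j = v j)) := by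
      ext v
      simp only [mem_filter, Fintype.mem_piFinset]
      constructor
      · rintro ⟨h6, h7⟩ i
        exact ⟨h6 i, h7 i⟩
      · intro h6
        exact ⟨fun i => (h6 i).1, fun i => (h6 i).2⟩
    rw [h5, Fintype.card_piFinset, nsmul_eq_mul]
    push_cast
    have h8 : (∏ i, (((C i).filter (fun v => ∀ j, x i j = x' i j → u i j = v j)).card : ℝ))
        * (K * ∏ i, P i)
        = K * ∏ i, ((((C i).filter (fun v => ∀ j, x i j = x' i j → u i j = v j)).card : ℝ) * P i) := by
      rw [Finset.prod_mul_distrib]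
      ring
    rw [h8]
    refine mul_le_mul_of_nonneg_left ?_ hK0
    refine Finset.prod_le_prod (fun i _ => ?_) (fun i _ => ?_)
    · have : 0 ≤ P i := by simp only [hP]; positivity
      positivity
    · exact hH i (u i) (Fintype.mem_piFinset.1 hu i)
  calc ∑ u ∈ Fintype.piFinset C, ∑ v ∈ Fintype.piFinset C,
      ((univ.filter (fun w : Fin W → Fin m → Λ => wv x w = u ∧ wv x' w = v)).card : ℝ)
      ≤ ∑ _u ∈ Fintype.piFinset C, K * ∏ i, Hf i := Finset.sum_le_sum h3
    _ = (∏ i, ((C i).card : ℝ)) * K * ∏ i, Hf i := by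
      rw [Finset.sum_const, Fintype.card_piFinset, nsmul_eq_mul]
      push_cast
      ring

end Words

end Pool.Agent.H143R3
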