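import Pool.Agent.H143R3.Block

set_option autoImplicit false

namespace Pool.Agent.H143R3

open Finset

/-- partial sums of a sequence of step vectors -/
def ps {m B : ℕ} (D : Fin B → (Fin m → ℕ)) (i : Fin B) : Fin m → ℕ :=
  fun j => ∑ i' : Fin B, if i' ≤ i then D i' j else 0

lemma ps_cons_zero {m B : ℕ} (a : Fin m → ℕ) (D : Fin B → (Fin m → ℕ)) :
    ps (Fin.cons a D : Fin (B + 1) → (Fin m → ℕ)) 0 = a := by
  funext j
  unfold ps
  rw [Fin.sum_univ_succ]
  simp

lemma ps_cons_succ {m B : ℕ} (a : Fin m → ℕ) (D : Fin B → (Fin m → ℕ)) (i : Fin B) :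
    ps (Fin.cons a D : Fin (B + 1) → (Fin m → ℕ)) i.succ = a + ps D i := by
  funext j
  unfold ps
  rw [Fin.sum_univ_succ]
  simp [Fin.succ_le_succ_iff]

lemma sum_prod_H {m : ℕ} (S : Finset (Fin m → ℕ)) : ∀ (B : ℕ)
    (H : Fin B → (Fin m → ℕ) → ℝ) (K : Fin B → ℝ), (∀ i y, 0 ≤ H i y) → (∀ i, 0 ≤ K i) →
    (∀ i z, ∑ d : S, H i (z + (d : Fin m → ℕ)) ≤ K i) → ∀ z : Fin m → ℕ,
    ∑ D : Fin B → S, ∏ i, H i (z + ps (fun i => (D i : Fin m → ℕ)) i) ≤ ∏ i, K i := by
  intro B
  induction B with
  | zero =>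
    intro H K _ _ _ z
    simp
  | succ B ih =>
    intro H K hH hK hs z
    have h1 : ∑ D : Fin (B + 1) → S, ∏ i, H i (z + ps (fun i => (D i : Fin m → ℕ)) i)
        = ∑ a : S, ∑ D : Fin B → S, H 0 (z + (a : Fin m → ℕ)) *
          ∏ i, H (Fin.succ i) ((z + (a : Fin m → ℕ)) + ps (fun i => (D i : Fin m → ℕ)) i) := by
      rw [← Equiv.sum_comp (Fin.consEquiv (fun _ : Fin (B + 1) => S)), Fintype.sum_prod_type]
      refine Finset.sum_congr rfl (fun a _ => Finset.sum_congr rfl (fun D _ => ?_))
      have hfun : (fun i => (((Fin.consEquiv (fun _ : Fin (B + 1) => S)) (a, D)) i : Fin m → ℕ))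
          = (Fin.cons (a : Fin m → ℕ) (fun i => (D i : Fin m → ℕ)) : Fin (B + 1) → (Fin m → ℕ)) := by
        funext i
        refine Fin.cases ?_ (fun i => ?_) i
        · simp [Fin.consEquiv]
        · simp [Fin.consEquiv]
      rw [hfun, Fin.prod_univ_succ, ps_cons_zero]
      congr 1
      refine Finset.prod_congr rfl (fun i _ => ?_)
      rw [ps_cons_succ, add_assoc]
    rw [h1]
    calc ∑ a : S, ∑ D : Fin B → S, H 0 (z + (a : Fin m → ℕ)) *
          ∏ i, H (Fin.succ i) ((z + (a : Fin m → ℕ)) + ps (fun i => (D i : Fin m → ℕ)) i)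
        = ∑ a : S, H 0 (z + (a : Fin m → ℕ)) * ∑ D : Fin B → S,
          ∏ i, H (Fin.succ i) ((z + (a : Fin m → ℕ)) + ps (fun i => (D i : Fin m → ℕ)) i) := by
          refine Finset.sum_congr rfl (fun a _ => ?_)
          rw [Finset.mul_sum]
      _ ≤ ∑ a : S, H 0 (z + (a : Fin m → ℕ)) * ∏ i : Fin B, K i.succ := by
          refine Finset.sum_le_sum (fun a _ => ?_)
          refine mul_le_mul_of_nonneg_left ?_ (hH _ _)
          exact ih (fun i => H i.succ) (fun i => K i.succ) (fun i y => hH _ y) (fun i => hK _)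
            (fun i z => hs _ z) _
      _ = (∑ a : S, H 0 (z + (a : Fin m → ℕ))) * ∏ i : Fin B, K i.succ := by
          rw [Finset.sum_mul]
      _ ≤ K 0 * ∏ i : Fin B, K i.succ := by
          refine mul_le_mul_of_nonneg_right (hs 0 z) ?_
          exact Finset.prod_nonneg (fun i _ => hK _)
      _ = ∏ i, K i := (Fin.prod_univ_succ K).symm

lemma ps_add_le {m B : ℕ} (D : Fin B → (Fin m → ℕ)) {i i' : Fin B} (h : i < i') (j : Fin m) :
    ps D i j + D i' j ≤ ps D i' j := by
  unfold ps
  have h1 : D i' j = ∑ k : Fin B, if k = i' then D k j else 0 := by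
    rw [Finset.sum_ite_eq' Finset.univ i' (fun k => D k j)]
    simp
  rw [h1, ← Finset.sum_add_distrib]
  refine Finset.sum_le_sum (fun k _ => ?_)
  by_cases hk : k ≤ i
  · have h2 : k ≠ i' := fun h3 => absurd (h3 ▸ hk) (not_le.2 h)
    have h3 : k ≤ i' := hk.trans h.le
    simp [hk, h2, h3]
  · by_cases hk2 : k = i'
    · subst hk2
      simp [hk]
    · simp [hk, hk2]

lemma ps_le_sum {m B : ℕ} (D : Fin B → (Fin m → ℕ)) (i : Fin B) (j : Fin m) :
    ps D i j ≤ ∑ i', D i' j := by
  unfold ps
  refine Finset.sum_le_sum (fun k _ => ?_)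
  split_ifs
  · exact le_rfl
  · exact Nat.zero_le _

section Main

variable {m r B W : ℕ}

/-- the positions of the chain with steps `D` -/
def xD [NeZero W] (D : Fin B → R m r) : Fin B → Fin m → Fin W :=
  fun i j => Fin.ofNat W (ps (fun i => (D i : Fin m → ℕ)) i j)

lemma xD_val [NeZero W] {D : Fin B → R m r} (hD : D ∈ Good m r B W) (i : Fin B) (j : Fin m) :
    (xD (W := W) D i j : ℕ) = ps (fun i => (D i : Fin m → ℕ)) i j := by
  unfold xD
  rw [Fin.val_ofNat]
  apply Nat.mod_eq_of_lt
  refine lt_of_le_of_lt (ps_le_sum _ i j) ?_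
  unfold Good at hD
  rw [mem_filter] at hD
  exact hD.2 j

lemma xD_strictMono [NeZero W] {D : Fin B → R m r} (hD : D ∈ Good m r B W) (j : Fin m) :
    StrictMono (fun i => xD (W := W) D i j) := by
  intro i i' h
  rw [Fin.lt_def, xD_val hD, xD_val hD]
  have h1 := ps_add_le (fun i => (D i : Fin m → ℕ)) h j
  have h2 := (mem_R.1 (D i').2).1 j

  omega

variable {Λ : Type*} [Fintype Λ] [DecidableEq Λ]

lemma sum_ite_Icc (a z r : ℕ) (q : ℝ) (hq : 0 ≤ q) :
    ∑ k ∈ Finset.Icc 1 r, (if a = z + k then (1 : ℝ) else q) ≤ 1 + r * q := by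
  have h1 : ∀ k ∈ Finset.Icc 1 r, (if a = z + k then (1 : ℝ) else q)
      ≤ (if k = a - z then (1 : ℝ) else 0) + q := by
    intro k _
    by_cases h : a = z + k
    · have : k = a - z := by omega
      rw [if_pos h, if_pos this]
      linarith
    · rw [if_neg h]
      split_ifs
      · linarith
      · linarith
  refine (Finset.sum_le_sum h1).trans ?_
  rw [Finset.sum_add_distrib, Finset.sum_ite_eq' (Finset.Icc 1 r) (a - z) (fun _ => (1 : ℝ))]
  have h2 : ∑ _k ∈ Finset.Icc 1 r, q = r * q := by
    simp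
  rw [h2]
  split_ifs
  · exact le_rfl
  · linarith

/-- The second moment estimate: the number of words in which some good chain succeeds. -/
theorem block_words [NeZero W] (C : Fin B → Finset (Fin m → Λ)) (Q : ℕ)
    (hL : 0 < Fintype.card Λ)
    (hsep : ∀ i i', i ≠ i' → ∀ u ∈ C i, ∀ v ∈ C i', ∀ j, u j ≠ v j)
    (hQ : ∀ i, ∀ u ∈ C i, ∀ S : Finset (Fin m), S.Nonempty →
      ((C i).filter (fun v => ∀ j ∈ S, u j = v j)).card ≤ Q ^ (m - S.card))
    (hC : ∀ i, 0 < (C i).card) (hR : 0 < (R m r).card) :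
    ((Good m r B W).card : ℝ) * (Fintype.card Λ : ℝ) ^ (W * m) *
      ∏ i, ((((C i).card : ℝ) / (Fintype.card Λ : ℝ) ^ m) /
        (((R m r).card : ℝ) * (((C i).card : ℝ) / (Fintype.card Λ : ℝ) ^ m)
          + (1 + r * (Q / (Fintype.card Λ : ℝ))) ^ m))
      ≤ ((univ.filter (fun w : Fin W → Fin m → Λ =>
          ∃ D ∈ Good m r B W, w ∈ Ev C (xD D))).card : ℝ) := by
  classical
  have hLr : (0 : ℝ) < (Fintype.card Λ : ℝ) := by exact_mod_cast hL
  have hneΛ : Nonempty Λ := Fintype.card_pos_iff.1 hL
  set L : ℝ := (Fintype.card Λ : ℝ) with hLdef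
  set p : Fin B → ℝ := fun i => ((C i).card : ℝ) / L ^ m with hp
  have hp0 : ∀ i, 0 < p i := by
    intro i
    have : (0 : ℝ) < ((C i).card : ℝ) := by exact_mod_cast hC i
    simp only [hp]
    positivity
  set q : ℝ := (Q : ℝ) / L with hq
  have hq0 : 0 ≤ q := by positivity
  set K : Fin B → ℝ := fun i => ((R m r).card : ℝ) * p i + (1 + r * q) ^ m with hK
  have hK0 : ∀ i, 0 < K i := by
    intro i
    have := hp0 i
    have hRr : (0 : ℝ) < ((R m r).card : ℝ) := by exact_mod_cast hR
    simp only [hK]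
    positivity
  set e0 : ℝ := (∏ i, ((C i).card : ℝ)) * (L ^ (W * m) / L ^ (B * m)) with he0
  have he0pos : 0 < e0 := by
    have : ∀ i, (0 : ℝ) < ((C i).card : ℝ) := fun i => by exact_mod_cast hC i
    have h2 : 0 < ∏ i, ((C i).card : ℝ) := Finset.prod_pos (fun i _ => this i)
    exact mul_pos h2 (div_pos (pow_pos hLr _) (pow_pos hLr _))
  have hinj : ∀ D ∈ Good m r B W, ∀ j, Function.Injective (fun i => xD (W := W) D i j) :=
    fun D hD j => (xD_strictMono hD j).injective
  -- first moment
  have hE : ∀ D ∈ Good m r B W, ((Ev C (xD (W := W) D)).card : ℝ) = e0 := by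
    intro D hD
    have h1 := card_Ev C (xD (W := W) D) (hinj D hD)
    have h2 : ((Ev C (xD (W := W) D)).card : ℝ) * L ^ (B * m)
        = (∏ i, ((C i).card : ℝ)) * L ^ (W * m) := by
      rw [hLdef]
      exact_mod_cast h1
    rw [he0, ← mul_div_assoc, eq_div_iff (by positivity)]
    exact h2
  -- pair bound
  have hpair : ∀ D ∈ Good m r B W, ∑ D' ∈ Good m r B W,
      (((Ev C (xD (W := W) D)) ∩ (Ev C (xD (W := W) D'))).card : ℝ) ≤ e0 * ∏ i, K i := by
    intro D hD
    let N : Fin B → Fin m → ℕ := fun i => ps (fun i => (D i : Fin m → ℕ)) i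
    let H : Fin B → (Fin m → ℕ) → ℝ := fun i y =>
      p i + ∏ j, (if N i j = y j then (1 : ℝ) else q)
    have hH0 : ∀ i y, 0 ≤ H i y := by
      intro i y
      have h1 := (hp0 i).le
      have h2 : 0 ≤ ∏ j, (if N i j = y j then (1 : ℝ) else q) := by
        refine Finset.prod_nonneg (fun j _ => ?_)
        split_ifs
        · exact zero_le_one
        · exact hq0
      simp only [H]
      linarith
    have h1 : ∀ D' ∈ Good m r B W,
        (((Ev C (xD (W := W) D)) ∩ (Ev C (xD (W := W) D'))).card : ℝ)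
          ≤ e0 * ∏ i, H i (0 + ps (fun i => (D' i : Fin m → ℕ)) i) := by
      intro D' hD'
      have h2 : ∀ i j, (xD (W := W) D i j = xD (W := W) D' i j) ↔
          N i j = ps (fun i => (D' i : Fin m → ℕ)) i j := by
        intro i j
        rw [Fin.ext_iff, xD_val hD, xD_val hD']
      refine card_inter_le C (xD (W := W) D) (xD (W := W) D') (hinj D hD) (hinj D' hD') hsep hL
        (fun i => H i (0 + ps (fun i => (D' i : Fin m → ℕ)) i)) ?_
      intro i u hu
      simp only [H, zero_add]
      set S : Finset (Fin m) := univ.filter (fun j => xD (W := W) D i j = xD (W := W) D' i j)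
        with hS
      have hprod : ∏ j, (if N i j = ps (fun i => (D' i : Fin m → ℕ)) i j then (1 : ℝ) else q)
          = q ^ (m - S.card) := by
        have h3 : ∀ j, (if N i j = ps (fun i => (D' i : Fin m → ℕ)) i j then (1 : ℝ) else q)
            = if j ∈ S then 1 else q := by
          intro j
          have h4 : j ∈ S ↔ N i j = ps (fun i => (D' i : Fin m → ℕ)) i j := by
            rw [hS, mem_filter]
            simp only [mem_univ, true_and]
            exact h2 i j
          by_cases h5 : j ∈ S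
          · rw [if_pos h5, if_pos (h4.1 h5)]
          · rw [if_neg h5, if_neg (fun h6 => h5 (h4.2 h6))]
        rw [Finset.prod_congr rfl (fun j _ => h3 j), Finset.prod_ite, Finset.prod_const_one,
          one_mul, Finset.prod_const]
        congr 1
        have h7 : univ.filter (fun j => j ∉ S) = univ \ S := by
          ext j
          simp
        rw [h7, Finset.card_sdiff_of_subset (Finset.subset_univ S), Finset.card_univ,
          Fintype.card_fin]
      rw [hprod]
      by_cases hSe : S.Nonempty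
      · have h8 := hQ i u hu S hSe
        have h9 : ((C i).filter (fun v => ∀ j, xD (W := W) D i j = xD (W := W) D' i j → u j = v j)).card
            ≤ Q ^ (m - S.card) := by
          refine le_trans (Finset.card_le_card ?_) h8
          intro v hv
          rw [mem_filter] at hv ⊢
          refine ⟨hv.1, fun j hj => hv.2 j ?_⟩
          rw [hS, mem_filter] at hj
          exact hj.2
        have h10 : (((C i).filter (fun v => ∀ j, xD (W := W) D i j = xD (W := W) D' i j → u j = v j)).card : ℝ)
            ≤ (Q : ℝ) ^ (m - S.card) := by exact_mod_cast h9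
        have hSle : S.card ≤ m := by
          have := Finset.card_le_univ S
          simpa using this
        have h11 : L ^ m = L ^ S.card * L ^ (m - S.card) := by
          rw [← pow_add]
          congr 1
          omega
        have h12 : (Q : ℝ) ^ (m - S.card) * (L ^ S.card / L ^ m) = q ^ (m - S.card) := by
          rw [h11, hq, div_pow]
          field_simp
        calc (((C i).filter (fun v => ∀ j, xD (W := W) D i j = xD (W := W) D' i j → u j = v j)).card : ℝ) *
              (L ^ S.card / L ^ m)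
            ≤ (Q : ℝ) ^ (m - S.card) * (L ^ S.card / L ^ m) := by
              refine mul_le_mul_of_nonneg_right h10 ?_
              positivity
          _ = q ^ (m - S.card) := h12
          _ ≤ p i + q ^ (m - S.card) := by
              have := (hp0 i).le
              linarith
      · rw [Finset.not_nonempty_iff_eq_empty] at hSe
        rw [hSe]
        simp only [card_empty, pow_zero, Nat.sub_zero]
        have h13 : (((C i).filter (fun v => ∀ j, xD (W := W) D i j = xD (W := W) D' i j → u j = v j)).card : ℝ)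
            ≤ ((C i).card : ℝ) := by
          exact_mod_cast Finset.card_filter_le _ _
        have h14 : 0 ≤ q ^ m := by positivity
        calc (((C i).filter (fun v => ∀ j, xD (W := W) D i j = xD (W := W) D' i j → u j = v j)).card : ℝ) *
              (1 / L ^ m)
            ≤ ((C i).card : ℝ) * (1 / L ^ m) := by
              refine mul_le_mul_of_nonneg_right h13 ?_
              positivity
          _ = p i := by
              simp only [hp]
              ring
          _ ≤ p i + q ^ m := by linarith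
    have h15 : ∑ D' ∈ Good m r B W,
        (((Ev C (xD (W := W) D)) ∩ (Ev C (xD (W := W) D'))).card : ℝ)
        ≤ ∑ D' : Fin B → R m r, e0 * ∏ i, H i (0 + ps (fun i => (D' i : Fin m → ℕ)) i) := by
      refine (Finset.sum_le_sum h1).trans ?_
      refine Finset.sum_le_sum_of_subset_of_nonneg (Finset.subset_univ _) ?_
      intro D' _ _
      exact mul_nonneg he0pos.le (Finset.prod_nonneg (fun i _ => hH0 _ _))
    refine h15.trans ?_
    rw [← Finset.mul_sum]
    refine mul_le_mul_of_nonneg_left ?_ he0pos.le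
    refine sum_prod_H (R m r) B H K hH0 (fun i => (hK0 i).le) ?_ 0
    intro i z
    simp only [H, hK]
    rw [Finset.sum_add_distrib]
    have h16 : ∑ _d : R m r, p i = ((R m r).card : ℝ) * p i := by simp
    rw [h16]
    have h17 : ∑ d : R m r, ∏ j, (if N i j = (z + (d : Fin m → ℕ)) j then (1 : ℝ) else q)
        ≤ (1 + r * q) ^ m := by
      rw [Finset.sum_coe_sort (R m r)
        (fun d => ∏ j, (if N i j = (z + d) j then (1 : ℝ) else q))]
      have h18 : ∑ d ∈ R m r, ∏ j, (if N i j = (z + d) j then (1 : ℝ) else q)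
          ≤ ∑ d ∈ Fintype.piFinset (fun _ : Fin m => Finset.Icc 1 r),
            ∏ j, (if N i j = z j + d j then (1 : ℝ) else q) := by
        refine Finset.sum_le_sum_of_subset_of_nonneg ?_ ?_
        · unfold R
          exact Finset.filter_subset _ _
        · intro d _ _
          refine Finset.prod_nonneg (fun j _ => ?_)
          split_ifs
          · exact zero_le_one
          · exact hq0
      refine h18.trans ?_
      rw [← Finset.prod_univ_sum (fun _ : Fin m => Finset.Icc 1 r)
        (fun j k => if N i j = z j + k then (1 : ℝ) else q)]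
      calc ∏ j, ∑ k ∈ Finset.Icc 1 r, (if N i j = z j + k then (1 : ℝ) else q)
          ≤ ∏ _j : Fin m, (1 + r * q) := by
            refine Finset.prod_le_prod (fun j _ => ?_) (fun j _ => sum_ite_Icc _ _ _ _ hq0)
            refine Finset.sum_nonneg (fun k _ => ?_)
            split_ifs
            · exact zero_le_one
            · exact hq0
        _ = (1 + r * q) ^ m := by simp
    linarith
  -- second moment method
  let Z : (Fin W → Fin m → Λ) → ℝ := fun w =>
    (((Good m r B W).filter (fun D => w ∈ Ev C (xD (W := W) D))).card : ℝ)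
  set GW : Finset (Fin W → Fin m → Λ) := univ.filter (fun w : Fin W → Fin m → Λ =>
          ∃ D ∈ Good m r B W, w ∈ Ev C (xD D)) with hGW
  have hZsum : ∑ w ∈ GW, Z w = ((Good m r B W).card : ℝ) * e0 := by
    have h1 : ∑ w ∈ GW, Z w = ∑ w : Fin W → Fin m → Λ, Z w := by
      refine Finset.sum_subset (Finset.subset_univ _) ?_
      intro w _ hw
      simp only [Z]
      have h2 : (Good m r B W).filter (fun D => w ∈ Ev C (xD (W := W) D)) = ∅ := by
        rw [Finset.filter_eq_empty_iff]
        intro D hD hD2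
        apply hw
        rw [hGW, mem_filter]
        exact ⟨mem_univ _, D, hD, hD2⟩
      rw [h2]
      simp
    rw [h1]
    simp only [Z, Finset.card_filter]
    push_cast
    rw [Finset.sum_comm]
    have h3 : ∀ D ∈ Good m r B W, ∑ w : Fin W → Fin m → Λ,
        (if w ∈ Ev C (xD (W := W) D) then (1 : ℝ) else 0) = e0 := by
      intro D hD
      rw [← hE D hD]
      simp
    rw [Finset.sum_congr rfl h3]
    simp
  have hZsq : ∑ w ∈ GW, Z w ^ 2 ≤ ((Good m r B W).card : ℝ) * (e0 * ∏ i, K i) := by
    have h1 : ∑ w ∈ GW, Z w ^ 2 ≤ ∑ w : Fin W → Fin m → Λ, Z w ^ 2 := by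
      refine Finset.sum_le_sum_of_subset_of_nonneg (Finset.subset_univ _) ?_
      intro w _ _
      positivity
    refine h1.trans ?_
    have h2 : ∀ w : Fin W → Fin m → Λ, Z w ^ 2 = ∑ D ∈ Good m r B W, ∑ D' ∈ Good m r B W,
        (if w ∈ Ev C (xD (W := W) D) ∩ Ev C (xD (W := W) D') then (1 : ℝ) else 0) := by
      intro w
      simp only [Z, Finset.card_filter]
      push_cast
      rw [sq, Finset.sum_mul_sum]
      refine Finset.sum_congr rfl (fun D _ => Finset.sum_congr rfl (fun D' _ => ?_))
      by_cases h3 : w ∈ Ev C (xD (W := W) D)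
      · by_cases h4 : w ∈ Ev C (xD (W := W) D')
        · simp [h3, h4]
        · simp [h3, h4]
      · simp [h3]
    rw [Finset.sum_congr rfl (fun w _ => h2 w), Finset.sum_comm]
    have h5 : ∀ D ∈ Good m r B W, ∑ w : Fin W → Fin m → Λ, ∑ D' ∈ Good m r B W,
        (if w ∈ Ev C (xD (W := W) D) ∩ Ev C (xD (W := W) D') then (1 : ℝ) else 0)
        ≤ e0 * ∏ i, K i := by
      intro D hD
      rw [Finset.sum_comm]
      refine le_trans (le_of_eq ?_) (hpair D hD)
      refine Finset.sum_congr rfl (fun D' _ => ?_)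
      rw [Finset.sum_boole, Finset.filter_mem_eq_inter, Finset.univ_inter]
    calc ∑ D ∈ Good m r B W, ∑ w : Fin W → Fin m → Λ, ∑ D' ∈ Good m r B W,
        (if w ∈ Ev C (xD (W := W) D) ∩ Ev C (xD (W := W) D') then (1 : ℝ) else 0)
        ≤ ∑ _D ∈ Good m r B W, e0 * ∏ i, K i := Finset.sum_le_sum h5
      _ = ((Good m r B W).card : ℝ) * (e0 * ∏ i, K i) := by simp
  have hCS := sq_sum_le_card_mul_sum_sq (s := GW) (f := Z)
  rw [hZsum] at hCS
  have hKprod : 0 < ∏ i, K i := Finset.prod_pos (fun i _ => hK0 i)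
  by_cases hG : (Good m r B W).card = 0
  · rw [hG]
    simp
  have hGpos : (0 : ℝ) < ((Good m r B W).card : ℝ) := by
    exact_mod_cast Nat.pos_of_ne_zero hG
  have h6 : (((Good m r B W).card : ℝ) * e0) ^ 2
      ≤ (GW.card : ℝ) * (((Good m r B W).card : ℝ) * (e0 * ∏ i, K i)) :=
    hCS.trans (mul_le_mul_of_nonneg_left hZsq (Nat.cast_nonneg _))
  have h7 : ((Good m r B W).card : ℝ) * e0 ≤ (GW.card : ℝ) * ∏ i, K i := by
    have h8 : (((Good m r B W).card : ℝ) * e0) * (((Good m r B W).card : ℝ) * e0)
        ≤ (((Good m r B W).card : ℝ) * e0) * ((GW.card : ℝ) * ∏ i, K i) := by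
      calc (((Good m r B W).card : ℝ) * e0) * (((Good m r B W).card : ℝ) * e0)
          = (((Good m r B W).card : ℝ) * e0) ^ 2 := by ring
        _ ≤ _ := h6
        _ = _ := by ring
    exact le_of_mul_le_mul_left h8 (mul_pos hGpos he0pos)
  have h9 : ((Good m r B W).card : ℝ) * L ^ (W * m) * ∏ i, (p i / K i)
      = ((Good m r B W).card : ℝ) * e0 / ∏ i, K i := by
    rw [he0, Finset.prod_div_distrib]
    have h10 : ∏ i, p i = (∏ i, ((C i).card : ℝ)) / L ^ (B * m) := by
      simp only [hp]
      rw [Finset.prod_div_distrib, Finset.prod_const, Finset.card_univ, Fintype.card_fin,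
        ← pow_mul, mul_comm m B]
    rw [h10]
    ring
  rw [h9, div_le_iff₀ hKprod]
  exact h7

end Main

end Pool.Agent.H143R3
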