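import Pool.Agent.H143R3.Params

set_option autoImplicit false

namespace Pool.Agent.H143R3

open Finset

lemma rpow_22 (α : ℝ) (hα : α ≤ 101 / 200) : (22 / 10 : ℝ) ^ α ≤ 14892 / 10000 := by
  have h1 : (22 / 10 : ℝ) ^ α ≤ (22 / 10 : ℝ) ^ (101 / 200 : ℝ) :=
    Real.rpow_le_rpow_of_exponent_le (by norm_num) hα
  refine h1.trans ?_
  have h2 : (22 / 10 : ℝ) ^ (101 / 200 : ℝ) = ((22 / 10 : ℝ) ^ (101 : ℕ)) ^ ((200 : ℕ) : ℝ)⁻¹ := by
    rw [← Real.rpow_natCast, ← Real.rpow_mul (by norm_num)]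
    norm_num
  have h3 : (14892 / 10000 : ℝ) = ((14892 / 10000 : ℝ) ^ (200 : ℕ)) ^ ((200 : ℕ) : ℝ)⁻¹ := by
    rw [Real.pow_rpow_inv_natCast (by norm_num) (by norm_num)]
  rw [h2, h3]
  refine Real.rpow_le_rpow (by positivity) ?_ (by positivity)
  norm_num

lemma one_add_pow_le_two (x : ℝ) (m : ℕ) (hx : 0 ≤ x) (h : m * x ≤ 1 / 2) : (1 + x) ^ m ≤ 2 := by
  have h1 : (1 + x) ^ m ≤ Real.exp (m * x) := by
    rw [Real.exp_nat_mul]
    refine pow_le_pow_left₀ (by positivity) ?_ _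
    have := Real.add_one_le_exp x
    linarith
  have h2 : Real.exp (m * x) ≤ Real.exp (1 / 2) := Real.exp_le_exp.2 h
  have h3 : Real.exp (1 / 2) ≤ 2 := by
    have h4 : Real.exp (1 / 2) ^ 2 = Real.exp 1 := by
      rw [← Real.exp_nat_mul]
      congr 1
      norm_num
    have h5 := Real.exp_one_lt_d9
    have h6 : 0 < Real.exp (1 / 2) := Real.exp_pos _
    nlinarith
  linarith

lemma choose_lower (r m : ℕ) (x : ℝ) (hx : 0 ≤ x) (h : x ≤ ((r + 1 - m : ℕ) : ℝ)) :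
    x ^ m / (m.factorial : ℝ) ≤ (r.choose m : ℝ) := by
  have h1 := Nat.pow_le_choose (α := ℝ) m r
  refine le_trans ?_ h1
  refine div_le_div_of_nonneg_right ?_ (by positivity)
  exact pow_le_pow_left₀ hx h m

theorem avg_ge (t : ℕ) (hc : Cond t) (ht : 2 ≤ t) (n0 : ℕ) : ∃ n : ℕ, n0 ≤ n ∧
    (201 / 100 : ℝ) ≤ (∑ π : Fin (t * 32) → Equiv.Perm (Fin n), (LP π : ℝ))
      / ((n.factorial : ℝ) ^ (t * 32))
      / (n : ℝ) ^ (((t * 32 : ℕ) : ℝ) / (2 * ((t * 32 : ℕ) : ℝ) - 1)) := by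
  obtain ⟨hc1, hc2⟩ := hc
  have hTA := card_TA t
  have hTA1 := TA_prod1 t
  have hTA2 := TA_prod2 t
  generalize hA : TA t = A at hTA hTA1 hTA2
  generalize hPdef : (∏ y : Fin 32, (8 + (y : ℕ))) = P at hc2 hTA1 hTA2
  clear hA hPdef
  have hm64 : 64 ≤ t * 32 := by omega
  generalize hmdef : t * 32 = m at *
  set B : ℕ := BB m with hBdef
  have hm0 : 0 < m := by omega
  have hB0 : 0 < B := by
    rw [hBdef]
    unfold BB
    positivity
  -- choice of T
  obtain ⟨T, hTdef⟩ : ∃ T : ℕ, T = 20000 + 10000 * B * (n0 + 2) + 2 * m * (2 * m + 1) := ⟨_, rfl⟩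
  have hT0 : 0 < T := by omega
  obtain ⟨m', hm'⟩ : ∃ m', m = m' + 1 := ⟨m - 1, by omega⟩
  set Y : ℕ := T ^ m' with hY
  set N : ℕ := T ^ m with hN
  have hNY : N = T * Y := by
    rw [hN, hY, hm', pow_succ]
    ring
  have hY1 : 1 ≤ Y := Nat.one_le_pow _ _ hT0
  have hN0 : 0 < N := by rw [hN]; positivity
  have hTN : T ≤ N := by
    rw [hNY]
    exact Nat.le_mul_of_pos_right _ hY1
  have hTY : T ≤ Y := by
    rw [hY]
    exact Nat.le_self_pow (by omega) _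
  -- real versions
  have hmr : (0 : ℝ) < m := by exact_mod_cast hm0
  have hmr64 : (64 : ℝ) ≤ m := by exact_mod_cast hm64
  have hBr : (0 : ℝ) < B := by exact_mod_cast hB0
  have hTr : (0 : ℝ) < T := by exact_mod_cast hT0
  have hNr : (0 : ℝ) < N := by exact_mod_cast hN0
  have hYr : (1 : ℝ) ≤ Y := by exact_mod_cast hY1
  have hNYr : (N : ℝ) = T * Y := by exact_mod_cast hNY
  have hTbig1 : (20000 : ℝ) ≤ T := by
    have : 20000 ≤ T := by omega
    exact_mod_cast this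
  have hTbig2 : (10000 : ℝ) * B ≤ T := by
    have h1 : 10000 * B * 1 ≤ 10000 * B * (n0 + 2) := Nat.mul_le_mul_left _ (by omega)
    have : 10000 * B ≤ T := by omega
    exact_mod_cast this
  have hTbig3 : (2 : ℝ) * m * (2 * m + 1) ≤ T := by
    have : 2 * m * (2 * m + 1) ≤ T := by omega
    exact_mod_cast this
  have hTNr : (T : ℝ) ≤ N := by exact_mod_cast hTN
  have hTYr : (T : ℝ) ≤ Y := by exact_mod_cast hTY
  set e : ℝ := 1 / 5000 with he
  -- s0
  set s0 : ℕ := N / (5000 * B) with hs0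
  have hs0up : (B : ℝ) * s0 ≤ N / 5000 := by
    have h1 : s0 * (5000 * B) ≤ N := Nat.div_mul_le_self _ _
    have h2 : (s0 : ℝ) * (5000 * B) ≤ N := by exact_mod_cast h1
    linarith
  have hs0lo : (N : ℝ) / (10000 * B) ≤ s0 := by
    have h1 : N < (s0 + 1) * (5000 * B) := by
      have := Nat.lt_mul_div_succ N (b := 5000 * B) (by positivity)
      rw [hs0]
      linarith
    have h2 : (N : ℝ) < (s0 + 1) * (5000 * B) := by exact_mod_cast h1
    rw [div_le_iff₀ (by positivity)]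
    have h3 : (10000 : ℝ) * B ≤ N := hTbig2.trans hTNr
    linarith
  -- s1
  set s1 : ℕ := N / B with hs1
  have hs1up : (s1 : ℝ) * B ≤ N := by
    have h1 : s1 * B ≤ N := Nat.div_mul_le_self _ _
    exact_mod_cast h1
  have hs1lo : (N : ℝ) - B ≤ s1 * B := by
    have h1 : N < (s1 + 1) * B := by
      have := Nat.lt_mul_div_succ N (b := B) hB0
      rw [hs1]
      linarith
    have h2 : (N : ℝ) < (s1 + 1) * B := by exact_mod_cast h1
    linarith
  -- s2
  set s2 : ℕ := 2 * N / B + 1 with hs2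
  have hs2lo : 2 * N ≤ s2 * B := by
    have := Nat.lt_mul_div_succ (2 * N) (b := B) hB0
    rw [hs2]
    linarith
  have hs2up : (s2 : ℝ) * B ≤ 2 * N + B := by
    have h1 : (2 * N / B) * B ≤ 2 * N := Nat.div_mul_le_self _ _
    have h2 : s2 * B ≤ 2 * N + B := by
      rw [hs2]
      linarith
    exact_mod_cast h2
  -- r1 and r2
  have hr : ∀ c : ℕ, c ≤ 10000 → ∃ r : ℕ, 0 < r ∧
      (c / 10000 : ℝ) * m * Y ≤ ((r + 1 - m : ℕ) : ℝ) ∧
      (r : ℝ) ≤ (c / 10000 : ℝ) * m * Y + 1 + m ∧ (1 + (r : ℝ) / N) ^ m ≤ 2 := by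
    intro c hc
    have hcr : (c : ℝ) ≤ 10000 := by exact_mod_cast hc
    have hc0 : (0 : ℝ) ≤ c := Nat.cast_nonneg _
    refine ⟨c * m * Y / 10000 + 1 + m, by omega, ?_, ?_, ?_⟩
    · have h1 : c * m * Y / 10000 + 1 + m + 1 - m = c * m * Y / 10000 + 2 := by omega
      rw [h1]
      have h2 := Nat.lt_mul_div_succ (c * m * Y) (b := 10000) (by norm_num)
      have h3 : ((c * m * Y : ℕ) : ℝ) < 10000 * ((c * m * Y / 10000 : ℕ) + 1) := by
        exact_mod_cast h2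
      push_cast at h3 ⊢
      linarith
    · have h1 : (c * m * Y / 10000) * 10000 ≤ c * m * Y := Nat.div_mul_le_self _ _
      have h2 : ((c * m * Y / 10000 : ℕ) : ℝ) * 10000 ≤ (c : ℝ) * m * Y := by exact_mod_cast h1
      push_cast
      linarith
    · apply one_add_pow_le_two
      · positivity
      · have h1 : (c * m * Y / 10000) * 10000 ≤ c * m * Y := Nat.div_mul_le_self _ _
        have h2 : ((c * m * Y / 10000 : ℕ) : ℝ) * 10000 ≤ (c : ℝ) * m * Y := by exact_mod_cast h1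
        have h3 : (c : ℝ) * m * Y ≤ 10000 * m * Y := by gcongr
        have h4 : ((c * m * Y / 10000 + 1 + m : ℕ) : ℝ) ≤ (2 * m + 1) * Y := by
          push_cast
          have h6 : (m : ℝ) * 1 ≤ m * Y := mul_le_mul_of_nonneg_left hYr hmr.le
          linarith
        have h5 : (m : ℝ) * (((c * m * Y / 10000 + 1 + m : ℕ) : ℝ) / N)
            ≤ m * (((2 * m + 1) * Y) / N) := by gcongr
        refine h5.trans ?_
        rw [hNYr, mul_div_mul_right _ _ (by positivity), ← mul_div_assoc, div_le_iff₀ hTr]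
        linarith
  obtain ⟨r1, hr1pos, hr1lo, hr1up, hr1q⟩ := hr 5519 (by norm_num)
  obtain ⟨r2, hr2pos, hr2lo, hr2up, hr2q⟩ := hr 8233 (by norm_num)
  -- W1 and W2
  set W1 : ℕ := ⌈(1 + e) * B * (r1 / m)⌉₊ with hW1
  set W2 : ℕ := ⌈(1 + e) * B * (r2 / m)⌉₊ with hW2
  have he0 : (0 : ℝ) < e := by rw [he]; norm_num
  have he1 : e ≤ 1 := by rw [he]; norm_num
  have hW1lo : (1 + e) * B * (r1 / m) ≤ W1 := Nat.le_ceil _
  have hW2lo : (1 + e) * B * (r2 / m) ≤ W2 := Nat.le_ceil _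
  have hW1up : (W1 : ℝ) ≤ (1 + e) * B * (r1 / m) + 1 := (Nat.ceil_lt_add_one (by positivity)).le
  have hW2up : (W2 : ℝ) ≤ (1 + e) * B * (r2 / m) + 1 := (Nat.ceil_lt_add_one (by positivity)).le
  have hBe : 2 * (m : ℝ) ^ 3 ≤ e ^ 3 * B := by
    rw [he, hBdef]
    unfold BB
    push_cast
    linarith
  -- power identity
  have hpow : (Y : ℝ) ^ m * N = (N : ℝ) ^ m := by
    have h1 : (N : ℝ) ^ m = (T : ℝ) ^ m * (Y : ℝ) ^ m := by rw [hNYr, mul_pow]
    have h2 : (N : ℝ) = (T : ℝ) ^ m := by rw [hN]; push_cast; rfl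
    rw [h1]
    nth_rewrite 1 [h2]
    ring
  have hfm : (0 : ℝ) < (m.factorial : ℝ) := by exact_mod_cast Nat.factorial_pos m
  have hft : (0 : ℝ) < (t.factorial : ℝ) := by exact_mod_cast Nat.factorial_pos t
  have hNm : (0 : ℝ) < (N : ℝ) ^ m := by positivity
  -- key inequalities
  have hl : ∀ (c : ℝ) (r μ : ℕ), 0 ≤ c → c * m * Y ≤ ((r + 1 - m : ℕ) : ℝ) →
      2 * 10 ^ 8 * (B : ℝ) ^ 2 * (m.factorial : ℝ) ≤ (c * m / 48) ^ m * μ →
      4 * (B : ℝ) / e ≤ (r.choose m : ℝ) * ((s0 : ℝ) * μ / ((N : ℝ) * (48 : ℕ)) ^ m) := by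
    intro c r μ hc0 hcr hcond
    have h1 := choose_lower r m (c * m * Y) (by positivity) hcr
    have h2 : (N : ℝ) / (10000 * B) * μ / ((N : ℝ) * (48 : ℕ)) ^ m
        ≤ (s0 : ℝ) * μ / ((N : ℝ) * (48 : ℕ)) ^ m := by gcongr
    have h3 : (c * m * Y) ^ m / (m.factorial : ℝ) *
        ((N : ℝ) / (10000 * B) * μ / ((N : ℝ) * (48 : ℕ)) ^ m)
        ≤ (r.choose m : ℝ) * ((s0 : ℝ) * μ / ((N : ℝ) * (48 : ℕ)) ^ m) := by gcongr
    refine le_trans ?_ h3
    have h4 : (c * m * Y) ^ m / (m.factorial : ℝ) *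
        ((N : ℝ) / (10000 * B) * μ / ((N : ℝ) * (48 : ℕ)) ^ m)
        = ((c * m / 48) ^ m * μ) / ((m.factorial : ℝ) * (10000 * B)) := by
      rw [mul_pow (c * m) (Y : ℝ) m, mul_pow (N : ℝ), div_pow]
      push_cast
      have h5 : (c * ↑m) ^ m * (Y : ℝ) ^ m / ↑m.factorial * (↑N / (10000 * ↑B) * ↑μ / (↑N ^ m * 48 ^ m))
          = (c * ↑m) ^ m * ((Y : ℝ) ^ m * N) * μ / (↑m.factorial * (10000 * ↑B) * (↑N ^ m * 48 ^ m)) := by
        field_simp
      rw [h5, hpow]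
      field_simp
    rw [h4, he, le_div_iff₀ (by positivity)]
    refine le_trans (le_of_eq ?_) hcond
    ring
  have hl1 : 4 * (B : ℝ) / e ≤ (r1.choose m : ℝ) * ((s0 : ℝ) * A.card / ((N : ℝ) * (48 : ℕ)) ^ m) := by
    refine hl (5519 / 10000) r1 A.card (by norm_num) ?_ ?_
    · push_cast at hr1lo
      exact hr1lo
    · have h1 : (m.factorial : ℝ) ≤ (A.card : ℝ) * (t.factorial : ℝ) ^ 32 := by exact_mod_cast hTA
      have h2 : 2 * 10 ^ 8 * (B : ℝ) ^ 2 * (m.factorial : ℝ)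
          ≤ (2 * 10 ^ 8 * (B : ℝ) ^ 2 * (t.factorial : ℝ) ^ 32) * A.card := by
        calc 2 * 10 ^ 8 * (B : ℝ) ^ 2 * (m.factorial : ℝ)
            ≤ 2 * 10 ^ 8 * (B : ℝ) ^ 2 * ((A.card : ℝ) * (t.factorial : ℝ) ^ 32) := by gcongr
          _ = _ := by ring
      refine h2.trans ?_
      gcongr
  have hl2 : 4 * (B : ℝ) / e ≤ (r2.choose m : ℝ) * ((s0 : ℝ) * (P ^ t : ℕ) / ((N : ℝ) * (48 : ℕ)) ^ m) := by
    refine hl (8233 / 10000) r2 (P ^ t) (by norm_num) ?_ ?_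
    · push_cast at hr2lo
      exact hr2lo
    · push_cast
      exact hc2
  have hmain := two_stage (m := m) (N := N) (Q := 48) hm0 hN0 (by norm_num) A (P ^ t)
    hTA1 hTA2 (r1 := r1) (r2 := r2) (B := B) (W1 := W1) (W2 := W2) (s0 := s0) (s1 := s1)
    (s2 := s2) hr1pos hr2pos hB0 e he0 he1 hBe hW1lo hW2lo hr1q hr2q hl1 hl2 hs2lo
  obtain ⟨n, hn⟩ : ∃ n, n = s1 * W1 + s2 * W2 := ⟨_, rfl⟩
  rw [← hn] at hmain
  -- lower bound of X
  have hBN : (B : ℝ) ≤ N / 10000 := by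
    rw [le_div_iff₀ (by norm_num)]
    linarith
  have hX : (2997 / 1000 : ℝ) * N ≤ ((3 - 2 * e) * ((1 - e) * min ((s1 : ℝ) * B)
      ((N : ℝ) - B * s0 - B)) - (B * s0 + B)) := by
    have h1 : (N : ℝ) * (9997 / 10000) ≤ min ((s1 : ℝ) * B) ((N : ℝ) - B * s0 - B) := by
      refine le_min ?_ ?_
      · linarith
      · linarith
    have h2 : (3 - 2 * e) * ((1 - e) * ((N : ℝ) * (9997 / 10000)))
        ≤ (3 - 2 * e) * ((1 - e) * min ((s1 : ℝ) * B) ((N : ℝ) - B * s0 - B)) := by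
      have h3 : (0 : ℝ) ≤ 3 - 2 * e := by linarith
      have h4 : (0 : ℝ) ≤ 1 - e := by linarith
      exact mul_le_mul_of_nonneg_left (mul_le_mul_of_nonneg_left h1 h4) h3
    have h5 : (2998 / 1000 : ℝ) * N ≤ (3 - 2 * e) * ((1 - e) * ((N : ℝ) * (9997 / 10000))) := by
      rw [he]
      linarith
    linarith
  -- upper bound of n
  have hnup : (n : ℝ) ≤ 22 / 10 * (N * Y) := by
    have h1 : (n : ℝ) = s1 * W1 + s2 * W2 := by rw [hn]; push_cast; rfl
    have hr1m : (r1 : ℝ) / m ≤ 5519 / 10000 * Y + 2 := by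
      rw [div_le_iff₀ hmr]
      push_cast at hr1up
      linarith
    have hr2m : (r2 : ℝ) / m ≤ 8233 / 10000 * Y + 2 := by
      rw [div_le_iff₀ hmr]
      push_cast at hr2up
      linarith
    have hw1 : (W1 : ℝ) ≤ (1 + e) * B * (5519 / 10000 * Y + 2) + 1 := by
      refine hW1up.trans ?_
      gcongr
    have hw2 : (W2 : ℝ) ≤ (1 + e) * B * (8233 / 10000 * Y + 2) + 1 := by
      refine hW2up.trans ?_
      gcongr
    have hB1 : (1 : ℝ) ≤ B := by exact_mod_cast hB0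
    have hs1' : (s1 : ℝ) ≤ N :=
      (le_mul_of_one_le_right (Nat.cast_nonneg _) hB1).trans hs1up
    have hs2' : (s2 : ℝ) ≤ 3 * N := by
      have := (le_mul_of_one_le_right (Nat.cast_nonneg s2) hB1).trans hs2up
      linarith
    have h2 : (s1 : ℝ) * W1 ≤ (1 + e) * N * (5519 / 10000 * Y + 2) + N := by
      calc (s1 : ℝ) * W1 ≤ s1 * ((1 + e) * B * (5519 / 10000 * Y + 2) + 1) := by gcongr
        _ = (1 + e) * (s1 * B) * (5519 / 10000 * Y + 2) + s1 := by ring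
        _ ≤ (1 + e) * N * (5519 / 10000 * Y + 2) + N := by gcongr
    have h3 : (s2 : ℝ) * W2 ≤ (1 + e) * (2 * N + B) * (8233 / 10000 * Y + 2) + 3 * N := by
      calc (s2 : ℝ) * W2 ≤ s2 * ((1 + e) * B * (8233 / 10000 * Y + 2) + 1) := by gcongr
        _ = (1 + e) * (s2 * B) * (8233 / 10000 * Y + 2) + s2 := by ring
        _ ≤ (1 + e) * (2 * N + B) * (8233 / 10000 * Y + 2) + 3 * N := by gcongr
    have hY0 : (0 : ℝ) ≤ Y := by linarith
    have hBY : (B : ℝ) * Y ≤ N / 10000 := by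
      rw [hNYr, le_div_iff₀ (by norm_num)]
      have := mul_le_mul_of_nonneg_right hTbig2 hY0
      linarith
    have hNY2 : 20000 * (N : ℝ) ≤ N * Y := by
      have : (20000 : ℝ) ≤ Y := hTbig1.trans hTYr
      have := mul_le_mul_of_nonneg_left this hNr.le
      linarith
    rw [h1]
    rw [he] at h2 h3
    have h4 : (1 + 1 / 5000 : ℝ) * N * (5519 / 10000 * Y + 2) + N
        = (1 + 1 / 5000) * (5519 / 10000) * (N * Y) + ((1 + 1 / 5000) * 2 + 1) * N := by ring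
    have h5 : (1 + 1 / 5000 : ℝ) * (2 * N + B) * (8233 / 10000 * Y + 2) + 3 * N
        = (1 + 1 / 5000) * 2 * (8233 / 10000) * (N * Y) + (1 + 1 / 5000) * (8233 / 10000) * (B * Y)
          + (1 + 1 / 5000) * 2 * (2 * N + B) + 3 * N := by ring
    rw [h4] at h2
    rw [h5] at h3
    have hNY0 : 0 < (N : ℝ) * Y := by positivity
    linarith
  -- n is large
  have hnlow : n0 ≤ n := by
    have h1 : 1 ≤ W1 := by
      rw [hW1]
      rw [Nat.one_le_ceil_iff]
      have : (0 : ℝ) < r1 := by exact_mod_cast hr1pos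
      positivity
    have h2 : n0 ≤ s1 := by
      rw [hs1, Nat.le_div_iff_mul_le hB0]
      have h3 : n0 * B ≤ 10000 * B * (n0 + 2) := by
        have : n0 * B ≤ (10000 * (n0 + 2)) * B := Nat.mul_le_mul_right _ (by omega)
        calc n0 * B ≤ (10000 * (n0 + 2)) * B := this
          _ = 10000 * B * (n0 + 2) := by ring
      omega
    calc n0 ≤ s1 := h2
      _ ≤ s1 * W1 := Nat.le_mul_of_pos_right _ h1
      _ ≤ n := by rw [hn]; exact Nat.le_add_right _ _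
  have hnpos : 0 < n := by
    rcases Nat.eq_zero_or_pos n with h | h
    · exfalso
      have h1 : 1 ≤ W1 := by
        rw [hW1]
        rw [Nat.one_le_ceil_iff]
        have : (0 : ℝ) < r1 := by exact_mod_cast hr1pos
        positivity
      have h2 : 1 ≤ s1 := by
        rw [hs1, Nat.le_div_iff_mul_le hB0]
        have h3 : 1 * B ≤ 10000 * B * (n0 + 2) := by
          have : 1 * B ≤ (10000 * (n0 + 2)) * B := Nat.mul_le_mul_right _ (by omega)
          calc 1 * B ≤ (10000 * (n0 + 2)) * B := this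
            _ = 10000 * B * (n0 + 2) := by ring
        omega
      have h3 : 1 ≤ s1 * W1 := Nat.mul_pos h2 h1
      omega
    · exact h
  refine ⟨n, hnlow, ?_⟩
  have hnr : (0 : ℝ) < n := by exact_mod_cast hnpos
  set α : ℝ := (m : ℝ) / (2 * (m : ℝ) - 1) with hα
  have h2m : (0 : ℝ) < 2 * (m : ℝ) - 1 := by linarith
  have hα1 : α ≤ 101 / 200 := by
    rw [hα, div_le_div_iff₀ h2m (by norm_num)]
    linarith
  have hα0 : 0 ≤ α := by rw [hα]; positivity
  have hpowα : (n : ℝ) ^ α ≤ 14892 / 10000 * N := by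
    have h1 : (n : ℝ) ^ α ≤ (22 / 10 * (N * Y)) ^ α := Real.rpow_le_rpow hnr.le hnup hα0
    have h2 : ((22 / 10 : ℝ) * (N * Y)) ^ α = (22 / 10 : ℝ) ^ α * ((N : ℝ) * Y) ^ α :=
      Real.mul_rpow (by norm_num) (by positivity)
    have h3 : ((N : ℝ) * Y) ^ α = N := by
      have h4 : (N : ℝ) * Y = (T : ℝ) ^ (2 * (m : ℝ) - 1) := by
        have h5 : (2 * (m : ℝ) - 1) = ((m + m' : ℕ) : ℝ) := by
          rw [hm']
          push_cast
          ring
        rw [h5, Real.rpow_natCast, pow_add, hN, hY]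
        push_cast
        rfl
      rw [h4, ← Real.rpow_mul hTr.le, hα, mul_div_cancel₀ _ h2m.ne', Real.rpow_natCast, hN]
      push_cast
      rfl
    rw [h2, h3] at h1
    have h6 := rpow_22 α hα1
    refine h1.trans ?_
    gcongr
  have hαpos : 0 < (n : ℝ) ^ α := Real.rpow_pos_of_pos hnr _
  have hfacpos : 0 < (n.factorial : ℝ) ^ m := by
    have : (0 : ℝ) < (n.factorial : ℝ) := by exact_mod_cast Nat.factorial_pos n
    positivity
  rw [le_div_iff₀ hαpos, le_div_iff₀ hfacpos]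
  have h7 : (2997 / 1000 : ℝ) * N * (n.factorial : ℝ) ^ m
      ≤ ∑ π : Fin m → Equiv.Perm (Fin n), (LP π : ℝ) := by
    refine le_trans ?_ hmain
    gcongr
  refine le_trans ?_ h7
  have h8 : (201 / 100 : ℝ) * (n : ℝ) ^ α ≤ 2997 / 1000 * N := by
    have := mul_le_mul_of_nonneg_left hpowα (by norm_num : (0 : ℝ) ≤ 201 / 100)
    refine this.trans ?_
    linarith
  gcongr

end Pool.Agent.H143R3
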