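import Pool.Agent.H143R3.Stage

set_option autoImplicit false

namespace Pool.Agent.H143R3

open Finset

section Gap

variable {m : ℕ} {Λ Γ β : Type*} [Fintype Λ] [DecidableEq Λ] [DecidableEq Γ] [DecidableEq β]

/-- A family of gap sets: the letter vectors of a gap lie in one cube, different gaps are
separated in every coordinate, and every gap has at least `μ` letter vectors. -/
structure GapFam (κ : Λ → β) (C : Γ → Finset (Fin m → Λ)) (μ : ℕ) : Prop where
  cube : ∀ g, ∃ b, ∀ v ∈ C g, ∀ j, κ (v j) = b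
  sep : ∀ g g', g ≠ g' → ∀ u ∈ C g, ∀ v ∈ C g', ∀ j, u j ≠ v j
  big : ∀ g, μ ≤ (C g).card

lemma hQ_of {κ : Λ → β} {Q : ℕ} (hκ : ∀ b, (univ.filter (fun l => κ l = b)).card ≤ Q)
    (D : Finset (Fin m → Λ)) (hD : ∀ v ∈ D, ∀ j j', κ (v j) = κ (v j'))
    (u : Fin m → Λ) (S : Finset (Fin m)) (hS : S.Nonempty) :
    (D.filter (fun v => ∀ j ∈ S, u j = v j)).card ≤ Q ^ (m - S.card) := by
  obtain ⟨j0, hj0⟩ := hS
  have hsub : D.filter (fun v => ∀ j ∈ S, u j = v j) ⊆ Fintype.piFinset
      (fun j => if j ∈ S then ({u j} : Finset Λ) else univ.filter (fun l => κ l = κ (u j0))) := by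
    intro v hv
    rw [mem_filter] at hv
    rw [Fintype.mem_piFinset]
    intro j
    by_cases hj : j ∈ S
    · simp [hj, hv.2 j hj]
    · simp only [hj, if_false, mem_filter, mem_univ, true_and]
      rw [hD v hv.1 j j0, ← hv.2 j0 hj0]
  refine (Finset.card_le_card hsub).trans ?_
  rw [Fintype.card_piFinset]
  have h1 : ∀ j, (if j ∈ S then ({u j} : Finset Λ) else univ.filter (fun l => κ l = κ (u j0))).card
      ≤ if j ∈ S then 1 else Q := by
    intro j
    by_cases hj : j ∈ S
    · simp [hj]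
    · simp only [hj, if_false]
      exact hκ _
  refine (Finset.prod_le_prod (fun j _ => Nat.zero_le _) (fun j _ => h1 j)).trans ?_
  rw [Finset.prod_ite, Finset.prod_const_one, one_mul, Finset.prod_const]
  have h7 : univ.filter (fun j => j ∉ S) = univ \ S := by
    ext j
    simp
  rw [h7, Finset.card_sdiff_of_subset (Finset.subset_univ S), Finset.card_univ,
          Fintype.card_fin]

open Classical in
/-- The block lemma: for most words of one block length a chain of `B` tuples with distinct gaps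
exists. -/
theorem block_ach {κ : Λ → β} {C : Γ → Finset (Fin m → Λ)} {μ : ℕ} (hC : GapFam κ C μ)
    {Q : ℕ} (hκ : ∀ b, (univ.filter (fun l => κ l = b)).card ≤ Q)
    (hL : 0 < Fintype.card Λ) (hm : 0 < m) {r B W s0 : ℕ} (hr : 0 < r) (hB : 0 < B)
    (e : ℝ) (he0 : 0 < e) (he1 : e ≤ 1)
    (hBe : 2 * (m : ℝ) ^ 3 ≤ e ^ 3 * B)
    (hW : (1 + e) * B * (r / m) ≤ W)
    (hrq : (1 + r * (Q / (Fintype.card Λ : ℝ))) ^ m ≤ 2)
    (hl : 4 * (B : ℝ) / e ≤ ((R m r).card : ℝ) * ((s0 : ℝ) * μ / (Fintype.card Λ : ℝ) ^ m))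
    (G : Finset Γ) (hG : B * s0 ≤ G.card) :
    (1 - e) * (Fintype.card (Fin m → Λ) : ℝ) ^ W
        ≤ ((univ.filter (fun u : Fin W → Fin m → Λ => Ach C G u B)).card : ℝ) := by
  have hLr : (0 : ℝ) < (Fintype.card Λ : ℝ) := by exact_mod_cast hL
  have hBr : (0 : ℝ) < (B : ℝ) := by exact_mod_cast hB
  have hmr : (0 : ℝ) < (m : ℝ) := by exact_mod_cast hm
  have hrr : (0 : ℝ) < (r : ℝ) := by exact_mod_cast hr
  have hWpos : (0 : ℝ) < W := lt_of_lt_of_le (by positivity) hW
  have hW0 : W ≠ 0 := by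
    intro h
    rw [h] at hWpos
    simp at hWpos
  have : NeZero W := ⟨hW0⟩
  have hlpos : 0 < ((R m r).card : ℝ) * ((s0 : ℝ) * μ / (Fintype.card Λ : ℝ) ^ m) :=
    lt_of_lt_of_le (by positivity) hl
  have hRpos : 0 < (R m r).card := by
    rcases Nat.eq_zero_or_pos (R m r).card with h | h
    · rw [h] at hlpos
      simp at hlpos
    · exact h
  have hs0 : 0 < s0 := by
    rcases Nat.eq_zero_or_pos s0 with h | h
    · rw [h] at hlpos
      simp at hlpos
    · exact h
  have hμ : 0 < μ := by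
    rcases Nat.eq_zero_or_pos μ with h | h
    · rw [h] at hlpos
      simp at hlpos
    · exact h
  -- choose classes
  have hemb : Nonempty (Fin B × Fin s0 ↪ G) := by
    apply Function.Embedding.nonempty_of_card_le
    simpa using hG
  obtain ⟨φ⟩ := hemb
  have hφ : ∀ p q, (φ p : Γ) = φ q → p = q := fun p q h => φ.injective (Subtype.ext h)
  let D : Fin B → Finset (Fin m → Λ) := fun i => univ.biUnion (fun k : Fin s0 => C (φ (i, k)))
  have hDmem : ∀ i v, v ∈ D i ↔ ∃ k, v ∈ C (φ (i, k)) := by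
    intro i v
    simp [D]
  have hsep : ∀ i i', i ≠ i' → ∀ u ∈ D i, ∀ v ∈ D i', ∀ j, u j ≠ v j := by
    intro i i' hii u hu v hv j
    rw [hDmem] at hu hv
    obtain ⟨k, hk⟩ := hu
    obtain ⟨k', hk'⟩ := hv
    refine hC.sep _ _ ?_ u hk v hk' j
    intro h
    have := hφ _ _ h
    simp only [Prod.mk.injEq] at this
    exact hii this.1
  have hDcube : ∀ i, ∀ v ∈ D i, ∀ j j', κ (v j) = κ (v j') := by
    intro i v hv j j'
    rw [hDmem] at hv
    obtain ⟨k, hk⟩ := hv
    obtain ⟨b, hb⟩ := hC.cube (φ (i, k))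
    rw [hb v hk j, hb v hk j']
  have hDcard : ∀ i, s0 * μ ≤ (D i).card := by
    intro i
    have h1 : (D i).card = ∑ k : Fin s0, (C (φ (i, k))).card := by
      simp only [D]
      rw [Finset.card_biUnion]
      intro k _ k' _ hkk
      rw [Function.onFun, Finset.disjoint_left]
      intro v hv hv'
      refine hC.sep (φ (i, k)) (φ (i, k')) ?_ v hv v hv' ⟨0, hm⟩ rfl
      intro h
      have := hφ _ _ h
      simp only [Prod.mk.injEq] at this
      exact hkk this.2
    rw [h1]
    calc s0 * μ = ∑ _k : Fin s0, μ := by simp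
      _ ≤ _ := Finset.sum_le_sum (fun k _ => hC.big _)
  have hDpos : ∀ i, 0 < (D i).card := fun i => lt_of_lt_of_le (Nat.mul_pos hs0 hμ) (hDcard i)
  have hmain := block_words (m := m) (r := r) (B := B) (W := W) D Q hL hsep
    (fun i u _ S hS => hQ_of hκ (D i) (hDcube i) u S hS) hDpos hRpos
  have hsub : (univ.filter (fun w : Fin W → Fin m → Λ =>
          ∃ E ∈ Good m r B W, w ∈ Ev D (xD E))) ⊆
      (univ.filter (fun u : Fin W → Fin m → Λ => Ach C G u B)) := by
    intro w hw
    rw [mem_filter] at hw ⊢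
    obtain ⟨_, E, hE, hwE⟩ := hw
    refine ⟨mem_univ _, ?_⟩
    unfold Ev at hwE
    rw [mem_filter] at hwE
    have h1 : ∀ i, ∃ k, wv (xD E) w i ∈ C (φ (i, k)) := fun i => (hDmem i _).1 (hwE.2 i)
    choose k hk using h1
    refine ⟨xD E, fun i => φ (i, k i), fun j => xD_strictMono hE j, ?_, ?_, ?_⟩
    · intro i i' h
      have := hφ _ _ h
      simp only [Prod.mk.injEq] at this
      exact this.1
    · intro i
      exact (φ (i, k i)).2
    · intro i
      exact hk i
  have hcard : ((univ.filter (fun w : Fin W → Fin m → Λ =>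
          ∃ E ∈ Good m r B W, w ∈ Ev D (xD E))).card : ℝ) ≤
      ((univ.filter (fun u : Fin W → Fin m → Λ => Ach C G u B)).card : ℝ) := by
    exact_mod_cast Finset.card_le_card hsub
  refine le_trans ?_ (hmain.trans hcard)
  set L : ℝ := (Fintype.card Λ : ℝ) with hLdef
  have hgood := good_card (m := m) (r := r) (B := B) (W := W) hm hr e he0 hB hBe hW
  have hcV : (Fintype.card (Fin m → Λ) : ℝ) ^ W = L ^ (W * m) := by
    rw [Fintype.card_pi, Finset.prod_const, Finset.card_univ, Fintype.card_fin]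
    push_cast
    rw [← pow_mul, mul_comm m W]
  rw [hcV]
  set a : ℝ := (1 + r * (Q / L)) ^ m with ha
  have ha0 : 0 ≤ a := by
    have : 0 ≤ 1 + r * (Q / L) := by positivity
    positivity
  have hRr : (0 : ℝ) < ((R m r).card : ℝ) := by exact_mod_cast hRpos
  -- factors
  have hfac : ∀ i, (1 - e / (2 * B)) / ((R m r).card : ℝ) ≤ (((D i).card : ℝ) / L ^ m) /
      (((R m r).card : ℝ) * (((D i).card : ℝ) / L ^ m) + a) := by
    intro i
    set p : ℝ := ((D i).card : ℝ) / L ^ m with hp
    have hDp : (0 : ℝ) < ((D i).card : ℝ) := by exact_mod_cast hDpos i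
    have hp0 : 0 < p := by positivity
    have hpl : 4 * (B : ℝ) / e ≤ ((R m r).card : ℝ) * p := by
      refine hl.trans ?_
      refine mul_le_mul_of_nonneg_left ?_ hRr.le
      rw [hp]
      refine div_le_div_of_nonneg_right ?_ (by positivity)
      exact_mod_cast hDcard i
    rw [div_le_div_iff₀ hRr (by positivity)]
    have h1 : a ≤ 2 := hrq
    have h2 : 4 * (B : ℝ) ≤ e * (((R m r).card : ℝ) * p) := by
      rw [div_le_iff₀ he0] at hpl
      linarith
    have h3 : (1 - e / (2 * B)) * (((R m r).card : ℝ) * p + a)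
        = p * ((R m r).card : ℝ) + (a - (e / (2 * B)) * (((R m r).card : ℝ) * p) - (e / (2 * B)) * a) := by
      ring
    rw [h3]
    have h4 : 2 ≤ (e / (2 * B)) * (((R m r).card : ℝ) * p) := by
      rw [div_mul_eq_mul_div, le_div_iff₀ (by positivity)]
      linarith
    have h5 : 0 ≤ (e / (2 * B)) * a := by positivity
    linarith
  have hpos1 : 0 ≤ 1 - e / (2 * B) := by
    have hB1 : (1 : ℝ) ≤ B := by exact_mod_cast hB
    have : e / (2 * B) ≤ 1 := by
      rw [div_le_one (by positivity)]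
      linarith
    linarith
  have hprod : ((1 - e / (2 * B)) / ((R m r).card : ℝ)) ^ B ≤ ∏ i, ((((D i).card : ℝ) / L ^ m) /
      (((R m r).card : ℝ) * (((D i).card : ℝ) / L ^ m) + a)) := by
    calc ((1 - e / (2 * B)) / ((R m r).card : ℝ)) ^ B
        = ∏ _i : Fin B, ((1 - e / (2 * B)) / ((R m r).card : ℝ)) := by
          rw [Finset.prod_const, Finset.card_univ, Fintype.card_fin]
      _ ≤ _ := Finset.prod_le_prod (fun i _ => div_nonneg hpos1 hRr.le) (fun i _ => hfac i)
  have hbern : 1 - e / 2 ≤ (1 - e / (2 * B)) ^ B := by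
    have h1 := one_add_mul_le_pow (a := -(e / (2 * B))) (by linarith) B
    have h2 : 1 + (B : ℝ) * -(e / (2 * B)) = 1 - e / 2 := by
      field_simp
      ring
    rw [h2] at h1
    have h3 : (1 : ℝ) + -(e / (2 * B)) = 1 - e / (2 * B) := by ring
    rwa [h3] at h1
  have hGnn : (0 : ℝ) ≤ ((Good m r B W).card : ℝ) := Nat.cast_nonneg _
  have hLp : (0 : ℝ) < L ^ (W * m) := by positivity
  calc (1 - e) * L ^ (W * m)
      ≤ ((1 - e / 2) * (1 - e / 2)) * L ^ (W * m) := by
        refine mul_le_mul_of_nonneg_right ?_ hLp.le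
        nlinarith [sq_nonneg e]
    _ ≤ ((1 - e / 2) * (1 - e / (2 * B)) ^ B) * L ^ (W * m) := by
        refine mul_le_mul_of_nonneg_right ?_ hLp.le
        refine mul_le_mul_of_nonneg_left hbern ?_
        linarith
    _ = ((1 - e / 2) * ((R m r).card : ℝ) ^ B) * L ^ (W * m) *
          ((1 - e / (2 * B)) / ((R m r).card : ℝ)) ^ B := by
        rw [div_pow]
        field_simp
    _ ≤ ((Good m r B W).card : ℝ) * L ^ (W * m) *
          ((1 - e / (2 * B)) / ((R m r).card : ℝ)) ^ B := by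
        refine mul_le_mul_of_nonneg_right ?_ ?_
        · exact mul_le_mul_of_nonneg_right hgood hLp.le
        · exact pow_nonneg (div_nonneg hpos1 hRr.le) _
    _ ≤ _ := by
        refine mul_le_mul_of_nonneg_left hprod ?_
        exact mul_nonneg hGnn hLp.le

end Gap

end Pool.Agent.H143R3
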