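import Mathlib

set_option autoImplicit false

namespace Pool.Agent.H143R3

open Finset

/-- longest common pattern length of a family of permutations -/
noncomputable def LP {m n : ℕ} (π : Fin m → Equiv.Perm (Fin n)) : ℕ :=
  sSup {k : ℕ | ∃ σ : Equiv.Perm (Fin k), ∀ i : Fin m, ∃ e : Fin k ↪o Fin n,
          ∀ a b : Fin k, σ a < σ b ↔ π i (e a) < π i (e b)}

section W

variable {m n : ℕ} {Λ : Type*} [LinearOrder Λ]

/-- `k` tuples, increasing in all position coordinates, pairwise strictly comparable in letters -/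
def AchW (w : Fin n → Fin m → Λ) (k : ℕ) : Prop :=
  ∃ x : Fin k → Fin m → Fin n, (∀ j, StrictMono (fun t => x t j)) ∧
    ∀ s t, s ≠ t → (∀ j, w (x s j) j < w (x t j) j) ∨ (∀ j, w (x t j) j < w (x s j) j)

/-- the largest such `k` -/
noncomputable def ValW (w : Fin n → Fin m → Λ) : ℕ := sSup {k | AchW w k}

lemma achW_zero (w : Fin n → Fin m → Λ) : AchW w 0 :=
  ⟨fun t => t.elim0, fun _ t => t.elim0, fun s => s.elim0⟩

lemma achW_le (hm : 0 < m) {w : Fin n → Fin m → Λ} {k : ℕ} (h : AchW w k) : k ≤ n := by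
  obtain ⟨x, hx, _⟩ := h
  have := Fintype.card_le_of_injective _ (hx ⟨0, hm⟩).injective
  simpa using this

lemma le_ValW (hm : 0 < m) {w : Fin n → Fin m → Λ} {k : ℕ} (h : AchW w k) : k ≤ ValW w :=
  le_csSup ⟨n, fun _ hk => achW_le hm hk⟩ h

lemma achW_ValW (hm : 0 < m) (w : Fin n → Fin m → Λ) : AchW w (ValW w) :=
  Nat.sSup_mem ⟨0, achW_zero w⟩ ⟨n, fun _ hk => achW_le hm hk⟩

lemma LP_bdd (hm : 0 < m) (π : Fin m → Equiv.Perm (Fin n)) :
    BddAbove {k : ℕ | ∃ σ : Equiv.Perm (Fin k), ∀ i : Fin m, ∃ e : Fin k ↪o Fin n,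
          ∀ a b : Fin k, σ a < σ b ↔ π i (e a) < π i (e b)} := by
  refine ⟨n, ?_⟩
  rintro k ⟨σ, h⟩
  obtain ⟨e, _⟩ := h ⟨0, hm⟩
  have := Fintype.card_le_of_injective _ e.injective
  simpa using this

lemma ValW_le_LP (hm : 0 < m) (w : Fin n → Fin m → Λ) (π : Fin m → Equiv.Perm (Fin n))
    (hπ : ∀ i p q, w p i < w q i → π i p < π i q) : ValW w ≤ LP π := by
  obtain ⟨x, hx, hc⟩ := achW_ValW hm w
  refine le_csSup (LP_bdd hm π) ?_
  let r : Fin (ValW w) → Fin n := fun t => π ⟨0, hm⟩ (x t ⟨0, hm⟩)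
  have hr : Function.Injective r := by
    intro a b h
    exact (hx ⟨0, hm⟩).injective ((π ⟨0, hm⟩).injective h)
  have hmono : StrictMono (r ∘ Tuple.sort r) :=
    (Tuple.monotone_sort r).strictMono_of_injective (hr.comp (Tuple.sort r).injective)
  refine ⟨(Tuple.sort r)⁻¹, fun i => ⟨OrderEmbedding.ofStrictMono _ (hx i), fun a b => ?_⟩⟩
  have h1 : (Tuple.sort r)⁻¹ a < (Tuple.sort r)⁻¹ b ↔ r a < r b := by
    rw [← hmono.lt_iff_lt]
    simp
  rw [h1]
  simp only [OrderEmbedding.coe_ofStrictMono, r]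
  by_cases hab : a = b
  · subst hab
    simp
  · rcases hc a b hab with h | h
    · exact ⟨fun _ => hπ _ _ _ (h i), fun _ => hπ _ _ _ (h _)⟩
    · constructor
      · intro h2
        exact absurd h2 (not_lt.2 (hπ _ _ _ (h _)).le)
      · intro h2
        exact absurd h2 (not_lt.2 (hπ _ _ _ (h i)).le)

variable [Fintype Λ]

/-- averaging over words is at most averaging over permutations -/
theorem words_le_perms (hm : 0 < m) :
    ((n.factorial : ℝ) ^ m) * ∑ w : Fin n → Fin m → Λ, (ValW w : ℝ)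
      ≤ (Fintype.card (Fin m → Λ) : ℝ) ^ n * ∑ π : Fin m → Equiv.Perm (Fin n), (LP π : ℝ) := by
  classical
  have h1 : ∀ τ : Fin m → Equiv.Perm (Fin n), ∑ w : Fin n → Fin m → Λ, (ValW w : ℝ)
      = ∑ w : Fin n → Fin m → Λ, (ValW (fun p j => w (τ j p) j) : ℝ) := by
    intro τ
    let E : (Fin n → Fin m → Λ) ≃ (Fin n → Fin m → Λ) :=
      { toFun := fun w p j => w (τ j p) j
        invFun := fun w p j => w ((τ j).symm p) j
        left_inv := fun w => by
          funext p j
          simp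
        right_inv := fun w => by
          funext p j
          simp }
    exact (Equiv.sum_comp E (fun w => (ValW w : ℝ))).symm
  have h2 : ∑ _τ : Fin m → Equiv.Perm (Fin n), ∑ w : Fin n → Fin m → Λ, (ValW w : ℝ)
      = ((n.factorial : ℝ) ^ m) * ∑ w : Fin n → Fin m → Λ, (ValW w : ℝ) := by
    rw [Finset.sum_const, Finset.card_univ, nsmul_eq_mul]
    congr 1
    rw [Fintype.card_pi, Finset.prod_const, Finset.card_univ, Fintype.card_fin,
      Fintype.card_perm, Fintype.card_fin]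
    push_cast
    rfl
  rw [← h2, Finset.sum_congr rfl (fun τ _ => h1 τ), Finset.sum_comm]
  have h3 : ∀ w : Fin n → Fin m → Λ, ∑ τ : Fin m → Equiv.Perm (Fin n),
      (ValW (fun p j => w (τ j p) j) : ℝ) ≤ ∑ π : Fin m → Equiv.Perm (Fin n), (LP π : ℝ) := by
    intro w
    let ρ : Fin m → Equiv.Perm (Fin n) := fun j => (Tuple.sort (fun p => w p j))⁻¹
    have hρ : ∀ j p q, w p j < w q j → ρ j p < ρ j q := by
      intro j p q h
      by_contra h4
      rw [not_lt] at h4
      have h5 := Tuple.monotone_sort (fun p => w p j) h4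
      simp only [Function.comp_apply, ρ] at h5
      have h6 : ∀ p, Tuple.sort (fun p => w p j) ((Tuple.sort (fun p => w p j))⁻¹ p) = p := by
        intro p
        simp
      rw [h6, h6] at h5
      exact absurd h (not_lt.2 h5)
    have h7 : ∑ π : Fin m → Equiv.Perm (Fin n), (LP π : ℝ)
        = ∑ τ : Fin m → Equiv.Perm (Fin n), (LP (ρ * τ) : ℝ) :=
      (Equiv.sum_comp (Equiv.mulLeft ρ) (fun π => (LP π : ℝ))).symm
    rw [h7]
    refine Finset.sum_le_sum (fun τ _ => ?_)
    have h8 := ValW_le_LP hm (fun p j => w (τ j p) j) (ρ * τ) (fun i p q h => hρ i _ _ h)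
    exact_mod_cast h8
  refine (Finset.sum_le_sum (fun w _ => h3 w)).trans (le_of_eq ?_)
  rw [Finset.sum_const, Finset.card_univ, nsmul_eq_mul]
  congr 1
  rw [Fintype.card_pi, Finset.prod_const, Finset.card_univ, Fintype.card_fin]
  push_cast
  rfl

end W

end Pool.Agent.H143R3
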