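import Pool.Agent.H143R3.Gap
import Pool.Agent.H143R3.PermWord

set_option autoImplicit false

namespace Pool.Agent.H143R3

open Finset

section Two

variable {m N Q : ℕ}

/-- cube index of a letter -/
def kap (l : Fin N ×ₗ Fin Q) : Fin N := (ofLex l).1

lemma kap_fiber (b : Fin N) :
    (univ.filter (fun l : Fin N ×ₗ Fin Q => kap l = b)).card ≤ Q := by
  have h1 : (univ.filter (fun l : Fin N ×ₗ Fin Q => kap l = b))
      ⊆ (univ : Finset (Fin Q)).image (fun q => toLex (b, q)) := by
    intro l hl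
    rw [mem_filter] at hl
    rw [mem_image]
    refine ⟨(ofLex l).2, mem_univ _, ?_⟩
    have h2 : (ofLex l).1 = b := hl.2
    rw [← h2]
    rfl
  refine (Finset.card_le_card h1).trans (Finset.card_image_le.trans ?_)
  simp

lemma card_letters : Fintype.card (Fin N ×ₗ Fin Q) = N * Q := by
  have : Fintype.card (Fin N ×ₗ Fin Q) = Fintype.card (Fin N × Fin Q) :=
    Fintype.card_congr ofLex
  rw [this]
  simp

/-- first stage gap sets -/
def C1 (A : Finset (Fin m → Fin Q)) (b : Fin N) : Finset (Fin m → Fin N ×ₗ Fin Q) :=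
  A.image (fun q j => toLex (b, q j))

lemma gap1 (A : Finset (Fin m → Fin Q)) :
    GapFam (kap (N := N) (Q := Q)) (C1 (N := N) A) A.card := by
  refine ⟨?_, ?_, ?_⟩
  · intro b
    refine ⟨b, ?_⟩
    intro v hv j
    unfold C1 at hv
    rw [mem_image] at hv
    obtain ⟨q, _, rfl⟩ := hv
    rfl
  · intro b b' hb u hu v hv j h
    unfold C1 at hu hv
    rw [mem_image] at hu hv
    obtain ⟨q, _, rfl⟩ := hu
    obtain ⟨q', _, rfl⟩ := hv
    have h1 : kap (toLex (b, q j)) = kap (toLex (b', q' j)) := congrArg kap h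
    exact hb h1
  · intro b
    unfold C1
    rw [Finset.card_image_of_injective]
    intro q q' h
    funext j
    have h1 := congrFun h j
    have h2 : (ofLex (toLex (b, q j))).2 = (ofLex (toLex (b, q' j))).2 := congrArg (fun l => (ofLex l).2) h1
    exact h2

/-- second stage gap sets: below or above the first letter vector of a cube -/
def C2 {k : ℕ} (b : Fin k → Fin N) (q : Fin k → Fin m → Fin Q) (p : Fin k × Bool) :
    Finset (Fin m → Fin N ×ₗ Fin Q) :=
  Fintype.piFinset (fun j =>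
    (if p.2 then Finset.Ioi (q p.1 j) else Finset.Iio (q p.1 j)).image
      (fun q' => toLex (b p.1, q')))

lemma mem_C2 {k : ℕ} {b : Fin k → Fin N} {q : Fin k → Fin m → Fin Q} {p : Fin k × Bool}
    {v : Fin m → Fin N ×ₗ Fin Q} : v ∈ C2 b q p ↔
      ∀ j, ∃ q', q' ∈ (if p.2 then Finset.Ioi (q p.1 j) else Finset.Iio (q p.1 j)) ∧
        toLex (b p.1, q') = v j := by
  unfold C2
  simp only [Fintype.mem_piFinset, mem_image]

lemma gap2 {k : ℕ} (b : Fin k → Fin N) (hb : Function.Injective b) (q : Fin k → Fin m → Fin Q)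
    (μ : ℕ) (hμ1 : ∀ t, μ ≤ ∏ j, (q t j : ℕ)) (hμ2 : ∀ t, μ ≤ ∏ j, (Q - 1 - (q t j : ℕ))) :
    GapFam (kap (N := N) (Q := Q)) (C2 b q) μ := by
  refine ⟨?_, ?_, ?_⟩
  · intro p
    refine ⟨b p.1, ?_⟩
    intro v hv j
    rw [mem_C2] at hv
    obtain ⟨q', _, h⟩ := hv j
    rw [← h]
    rfl
  · intro p p' hp u hu v hv j h
    rw [mem_C2] at hu hv
    obtain ⟨q1, h1, h2⟩ := hu j
    obtain ⟨q2, h3, h4⟩ := hv j
    have h5 : toLex (b p.1, q1) = toLex (b p'.1, q2) := by rw [h2, h4, h]
    have h6 : (b p.1, q1) = (b p'.1, q2) := h5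
    rw [Prod.mk.injEq] at h6
    have h7 : p.1 = p'.1 := hb h6.1
    have h8 : p.2 ≠ p'.2 := fun h9 => hp (Prod.ext h7 h9)
    rw [h6.2, h7] at h1
    rcases Bool.eq_false_or_eq_true p.2 with h9 | h9
    · have h10 : p'.2 = false := by
        rcases Bool.eq_false_or_eq_true p'.2 with h11 | h11
        · exact absurd (h9.trans h11.symm) h8
        · exact h11
      rw [h9] at h1
      rw [h10] at h3
      simp only [if_true, Finset.mem_Ioi] at h1
      simp only [Bool.false_eq_true, if_false, Finset.mem_Iio] at h3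
      exact absurd h1 (not_lt.2 h3.le)
    · have h10 : p'.2 = true := by
        rcases Bool.eq_false_or_eq_true p'.2 with h11 | h11
        · exact h11
        · exact absurd (h9.trans h11.symm) h8
      rw [h9] at h1
      rw [h10] at h3
      simp only [if_true, Finset.mem_Ioi] at h3
      simp only [Bool.false_eq_true, if_false, Finset.mem_Iio] at h1
      exact absurd h1 (not_lt.2 h3.le)
  · intro p
    unfold C2
    rw [Fintype.card_piFinset]
    have h1 : ∀ j, ((if p.2 then Finset.Ioi (q p.1 j) else Finset.Iio (q p.1 j)).image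
      (fun q' => toLex (b p.1, q'))).card
        = if p.2 then Q - 1 - (q p.1 j : ℕ) else (q p.1 j : ℕ) := by
      intro j
      rw [Finset.card_image_of_injective]
      · split_ifs
        · rw [Fin.card_Ioi]
        · rw [Fin.card_Iio]
      · intro a a' h
        have h2 : (ofLex (toLex (b p.1, a))).2 = (ofLex (toLex (b p.1, a'))).2 :=
          congrArg (fun l => (ofLex l).2) h
        exact h2
    rw [Finset.prod_congr rfl (fun j _ => h1 j)]
    by_cases h2 : p.2
    · simp only [h2, if_true]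
      exact hμ2 _
    · simp only [h2]
      exact hμ1 _

lemma lex_lt_of {b b' : Fin N} {q q' : Fin Q} (h : b < b') :
    (toLex (b, q) : Fin N ×ₗ Fin Q) < toLex (b', q') := by
  rw [Prod.Lex.toLex_lt_toLex]
  exact Or.inl h

lemma lex_lt_of' {b : Fin N} {q q' : Fin Q} (h : q < q') :
    (toLex (b, q) : Fin N ×ₗ Fin Q) < toLex (b, q') := by
  rw [Prod.Lex.toLex_lt_toLex]
  exact Or.inr ⟨rfl, h⟩

/-- letter vectors in different cubes are comparable -/
lemma cube_cmp {b b' : Fin N} (h : b ≠ b') (u v : Fin m → Fin N ×ₗ Fin Q)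
    (hu : ∀ j, kap (u j) = b) (hv : ∀ j, kap (v j) = b') :
    (∀ j, u j < v j) ∨ (∀ j, v j < u j) := by
  rcases lt_or_gt_of_ne h with h1 | h1
  · left
    intro j
    have h2 : (toLex (kap (u j), (ofLex (u j)).2) : Fin N ×ₗ Fin Q)
        < toLex (kap (v j), (ofLex (v j)).2) := by
      apply lex_lt_of
      rw [hu, hv]
      exact h1
    exact h2
  · right
    intro j
    have h2 : (toLex (kap (v j), (ofLex (v j)).2) : Fin N ×ₗ Fin Q)
        < toLex (kap (u j), (ofLex (u j)).2) := by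
      apply lex_lt_of
      rw [hu, hv]
      exact h1
    exact h2

lemma comb {n1 n2 : ℕ} (hm : 0 < m) (A : Finset (Fin m → Fin Q)) (μ : ℕ)
    (hμ1 : ∀ q ∈ A, μ ≤ ∏ j, (q j : ℕ)) (hμ2 : ∀ q ∈ A, μ ≤ ∏ j, (Q - 1 - (q j : ℕ)))
    (u : Fin n1 → Fin m → Fin N ×ₗ Fin Q) :
    ∃ (b : Fin (Val (C1 A) univ u) → Fin N) (q : Fin (Val (C1 A) univ u) → Fin m → Fin Q),
      GapFam (kap (N := N) (Q := Q)) (C2 b q) μ ∧
      ∀ v : Fin n2 → Fin m → Fin N ×ₗ Fin Q,
        Val (C1 A) univ u + Val (C2 b q) univ v ≤ ValW (Fin.append u v) := by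
  obtain ⟨x, b, hx, hb, _, hC⟩ := ach_Val (C1 A) univ u
  have h1 : ∀ t, ∃ q ∈ A, (fun j => toLex (b t, q j)) = (fun j => u (x t j) j) := by
    intro t
    have := hC t
    unfold C1 at this
    rw [mem_image] at this
    exact this
  choose q hqA hq using h1
  have hu : ∀ t j, u (x t j) j = toLex (b t, q t j) := fun t j => (congrFun (hq t) j).symm
  refine ⟨b, q, gap2 b hb q μ (fun t => hμ1 _ (hqA t)) (fun t => hμ2 _ (hqA t)), ?_⟩
  intro v
  apply le_ValW hm
  obtain ⟨y, g, hy, hg, _, hD⟩ := ach_Val (C2 b q) univ v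
  refine ⟨fun t j => Fin.append (fun t => Fin.castAdd n2 (x t j)) (fun t => Fin.natAdd n1 (y t j)) t,
    fun j => strictMono_append (hx j) (hy j), ?_⟩
  -- comparison facts
  have hcube2 : ∀ t, ∀ j, kap (v (y t j) j) = b (g t).1 := by
    intro t j
    have := hD t
    rw [mem_C2] at this
    obtain ⟨q', _, h⟩ := this j
    rw [← h]
    rfl
  have hcube1 : ∀ t, ∀ j, kap (u (x t j) j) = b t := by
    intro t j
    rw [hu]
    rfl
  have h12 : ∀ s t, (∀ j, u (x s j) j < v (y t j) j) ∨ (∀ j, v (y t j) j < u (x s j) j) := by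
    intro s t
    by_cases hst : s = (g t).1
    · have h2 := hD t
      rw [mem_C2] at h2
      by_cases hside : (g t).2
      · left
        intro j
        obtain ⟨q', h3, h4⟩ := h2 j
        simp only [hside, if_true, Finset.mem_Ioi] at h3
        rw [← h4, hu, hst]
        exact lex_lt_of' h3
      · right
        intro j
        obtain ⟨q', h3, h4⟩ := h2 j
        simp only [hside, Bool.false_eq_true, if_false, Finset.mem_Iio] at h3
        rw [← h4, hu, hst]
        exact lex_lt_of' h3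
    · exact cube_cmp (fun h => hst (hb h)) _ _ (hcube1 s) (hcube2 t)
  have h22 : ∀ s t, s ≠ t → (∀ j, v (y s j) j < v (y t j) j) ∨ (∀ j, v (y t j) j < v (y s j) j) := by
    intro s t hst
    by_cases h : (g s).1 = (g t).1
    · have hne : (g s).2 ≠ (g t).2 := fun h5 => hst (hg (Prod.ext h h5))
      have hs := hD s
      have ht := hD t
      rw [mem_C2] at hs ht
      rcases Bool.eq_false_or_eq_true (g s).2 with h9 | h9
      · have h10 : (g t).2 = false := by
          rcases Bool.eq_false_or_eq_true (g t).2 with h11 | h11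
          · exact absurd (h9.trans h11.symm) hne
          · exact h11
        right
        intro j
        obtain ⟨q1, h3, h4⟩ := hs j
        obtain ⟨q2, h5, h6⟩ := ht j
        simp only [h9, if_true, Finset.mem_Ioi] at h3
        simp only [h10, Bool.false_eq_true, if_false, Finset.mem_Iio] at h5
        rw [← h4, ← h6, h]
        rw [h] at h3
        exact lex_lt_of' (h5.trans h3)
      · have h10 : (g t).2 = true := by
          rcases Bool.eq_false_or_eq_true (g t).2 with h11 | h11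
          · exact h11
          · exact absurd (h9.trans h11.symm) hne
        left
        intro j
        obtain ⟨q1, h3, h4⟩ := hs j
        obtain ⟨q2, h5, h6⟩ := ht j
        simp only [h10, if_true, Finset.mem_Ioi] at h5
        simp only [h9, Bool.false_eq_true, if_false, Finset.mem_Iio] at h3
        rw [← h4, ← h6, h]
        rw [h] at h3
        exact lex_lt_of' (h3.trans h5)
    · exact cube_cmp (fun h' => h (hb h')) _ _ (hcube2 s) (hcube2 t)
  intro s t hst
  induction s using Fin.addCases with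
  | left s =>
    induction t using Fin.addCases with
    | left t =>
      simp only [Fin.append_left]
      have hne : s ≠ t := fun h => hst (by rw [h])
      exact cube_cmp (fun h => hne (hb h)) _ _ (hcube1 s) (hcube1 t)
    | right t =>
      simp only [Fin.append_left, Fin.append_right]
      exact h12 s t
  | right s =>
    induction t using Fin.addCases with
    | left t =>
      simp only [Fin.append_left, Fin.append_right]
      exact (h12 t s).symm
    | right t =>
      simp only [Fin.append_right]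
      have hne : s ≠ t := fun h => hst (by rw [h])
      exact h22 s t hne

/-- The two-stage lower bound for the average longest common pattern length. -/
theorem two_stage (hm : 0 < m) (hN : 0 < N) (hQ0 : 0 < Q) (A : Finset (Fin m → Fin Q)) (μ : ℕ)
    (hμ1 : ∀ q ∈ A, μ ≤ ∏ j, (q j : ℕ)) (hμ2 : ∀ q ∈ A, μ ≤ ∏ j, (Q - 1 - (q j : ℕ)))
    {r1 r2 B W1 W2 s0 s1 s2 : ℕ} (hr1 : 0 < r1) (hr2 : 0 < r2) (hB : 0 < B)
    (e : ℝ) (he0 : 0 < e) (he1 : e ≤ 1)
    (hBe : 2 * (m : ℝ) ^ 3 ≤ e ^ 3 * B)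
    (hW1 : (1 + e) * B * (r1 / m) ≤ W1) (hW2 : (1 + e) * B * (r2 / m) ≤ W2)
    (hrq1 : (1 + (r1 : ℝ) / N) ^ m ≤ 2) (hrq2 : (1 + (r2 : ℝ) / N) ^ m ≤ 2)
    (hl1 : 4 * (B : ℝ) / e ≤ (r1.choose m : ℝ) * ((s0 : ℝ) * A.card / ((N : ℝ) * Q) ^ m))
    (hl2 : 4 * (B : ℝ) / e ≤ (r2.choose m : ℝ) * ((s0 : ℝ) * μ / ((N : ℝ) * Q) ^ m))
    (hs2 : 2 * N ≤ s2 * B) :
    ((3 - 2 * e) * ((1 - e) * min ((s1 : ℝ) * B) ((N : ℝ) - B * s0 - B)) - (B * s0 + B)) *
      ((s1 * W1 + s2 * W2).factorial : ℝ) ^ m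
      ≤ ∑ π : Fin m → Equiv.Perm (Fin (s1 * W1 + s2 * W2)), (LP π : ℝ) := by
  classical
  have hcard : (Fintype.card (Fin N ×ₗ Fin Q) : ℝ) = (N : ℝ) * Q := by
    rw [card_letters]
    push_cast
    rfl
  have hL : 0 < Fintype.card (Fin N ×ₗ Fin Q) := by
    rw [card_letters]
    exact Nat.mul_pos hN hQ0
  have hNr : (0 : ℝ) < N := by exact_mod_cast hN
  have hQr : (0 : ℝ) < Q := by exact_mod_cast hQ0
  have hdiv : (Q : ℝ) / (Fintype.card (Fin N ×ₗ Fin Q) : ℝ) = 1 / N := by
    rw [hcard]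
    field_simp
  set V : ℝ := (Fintype.card (Fin m → Fin N ×ₗ Fin Q) : ℝ) with hV
  have hV0 : 0 < V := by
    rw [hV]
    have : 0 < Fintype.card (Fin m → Fin N ×ₗ Fin Q) := by
      rw [Fintype.card_pi, Finset.prod_const]
      exact pow_pos hL _
    exact_mod_cast this
  have hE1 : 0 ≤ 1 - e := by linarith
  -- block lemmas
  have hb1 : ∀ G : Finset (Fin N), B * s0 ≤ G.card →
      (1 - e) * V ^ W1 ≤ ((univ.filter
        (fun u : Fin W1 → Fin m → Fin N ×ₗ Fin Q => Ach (C1 A) G u B)).card : ℝ) := by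
    intro G hG
    refine block_ach (gap1 A) kap_fiber hL hm hr1 hB e he0 he1 hBe hW1 ?_ ?_ G hG
    · rw [hdiv, mul_one_div]
      exact hrq1
    · rw [hcard, card_R]
      exact hl1
  have hb2 : ∀ {k : ℕ} (b : Fin k → Fin N) (q : Fin k → Fin m → Fin Q),
      GapFam (kap (N := N) (Q := Q)) (C2 b q) μ → ∀ G : Finset (Fin k × Bool), B * s0 ≤ G.card →
      (1 - e) * V ^ W2 ≤ ((univ.filter
        (fun u : Fin W2 → Fin m → Fin N ×ₗ Fin Q => Ach (C2 b q) G u B)).card : ℝ) := by
    intro k b q hgap G hG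
    refine block_ach hgap kap_fiber hL hm hr2 hB e he0 he1 hBe hW2 ?_ ?_ G hG
    · rw [hdiv, mul_one_div]
      exact hrq2
    · rw [hcard, card_R]
      exact hl2
  -- the two stages
  have hst1 := stage (C1 (N := N) A) W1 B (B * s0) e he1 hb1 s1 univ
  rw [Finset.card_univ, Fintype.card_fin] at hst1
  have hst2 : ∀ u : Fin (len W1 s1) → Fin m → Fin N ×ₗ Fin Q,
      ((3 - 2 * e) * (Val (C1 A) univ u : ℝ) - (B * s0 + B)) * V ^ (len W2 s2)
        ≤ ∑ v : Fin (len W2 s2) → Fin m → Fin N ×ₗ Fin Q, (ValW (Fin.append u v) : ℝ) := by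
    intro u
    have hcomb := comb (n2 := len W2 s2) hm A μ hμ1 hμ2 u
    have hkN : Val (C1 A) univ u ≤ N := by
      have := ach_le (ach_Val (C1 (N := N) A) univ u)
      simpa using this
    generalize Val (C1 A) univ u = k at hcomb hkN ⊢
    obtain ⟨b, q, hgap, hv⟩ := hcomb
    have h1 := stage (C2 b q) W2 B (B * s0) e he1 (hb2 b q hgap) s2 univ
    rw [Finset.card_univ, Fintype.card_prod, Fintype.card_fin, Fintype.card_bool] at h1
    have hkNr : (k : ℝ) ≤ N := by exact_mod_cast hkN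
    have hmin : min ((s2 : ℝ) * B) (((k * 2 : ℕ) : ℝ) - ((B * s0 : ℕ) : ℝ) - B)
        = 2 * k - B * s0 - B := by
      have h2 : (2 : ℝ) * N ≤ s2 * B := by exact_mod_cast hs2
      rw [min_eq_right]
      · push_cast
        ring
      · push_cast
        have : (0 : ℝ) ≤ (B : ℝ) * s0 := by positivity
        have : (0 : ℝ) ≤ (B : ℝ) := by positivity
        linarith
    rw [hmin] at h1
    calc ((3 - 2 * e) * (k : ℝ) - (B * s0 + B)) * V ^ (len W2 s2)
        ≤ (k + (1 - e) * (2 * k - B * s0 - B)) * V ^ (len W2 s2) := by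
          refine mul_le_mul_of_nonneg_right ?_ (pow_nonneg hV0.le _)
          have h3 : (0 : ℝ) ≤ e * (B * s0 + B) := by positivity
          nlinarith
      _ = k * V ^ (len W2 s2) + (1 - e) * (2 * k - B * s0 - B) * V ^ (len W2 s2) := by ring
      _ ≤ ∑ _v : Fin (len W2 s2) → Fin m → Fin N ×ₗ Fin Q, (k : ℝ)
          + ∑ v : Fin (len W2 s2) → Fin m → Fin N ×ₗ Fin Q, (Val (C2 b q) univ v : ℝ) := by
          refine add_le_add (le_of_eq ?_) h1
          rw [Finset.sum_const, Finset.card_univ, nsmul_eq_mul, Fintype.card_pi, Finset.prod_const,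
            Finset.card_univ, Fintype.card_fin]
          push_cast
          rw [hV]
          ring
      _ = ∑ v : Fin (len W2 s2) → Fin m → Fin N ×ₗ Fin Q,
          ((k : ℝ) + (Val (C2 b q) univ v : ℝ)) := by
          rw [Finset.sum_add_distrib]
      _ ≤ _ := by
          refine Finset.sum_le_sum (fun v _ => ?_)
          exact_mod_cast hv v
  have hsum : ((3 - 2 * e) * ((1 - e) * min ((s1 : ℝ) * B) ((N : ℝ) - B * s0 - B))
      - (B * s0 + B)) * V ^ (len W1 s1 + len W2 s2)
      ≤ ∑ w : Fin (len W1 s1 + len W2 s2) → Fin m → Fin N ×ₗ Fin Q, (ValW w : ℝ) := by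
    rw [sum_append]
    refine le_trans ?_ (Finset.sum_le_sum (fun u _ => hst2 u))
    rw [← Finset.sum_mul, Finset.sum_sub_distrib, ← Finset.mul_sum, Finset.sum_const,
      Finset.card_univ, nsmul_eq_mul, Fintype.card_pi, Finset.prod_const, Finset.card_univ,
      Fintype.card_fin]
    push_cast
    rw [← hV, pow_add, ← mul_assoc]
    refine mul_le_mul_of_nonneg_right ?_ (pow_nonneg hV0.le _)
    have h4 : (1 - e) * min ((s1 : ℝ) * B) ((N : ℝ) - B * s0 - B) * V ^ len W1 s1
        ≤ ∑ u : Fin (len W1 s1) → Fin m → Fin N ×ₗ Fin Q, (Val (C1 A) univ u : ℝ) := by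
      have h5 := hst1
      push_cast at h5
      exact h5
    have h6 : 0 ≤ 3 - 2 * e := by linarith
    have h7 := mul_le_mul_of_nonneg_left h4 h6
    linarith
  have hwp := words_le_perms (n := len W1 s1 + len W2 s2) (Λ := Fin N ×ₗ Fin Q) hm
  rw [len_eq, len_eq] at hwp hsum
  rw [← hV] at hwp
  set X := ((3 - 2 * e) * ((1 - e) * min ((s1 : ℝ) * B) ((N : ℝ) - B * s0 - B))
      - (B * s0 + B)) with hX
  have hfac : (0 : ℝ) ≤ ((s1 * W1 + s2 * W2).factorial : ℝ) ^ m := by positivity
  have h8 := mul_le_mul_of_nonneg_left hsum hfac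
  have h9 := h8.trans hwp
  have hVp : 0 < V ^ (s1 * W1 + s2 * W2) := pow_pos hV0 _
  have h10 : V ^ (s1 * W1 + s2 * W2) * (X * ((s1 * W1 + s2 * W2).factorial : ℝ) ^ m)
      ≤ V ^ (s1 * W1 + s2 * W2) * ∑ π : Fin m → Equiv.Perm (Fin (s1 * W1 + s2 * W2)), (LP π : ℝ) := by
    calc V ^ (s1 * W1 + s2 * W2) * (X * ((s1 * W1 + s2 * W2).factorial : ℝ) ^ m)
        = ((s1 * W1 + s2 * W2).factorial : ℝ) ^ m * (X * V ^ (s1 * W1 + s2 * W2)) := by ring
      _ ≤ _ := h9
  exact le_of_mul_le_mul_left h10 hVp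

end Two

end Pool.Agent.H143R3
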