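import Pool.Agent.H143R3.TypeSet
import Pool.Agent.H143R3.TwoStage

set_option autoImplicit false

namespace Pool.Agent.H143R3

open Finset

/-- block parameter -/
def BB (m : ℕ) : ℕ := 250000000000 * m ^ 3

/-- the two inequalities on `t` needed below -/
def Cond (t : ℕ) : Prop :=
  (2 * 10 ^ 8 * (BB (t * 32) : ℝ) ^ 2 * (t.factorial : ℝ) ^ 32
      ≤ (5519 / 10000 * ((t * 32 : ℕ) : ℝ) / 48) ^ (t * 32)) ∧
  (2 * 10 ^ 8 * (BB (t * 32) : ℝ) ^ 2 * ((t * 32).factorial : ℝ)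
      ≤ (8233 / 10000 * ((t * 32 : ℕ) : ℝ) / 48) ^ (t * 32)
        * ((∏ y : Fin 32, (8 + (y : ℕ)) : ℕ) : ℝ) ^ t)

lemma exp_one_gt : (2718281 / 1000000 : ℝ) < Real.exp 1 := by
  have := Real.exp_one_gt_d9
  linarith

lemma cond_eventually : ∀ᶠ t : ℕ in Filter.atTop, Cond t := by
  have hg1 : (1 : ℝ) < (5519 / 10000 * (2718281 / 1000000) * 32 / 48) ^ 32 := by norm_num
  have hg2 : (1 : ℝ) < (8233 / 10000 * (2718281 / 1000000) / 48) ^ 32 *
      ((∏ y : Fin 32, (8 + (y : ℕ)) : ℕ) : ℝ) := by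
    rw [prod_val]
    norm_num [Nat.factorial]
  have h1 := poly_le_exp _ (2 * 10 ^ 8 * (250000000000 * 32 ^ 3) ^ 2 * Real.exp 1 ^ 32) hg1 38
  have h2 := poly_le_exp _ (2 * 10 ^ 8 * (250000000000 * 32 ^ 3) ^ 2 * (Real.exp 1 * 32)) hg2 7
  filter_upwards [h1, h2, Filter.eventually_ge_atTop 1] with t ht1 ht2 ht
  have ht0 : (0 : ℝ) < t := by exact_mod_cast ht
  have hBB : (BB (t * 32) : ℝ) = 250000000000 * 32 ^ 3 * (t : ℝ) ^ 3 := by
    unfold BB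
    push_cast
    ring
  have hexp := exp_one_gt
  have hexp0 : 0 < Real.exp 1 := Real.exp_pos 1
  constructor
  · have hf := fact_bound t ht
    have hft : (t.factorial : ℝ) ≤ Real.exp 1 * (t : ℝ) ^ (t + 1) / Real.exp 1 ^ t := by
      rw [le_div_iff₀ (by positivity), ← Real.exp_nat_mul, mul_one]
      exact hf
    have hf32 : (t.factorial : ℝ) ^ 32
        ≤ (Real.exp 1 * (t : ℝ) ^ (t + 1) / Real.exp 1 ^ t) ^ 32 := by gcongr
    have hA : (Real.exp 1 * (t : ℝ) ^ (t + 1) / Real.exp 1 ^ t) ^ 32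
        = Real.exp 1 ^ 32 * (t : ℝ) ^ 32 * ((t : ℝ) / Real.exp 1) ^ (t * 32) := by
      rw [div_pow, mul_pow, ← pow_mul, ← pow_mul, div_pow]
      have : (t + 1) * 32 = 32 + t * 32 := by ring
      rw [this, pow_add]
      ring
    rw [hA] at hf32
    have hB : (5519 / 10000 * ((t * 32 : ℕ) : ℝ) / 48) ^ (t * 32)
        = ((5519 / 10000 * Real.exp 1 * 32 / 48) ^ 32) ^ t * ((t : ℝ) / Real.exp 1) ^ (t * 32) := by
      rw [← pow_mul, mul_comm 32 t, ← mul_pow]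
      congr 1
      push_cast
      field_simp
    rw [hB, hBB]
    have hC : 2 * 10 ^ 8 * (250000000000 * 32 ^ 3 * (t : ℝ) ^ 3) ^ 2 * (t.factorial : ℝ) ^ 32
        ≤ 2 * 10 ^ 8 * (250000000000 * 32 ^ 3 * (t : ℝ) ^ 3) ^ 2 *
          (Real.exp 1 ^ 32 * (t : ℝ) ^ 32 * ((t : ℝ) / Real.exp 1) ^ (t * 32)) := by gcongr
    refine hC.trans ?_
    have hD : 2 * 10 ^ 8 * (250000000000 * 32 ^ 3 * (t : ℝ) ^ 3) ^ 2 *
          (Real.exp 1 ^ 32 * (t : ℝ) ^ 32 * ((t : ℝ) / Real.exp 1) ^ (t * 32))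
        = (2 * 10 ^ 8 * (250000000000 * 32 ^ 3) ^ 2 * Real.exp 1 ^ 32 * (t : ℝ) ^ 38)
          * ((t : ℝ) / Real.exp 1) ^ (t * 32) := by ring
    rw [hD]
    refine mul_le_mul_of_nonneg_right ?_ (by positivity)
    refine ht1.trans ?_
    gcongr
  · have hm1 : 1 ≤ t * 32 := by omega
    have hf := fact_bound (t * 32) hm1
    have hft : ((t * 32).factorial : ℝ) ≤ Real.exp 1 * ((t * 32 : ℕ) : ℝ) ^ (t * 32 + 1)
        / Real.exp 1 ^ (t * 32) := by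
      rw [le_div_iff₀ (by positivity), ← Real.exp_nat_mul, mul_one]
      exact hf
    set M : ℝ := ((t * 32 : ℕ) : ℝ) with hM
    have hM' : M = t * 32 := by rw [hM]; push_cast; ring
    have hM0 : 0 < M := by rw [hM']; positivity
    have hB : (8233 / 10000 * M / 48) ^ (t * 32) * ((∏ y : Fin 32, (8 + (y : ℕ)) : ℕ) : ℝ) ^ t
        = ((8233 / 10000 * Real.exp 1 / 48) ^ 32 * ((∏ y : Fin 32, (8 + (y : ℕ)) : ℕ) : ℝ)) ^ t
          * (M / Real.exp 1) ^ (t * 32) := by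
      rw [mul_pow (_ ^ 32), ← pow_mul, mul_comm 32 t]
      have : (8233 / 10000 * M / 48) = (8233 / 10000 * Real.exp 1 / 48) * (M / Real.exp 1) := by
        field_simp
      rw [this, mul_pow]
      ring
    rw [hB, hBB]
    have hC : 2 * 10 ^ 8 * (250000000000 * 32 ^ 3 * (t : ℝ) ^ 3) ^ 2 * ((t * 32).factorial : ℝ)
        ≤ 2 * 10 ^ 8 * (250000000000 * 32 ^ 3 * (t : ℝ) ^ 3) ^ 2 *
          (Real.exp 1 * M ^ (t * 32 + 1) / Real.exp 1 ^ (t * 32)) := by gcongr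
    refine hC.trans ?_
    have hD : 2 * 10 ^ 8 * (250000000000 * 32 ^ 3 * (t : ℝ) ^ 3) ^ 2 *
          (Real.exp 1 * M ^ (t * 32 + 1) / Real.exp 1 ^ (t * 32))
        = (2 * 10 ^ 8 * (250000000000 * 32 ^ 3) ^ 2 * (Real.exp 1 * 32) * (t : ℝ) ^ 7)
          * (M / Real.exp 1) ^ (t * 32) := by
      rw [pow_succ, div_pow, hM']
      ring
    rw [hD]
    refine mul_le_mul_of_nonneg_right ?_ (by positivity)
    refine ht2.trans ?_
    gcongr

end Pool.Agent.H143R3
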