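import Pool.Agent.H143R3.Block2

set_option autoImplicit false

namespace Pool.Agent.H143R3

open Finset

section Ach

variable {m : ℕ} {Λ Γ : Type*}

/-- `k` tuples of positions, increasing in every coordinate, whose letter vectors lie in `k`
distinct gap sets with labels in `G`. -/
def Ach (C : Γ → Finset (Fin m → Λ)) (G : Finset Γ) {n : ℕ} (w : Fin n → Fin m → Λ) (k : ℕ) :
    Prop :=
  ∃ (x : Fin k → Fin m → Fin n) (g : Fin k → Γ), (∀ j, StrictMono (fun t => x t j)) ∧
    Function.Injective g ∧ (∀ t, g t ∈ G) ∧ ∀ t, (fun j => w (x t j) j) ∈ C (g t)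

lemma ach_zero (C : Γ → Finset (Fin m → Λ)) (G : Finset Γ) {n : ℕ} (w : Fin n → Fin m → Λ) :
    Ach C G w 0 := by
  refine ⟨fun t => t.elim0, fun t => t.elim0, fun j t => t.elim0, fun t => t.elim0,
    fun t => t.elim0, fun t => t.elim0⟩

lemma ach_le {C : Γ → Finset (Fin m → Λ)} {G : Finset Γ} {n : ℕ} {w : Fin n → Fin m → Λ} {k : ℕ}
    (h : Ach C G w k) : k ≤ G.card := by
  obtain ⟨x, g, _, hg, hG, _⟩ := h
  have h1 : (Finset.univ.map ⟨g, hg⟩) ⊆ G := by
    intro y hy
    rw [Finset.mem_map] at hy
    obtain ⟨t, _, rfl⟩ := hy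
    exact hG t
  have h2 := Finset.card_le_card h1
  simpa using h2

/-- the largest achievable number of tuples -/
noncomputable def Val (C : Γ → Finset (Fin m → Λ)) (G : Finset Γ) {n : ℕ}
    (w : Fin n → Fin m → Λ) : ℕ := sSup {k | Ach C G w k}

lemma ach_bdd (C : Γ → Finset (Fin m → Λ)) (G : Finset Γ) {n : ℕ} (w : Fin n → Fin m → Λ) :
    BddAbove {k | Ach C G w k} := ⟨G.card, fun _ hk => ach_le hk⟩

lemma le_Val {C : Γ → Finset (Fin m → Λ)} {G : Finset Γ} {n : ℕ} {w : Fin n → Fin m → Λ} {k : ℕ}
    (h : Ach C G w k) : k ≤ Val C G w := le_csSup (ach_bdd C G w) h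

lemma ach_Val (C : Γ → Finset (Fin m → Λ)) (G : Finset Γ) {n : ℕ} (w : Fin n → Fin m → Λ) :
    Ach C G w (Val C G w) :=
  Nat.sSup_mem ⟨0, ach_zero C G w⟩ (ach_bdd C G w)

lemma strictMono_append {k1 k2 a b : ℕ} {f : Fin k1 → Fin a} {g : Fin k2 → Fin b}
    (hf : StrictMono f) (hg : StrictMono g) :
    StrictMono (Fin.append (fun t => Fin.castAdd b (f t)) (fun t => Fin.natAdd a (g t))) := by
  intro s t h
  induction s using Fin.addCases with
  | left s =>
    induction t using Fin.addCases with
    | left t =>
      rw [Fin.append_left, Fin.append_left]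
      have h1 : s < t := by
        rw [Fin.lt_def] at h ⊢
        simpa using h
      have h2 := hf h1
      rw [Fin.lt_def] at h2 ⊢
      simpa using h2
    | right t =>
      rw [Fin.append_left, Fin.append_right, Fin.lt_def]
      simp only [Fin.val_castAdd, Fin.val_natAdd]
      have := (f s).2
      omega
  | right s =>
    induction t using Fin.addCases with
    | left t =>
      rw [Fin.lt_def] at h
      simp only [Fin.val_castAdd, Fin.val_natAdd] at h
      have := t.2
      omega
    | right t =>
      rw [Fin.append_right, Fin.append_right]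
      have h1 : s < t := by
        rw [Fin.lt_def] at h ⊢
        simp only [Fin.val_natAdd] at h
        omega
      have h2 := hg h1
      rw [Fin.lt_def] at h2 ⊢
      simp only [Fin.val_natAdd]
      omega

lemma ach_append [DecidableEq Γ] {C : Γ → Finset (Fin m → Λ)} {G : Finset Γ} {a b : ℕ}
    {u : Fin a → Fin m → Λ} {v : Fin b → Fin m → Λ} {k1 k2 : ℕ}
    (x : Fin k1 → Fin m → Fin a) (g : Fin k1 → Γ) (hx : ∀ j, StrictMono (fun t => x t j))
    (hg : Function.Injective g) (hG : ∀ t, g t ∈ G) (hC : ∀ t, (fun j => u (x t j) j) ∈ C (g t))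
    (h2 : Ach C (G \ Finset.univ.image g) v k2) : Ach C G (Fin.append u v) (k1 + k2) := by
  obtain ⟨x', g', hx', hg', hG', hC'⟩ := h2
  refine ⟨fun t j => Fin.append (fun t => Fin.castAdd b (x t j)) (fun t => Fin.natAdd a (x' t j)) t,
    Fin.append g g', fun j => strictMono_append (hx j) (hx' j), ?_, ?_, ?_⟩
  · rw [Fin.append_injective_iff]
    refine ⟨hg, hg', ?_⟩
    intro s t h
    have := hG' t
    rw [Finset.mem_sdiff] at this
    apply this.2
    rw [← h]
    exact Finset.mem_image_of_mem _ (Finset.mem_univ _)
  · intro t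
    induction t using Fin.addCases with
    | left t =>
      rw [Fin.append_left]
      exact hG t
    | right t =>
      rw [Fin.append_right]
      exact (Finset.mem_sdiff.1 (hG' t)).1
  · intro t
    induction t using Fin.addCases with
    | left t =>
      simp only [Fin.append_left]
      exact hC t
    | right t =>
      simp only [Fin.append_right]
      exact hC' t

lemma ach_append_right {C : Γ → Finset (Fin m → Λ)} {G : Finset Γ} {a b : ℕ}
    (u : Fin a → Fin m → Λ) {v : Fin b → Fin m → Λ} {k : ℕ}
    (h : Ach C G v k) : Ach C G (Fin.append u v) k := by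
  obtain ⟨x, g, hx, hg, hG, hC⟩ := h
  refine ⟨fun t j => Fin.natAdd a (x t j), g, ?_, hg, hG, ?_⟩
  · intro j s t h
    have h1 : x s j < x t j := hx j h
    rw [Fin.lt_def] at h1 ⊢
    simp only [Fin.val_natAdd]
    omega
  · intro t
    simp only [Fin.append_right]
    exact hC t

/-- total length of `s` blocks -/
def len (W : ℕ) : ℕ → ℕ
  | 0 => 0
  | s + 1 => W + len W s

lemma len_eq (W s : ℕ) : len W s = s * W := by
  induction s with
  | zero => simp [len]
  | succ s ih =>
    simp only [len]
    rw [ih]
    ring

lemma sum_append {V : Type*} [Fintype V] {a b : ℕ} (f : (Fin (a + b) → V) → ℝ) :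
    ∑ w, f w = ∑ u : Fin a → V, ∑ v : Fin b → V, f (Fin.append u v) := by
  rw [← Equiv.sum_comp (Fin.appendEquiv a b), Fintype.sum_prod_type]
  rfl

variable [Fintype Λ] [DecidableEq Λ] [DecidableEq Γ]

open Classical in
theorem stage (C : Γ → Finset (Fin m → Λ)) (W B θ : ℕ) (e : ℝ) (he1 : e ≤ 1)
    (hblock : ∀ G : Finset Γ, θ ≤ G.card →
      (1 - e) * (Fintype.card (Fin m → Λ) : ℝ) ^ W
        ≤ ((univ.filter (fun u : Fin W → Fin m → Λ => Ach C G u B)).card : ℝ)) :
    ∀ (s : ℕ) (G : Finset Γ),
      (1 - e) * min ((s : ℝ) * B) ((G.card : ℝ) - θ - B) *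
        (Fintype.card (Fin m → Λ) : ℝ) ^ (len W s)
        ≤ ∑ w : Fin (len W s) → Fin m → Λ, (Val C G w : ℝ) := by
  intro s
  induction s with
  | zero =>
    intro G
    have h1 : (1 - e) * min (((0 : ℕ) : ℝ) * B) ((G.card : ℝ) - θ - B) ≤ 0 := by
      have h2 : min (((0 : ℕ) : ℝ) * B) ((G.card : ℝ) - θ - B) ≤ 0 := by
        refine (min_le_left _ _).trans ?_
        simp
      have h3 : 0 ≤ 1 - e := by linarith
      exact mul_nonpos_of_nonneg_of_nonpos h3 h2
    refine le_trans (mul_nonpos_of_nonpos_of_nonneg h1 (by positivity)) ?_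
    exact Finset.sum_nonneg (fun _ _ => Nat.cast_nonneg _)
  | succ s ih =>
    intro G
    set V : ℝ := (Fintype.card (Fin m → Λ) : ℝ) with hV
    have hV0 : 0 ≤ V := Nat.cast_nonneg _
    have he : 0 ≤ 1 - e := by linarith
    by_cases hG : θ ≤ G.card
    · set S := univ.filter (fun u : Fin W → Fin m → Λ => Ach C G u B) with hS
      have hSb := hblock G hG
      set A : ℝ := (1 - e) * min ((s : ℝ) * B) ((G.card : ℝ) - θ - 2 * B) with hA
      have hu : ∀ u : Fin W → Fin m → Λ,
          (A + (if u ∈ S then (B : ℝ) else 0)) * V ^ (len W s)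
            ≤ ∑ v : Fin (len W s) → Fin m → Λ, (Val C G (Fin.append u v) : ℝ) := by
        intro u
        by_cases huS : u ∈ S
        · rw [if_pos huS]
          rw [hS, mem_filter] at huS
          obtain ⟨x, g, hx, hg, hgG, hC⟩ := huS.2
          have hcard : (G \ Finset.univ.image g).card + B = G.card := by
            rw [Finset.card_sdiff_of_subset]
            · rw [Finset.card_image_of_injective _ hg, Finset.card_univ, Fintype.card_fin]
              have := ach_le huS.2
              omega
            · intro y hy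
              rw [Finset.mem_image] at hy
              obtain ⟨t, _, rfl⟩ := hy
              exact hgG t
          have hcard' : ((G \ Finset.univ.image g).card : ℝ) = (G.card : ℝ) - B := by
            have : ((G \ Finset.univ.image g).card : ℝ) + B = (G.card : ℝ) := by
              exact_mod_cast hcard
            linarith
          have h1 : ∀ v : Fin (len W s) → Fin m → Λ,
              (B : ℝ) + (Val C (G \ Finset.univ.image g) v : ℝ)
                ≤ (Val C G (Fin.append u v) : ℝ) := by
            intro v
            have := le_Val (ach_append x g hx hg hgG hC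
              (ach_Val C (G \ Finset.univ.image g) v))
            exact_mod_cast this
          have h2 := ih (G \ Finset.univ.image g)
          rw [hcard'] at h2
          have h3 : (G.card : ℝ) - B - θ - B = (G.card : ℝ) - θ - 2 * B := by ring
          rw [h3] at h2
          calc (A + B) * V ^ (len W s)
              = (1 - e) * min ((s : ℝ) * B) ((G.card : ℝ) - θ - 2 * B) * V ^ (len W s)
                + B * V ^ (len W s) := by rw [hA]; ring
            _ ≤ ∑ v : Fin (len W s) → Fin m → Λ, (Val C (G \ Finset.univ.image g) v : ℝ)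
                + ∑ _v : Fin (len W s) → Fin m → Λ, (B : ℝ) := by
                refine add_le_add h2 (le_of_eq ?_)
                rw [Finset.sum_const, Finset.card_univ, nsmul_eq_mul]
                rw [Fintype.card_pi, Finset.prod_const, Finset.card_univ, Fintype.card_fin]
                push_cast
                rw [hV]
                ring
            _ = ∑ v : Fin (len W s) → Fin m → Λ,
                ((B : ℝ) + (Val C (G \ Finset.univ.image g) v : ℝ)) := by
                rw [Finset.sum_add_distrib, add_comm]
            _ ≤ _ := Finset.sum_le_sum (fun v _ => h1 v)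
        · rw [if_neg huS, add_zero]
          have h1 : ∀ v : Fin (len W s) → Fin m → Λ,
              (Val C G v : ℝ) ≤ (Val C G (Fin.append u v) : ℝ) := by
            intro v
            exact_mod_cast le_Val (ach_append_right u (ach_Val C G v))
          refine le_trans ?_ ((ih G).trans (Finset.sum_le_sum (fun v _ => h1 v)))
          refine mul_le_mul_of_nonneg_right ?_ (pow_nonneg hV0 _)
          rw [hA]
          refine mul_le_mul_of_nonneg_left ?_ he
          refine min_le_min le_rfl ?_
          have : (0 : ℝ) ≤ B := Nat.cast_nonneg _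
          linarith
      have h4 : ∑ w : Fin (len W (s + 1)) → Fin m → Λ, (Val C G w : ℝ)
          = ∑ u : Fin W → Fin m → Λ, ∑ v : Fin (len W s) → Fin m → Λ,
            (Val C G (Fin.append u v) : ℝ) := by
        exact sum_append (a := W) (b := len W s) (fun w => (Val C G w : ℝ))
      rw [h4]
      refine le_trans ?_ (Finset.sum_le_sum (fun u _ => hu u))
      rw [← Finset.sum_mul, Finset.sum_add_distrib, Finset.sum_const, Finset.card_univ,
        Fintype.card_pi, Finset.prod_const, Finset.card_univ, Fintype.card_fin, nsmul_eq_mul]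
      have h5 : ∑ u : Fin W → Fin m → Λ, (if u ∈ S then (B : ℝ) else 0) = (S.card : ℝ) * B := by
        rw [← Finset.sum_filter, Finset.filter_mem_eq_inter, Finset.univ_inter, Finset.sum_const,
          nsmul_eq_mul]
      rw [h5]
      push_cast
      rw [← hV]
      have h6 : len W (s + 1) = W + len W s := rfl
      rw [h6, pow_add]
      have h7 : (1 - e) * min (((s : ℝ) + 1) * B) ((G.card : ℝ) - θ - B)
          = A + (1 - e) * B := by
        rw [hA, ← mul_add]
        congr 1
        rw [min_add]
        congr 1
        · ring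
        · ring
      rw [h7]
      have h8 : (A + (1 - e) * B) * (V ^ W * V ^ len W s)
          = (V ^ W * A + ((1 - e) * V ^ W) * B) * V ^ len W s := by ring
      rw [h8]
      refine mul_le_mul_of_nonneg_right ?_ (pow_nonneg hV0 _)
      have h9 : ((1 - e) * V ^ W) * B ≤ (S.card : ℝ) * B :=
        mul_le_mul_of_nonneg_right hSb (Nat.cast_nonneg _)
      linarith
    · have h1 : ((G.card : ℝ) - θ - B) ≤ 0 := by
        have h2 : (G.card : ℝ) ≤ θ := by
          exact_mod_cast (not_le.1 hG).le
        have : (0 : ℝ) ≤ B := Nat.cast_nonneg _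
        linarith
      have h3 : (1 - e) * min (((s + 1 : ℕ) : ℝ) * B) ((G.card : ℝ) - θ - B) ≤ 0 :=
        mul_nonpos_of_nonneg_of_nonpos he ((min_le_right _ _).trans h1)
      refine le_trans (mul_nonpos_of_nonpos_of_nonneg h3 (pow_nonneg hV0 _)) ?_
      exact Finset.sum_nonneg (fun _ _ => Nat.cast_nonneg _)

end Ach

end Pool.Agent.H143R3
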