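import Mathlib

set_option autoImplicit false

namespace Pool.Agent.H143R3

open Finset

/-- The simplex of step vectors: positive integer coordinates with sum at most `r`. -/
def R (m r : ℕ) : Finset (Fin m → ℕ) :=
  (Fintype.piFinset fun _ : Fin m => Finset.Icc 1 r).filter (fun d => ∑ j, d j ≤ r)

lemma mem_R {m r : ℕ} {d : Fin m → ℕ} :
    d ∈ R m r ↔ (∀ j, 1 ≤ d j) ∧ ∑ j, d j ≤ r := by
  unfold R
  rw [Finset.mem_filter, Fintype.mem_piFinset]
  constructor
  · rintro ⟨h1, h2⟩
    exact ⟨fun j => (Finset.mem_Icc.1 (h1 j)).1, h2⟩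
  · rintro ⟨h1, h2⟩
    refine ⟨fun j => Finset.mem_Icc.2 ⟨h1 j, ?_⟩, h2⟩
    exact (Finset.single_le_sum (f := d) (fun _ _ => Nat.zero_le _) (Finset.mem_univ j)).trans h2

lemma R_le {m r : ℕ} {d : Fin m → ℕ} (hd : d ∈ R m r) (j : Fin m) : d j ≤ r := by
  have h := (mem_R.1 hd).2
  exact (Finset.single_le_sum (f := d) (fun _ _ => Nat.zero_le _) (Finset.mem_univ j)).trans h

lemma card_R (m : ℕ) : ∀ r : ℕ, (R m r).card = r.choose m := by
  induction m with
  | zero =>
    intro r
    have : R 0 r = {(fun j : Fin 0 => j.elim0)} := by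
      ext d
      rw [mem_R, Finset.mem_singleton]
      constructor
      · intro _
        funext j
        exact j.elim0
      · intro _
        refine ⟨fun j => j.elim0, ?_⟩
        simp
    rw [this]
    simp
  | succ m ih =>
    intro r
    have h1 : (R (m + 1) r).card = ((Finset.Icc 1 r).sigma (fun k => R m (r - k))).card := by
      refine Finset.card_bij' (fun d _ => ⟨d 0, fun j => d j.succ⟩) (fun p _ => Fin.cons p.1 p.2) ?_ ?_ ?_ ?_
      · intro d hd
        rw [mem_R] at hd
        obtain ⟨h1, h2⟩ := hd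
        rw [Fin.sum_univ_succ] at h2
        rw [Finset.mem_sigma]
        refine ⟨Finset.mem_Icc.2 ⟨h1 0, ?_⟩, mem_R.2 ⟨fun j => h1 _, ?_⟩⟩
        · dsimp only
          omega
        · dsimp only
          omega
      · intro p hp
        rw [Finset.mem_sigma] at hp
        obtain ⟨h1, h2⟩ := hp
        rw [Finset.mem_Icc] at h1
        rw [mem_R] at h2 ⊢
        refine ⟨?_, ?_⟩
        · intro j
          refine Fin.cases ?_ ?_ j
          · simpa using h1.1
          · intro i
            simpa using h2.1 i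
        · rw [Fin.sum_univ_succ]
          simp only [Fin.cons_zero, Fin.cons_succ]
          have := h2.2
          omega
      · intro d _
        funext j
        refine Fin.cases ?_ ?_ j
        · simp
        · intro i
          simp
      · rintro ⟨k, d⟩ _
        simp
    rw [h1, Finset.card_sigma]
    simp only [ih]
    -- sum over k in Icc 1 r of choose (r-k) m = choose r (m+1)
    have h2 : ∑ k ∈ Finset.Icc 1 r, (r - k).choose m = ∑ l ∈ Finset.range r, l.choose m := by
      refine Finset.sum_bij' (fun k _ => r - k) (fun l _ => r - l) ?_ ?_ ?_ ?_ ?_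
      · intro k hk
        rw [Finset.mem_Icc] at hk
        rw [Finset.mem_range]
        omega
      · intro l hl
        rw [Finset.mem_range] at hl
        rw [Finset.mem_Icc]
        omega
      · intro k hk
        rw [Finset.mem_Icc] at hk
        omega
      · intro l hl
        rw [Finset.mem_range] at hl
        omega
      · intro k _
        rfl
    rw [h2]
    clear h1 h2 ih
    induction r with
    | zero => simp
    | succ r ihr =>
      rw [Finset.sum_range_succ, ihr, Nat.choose_succ_succ, add_comm]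

/-- the coordinate sum does not depend on the coordinate -/
lemma sum_R_coord (m r : ℕ) (i j : Fin m) : ∑ d ∈ R m r, d i = ∑ d ∈ R m r, d j := by
  refine Finset.sum_bij' (fun d _ => d ∘ Equiv.swap i j) (fun d _ => d ∘ Equiv.swap i j) ?_ ?_ ?_ ?_ ?_
  · intro d hd
    rw [mem_R] at hd ⊢
    refine ⟨fun k => hd.1 _, ?_⟩
    have : ∑ k, (d ∘ Equiv.swap i j) k = ∑ k, d k := Equiv.sum_comp (Equiv.swap i j) d
    rw [this]
    exact hd.2
  · intro d hd
    rw [mem_R] at hd ⊢
    refine ⟨fun k => hd.1 _, ?_⟩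
    have : ∑ k, (d ∘ Equiv.swap i j) k = ∑ k, d k := Equiv.sum_comp (Equiv.swap i j) d
    rw [this]
    exact hd.2
  · intro d _
    funext k
    simp
  · intro d _
    funext k
    simp
  · intro d _
    simp

lemma mul_sum_R_coord (m r : ℕ) (j : Fin m) :
    m * ∑ d ∈ R m r, d j ≤ (R m r).card * r := by
  have h1 : ∑ i : Fin m, ∑ d ∈ R m r, d i = m * ∑ d ∈ R m r, d j := by
    rw [Finset.sum_congr rfl (fun i _ => sum_R_coord m r i j)]
    simp
  rw [← h1, Finset.sum_comm]
  calc ∑ d ∈ R m r, ∑ i, d i ≤ ∑ _d ∈ R m r, r :=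
        Finset.sum_le_sum (fun d hd => (mem_R.1 hd).2)
    _ = (R m r).card * r := by simp

/-- variance of a sum of independent centred variables, finite form -/
lemma sum_sq_pi {α : Type*} [Fintype α] (f : α → ℝ) (hf : ∑ a, f a = 0) (B : ℕ) :
    (Fintype.card α : ℝ) * ∑ D : Fin B → α, (∑ i, f (D i)) ^ 2
      = B * (Fintype.card α : ℝ) ^ B * ∑ a, f a ^ 2 := by
  induction B with
  | zero => simp
  | succ B ih =>
    have h1 : ∑ D : Fin (B + 1) → α, (∑ i, f (D i)) ^ 2
        = ∑ p : α × (Fin B → α), (f p.1 + ∑ i, f (p.2 i)) ^ 2 := by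
      rw [← Equiv.sum_comp (Fin.consEquiv (fun _ : Fin (B + 1) => α))]
      refine Finset.sum_congr rfl (fun p _ => ?_)
      rw [Fin.sum_univ_succ]
      simp [Fin.consEquiv]
    have h2 : ∑ p : α × (Fin B → α), (f p.1 + ∑ i, f (p.2 i)) ^ 2
        = (Fintype.card α : ℝ) ^ B * ∑ a, f a ^ 2
          + (Fintype.card α : ℝ) * ∑ D : Fin B → α, (∑ i, f (D i)) ^ 2 := by
      rw [Fintype.sum_prod_type]
      have : ∀ a : α, ∑ D : Fin B → α, (f a + ∑ i, f (D i)) ^ 2
          = (Fintype.card α : ℝ) ^ B * f a ^ 2 + 2 * f a * (∑ D : Fin B → α, ∑ i, f (D i))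
            + ∑ D : Fin B → α, (∑ i, f (D i)) ^ 2 := by
        intro a
        have : ∀ D : Fin B → α, (f a + ∑ i, f (D i)) ^ 2
            = f a ^ 2 + 2 * f a * (∑ i, f (D i)) + (∑ i, f (D i)) ^ 2 := fun D => by ring
        simp only [this, Finset.sum_add_distrib, ← Finset.mul_sum]
        congr 2
        simp [Fintype.card_pi, Finset.prod_const]
      simp only [this, Finset.sum_add_distrib, ← Finset.mul_sum, ← Finset.sum_mul]
      rw [hf]
      simp
    rw [h1, h2, mul_add, ih]
    push_cast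
    ring

/-- Chebyshev bound for the number of bad step sequences in one coordinate. -/
lemma cheb_coord {m r B : ℕ} (hm : 0 < m) (j : Fin m) (h : ℝ) (hh : 0 < h) :
    ((Finset.univ.filter (fun D : Fin B → R m r =>
        (B : ℝ) * (r / m) + h ≤ ((∑ i, (D i : Fin m → ℕ) j : ℕ) : ℝ))).card : ℝ) * h ^ 2
      ≤ B * (r : ℝ) ^ 2 * ((R m r).card : ℝ) ^ B := by
  classical
  set a : ℝ := (∑ d ∈ R m r, (d j : ℝ)) / (R m r).card with ha
  by_cases hR : (R m r).card = 0
  · have hempty : R m r = ∅ := Finset.card_eq_zero.1 hR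
    rcases Nat.eq_zero_or_pos B with hB | hB
    · subst hB
      have hcard0 : (Finset.univ.filter (fun D : Fin 0 → R m r =>
        ((0 : ℕ) : ℝ) * (r / m) + h ≤ ((∑ i, (D i : Fin m → ℕ) j : ℕ) : ℝ))) = ∅ := by
        apply Finset.filter_false_of_mem
        intro D _
        simp
        exact hh
      rw [hcard0]
      simp
    · have hcard0 : (Finset.univ.filter (fun D : Fin B → R m r =>
        (B : ℝ) * (r / m) + h ≤ ((∑ i, (D i : Fin m → ℕ) j : ℕ) : ℝ))) = ∅ := by
        apply Finset.filter_false_of_mem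
        intro D _
        exact absurd (Finset.card_pos.2 ⟨_, (D ⟨0, hB⟩).2⟩) (by omega)
      rw [hcard0]
      simp
      positivity
  have hRpos : (0 : ℝ) < (R m r).card := by
    exact_mod_cast Nat.pos_of_ne_zero hR
  have hmpos : (0 : ℝ) < m := by exact_mod_cast hm
  have ha_le : a ≤ r / m := by
    rw [ha, div_le_div_iff₀ hRpos hmpos]
    have := mul_sum_R_coord m r j
    have h' : (m : ℝ) * ∑ d ∈ R m r, (d j : ℝ) ≤ (R m r).card * r := by exact_mod_cast this
    linarith
  let f : R m r → ℝ := fun d => ((d : Fin m → ℕ) j : ℝ) - a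
  have hf : ∑ d, f d = 0 := by
    simp only [f, Finset.sum_sub_distrib]
    rw [Finset.sum_coe_sort (R m r) (fun d => (d j : ℝ))]
    simp only [Finset.sum_const, Finset.card_univ, Fintype.card_coe, nsmul_eq_mul]
    rw [ha]
    field_simp
    ring
  have hvar := sum_sq_pi f hf B
  have hsq : ∑ d, f d ^ 2 ≤ (R m r).card * (r : ℝ) ^ 2 := by
    have hle : ∀ d : R m r, f d ^ 2 ≤ (r : ℝ) ^ 2 := by
      intro d
      have h0 : 0 ≤ a := by
        rw [ha]
        positivity
      have h1 : ((d : Fin m → ℕ) j : ℝ) ≤ r := by exact_mod_cast R_le d.2 j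
      have h2 : (0 : ℝ) ≤ ((d : Fin m → ℕ) j : ℝ) := by positivity
      have har : a ≤ r := by
        refine ha_le.trans ?_
        rw [div_le_iff₀ hmpos]
        have : (1 : ℝ) ≤ m := by exact_mod_cast hm
        have hr0 : (0 : ℝ) ≤ r := by positivity
        nlinarith
      have : |f d| ≤ r := by
        rw [abs_le]
        constructor
        · simp only [f]
          linarith
        · simp only [f]
          linarith
      calc f d ^ 2 = |f d| ^ 2 := (sq_abs _).symm
        _ ≤ (r : ℝ) ^ 2 := by gcongr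
    calc ∑ d, f d ^ 2 ≤ ∑ _d : R m r, (r : ℝ) ^ 2 := Finset.sum_le_sum (fun d _ => hle d)
      _ = (R m r).card * (r : ℝ) ^ 2 := by simp
  have hcard : (Fintype.card (R m r) : ℝ) = (R m r).card := by simp
  rw [hcard] at hvar
  have htot : ∑ D : Fin B → R m r, (∑ i, f (D i)) ^ 2
      ≤ B * (r : ℝ) ^ 2 * ((R m r).card : ℝ) ^ B := by
    have h3 : ((R m r).card : ℝ) * ∑ D : Fin B → R m r, (∑ i, f (D i)) ^ 2
        ≤ ((R m r).card : ℝ) * (B * (r : ℝ) ^ 2 * ((R m r).card : ℝ) ^ B) := by
      rw [hvar]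
      have : (B : ℝ) * ((R m r).card : ℝ) ^ B * ∑ d, f d ^ 2
          ≤ (B : ℝ) * ((R m r).card : ℝ) ^ B * ((R m r).card * (r : ℝ) ^ 2) := by
        gcongr
      refine this.trans (le_of_eq ?_)
      ring
    exact le_of_mul_le_mul_left h3 hRpos
  refine le_trans ?_ htot
  calc ((Finset.univ.filter (fun D : Fin B → R m r =>
        (B : ℝ) * (r / m) + h ≤ ((∑ i, (D i : Fin m → ℕ) j : ℕ) : ℝ))).card : ℝ) * h ^ 2
      = ∑ _D ∈ (Finset.univ.filter (fun D : Fin B → R m r =>
        (B : ℝ) * (r / m) + h ≤ ((∑ i, (D i : Fin m → ℕ) j : ℕ) : ℝ))), h ^ 2 := by simp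
    _ ≤ ∑ D ∈ (Finset.univ.filter (fun D : Fin B → R m r =>
        (B : ℝ) * (r / m) + h ≤ ((∑ i, (D i : Fin m → ℕ) j : ℕ) : ℝ))), (∑ i, f (D i)) ^ 2 := by
        refine Finset.sum_le_sum (fun D hD => ?_)
        rw [Finset.mem_filter] at hD
        have h4 : h ≤ ∑ i, f (D i) := by
          simp only [f, Finset.sum_sub_distrib]
          have h5 := hD.2
          push_cast at h5
          simp only [Finset.sum_const, Finset.card_univ, Fintype.card_fin, nsmul_eq_mul]
          have : (B : ℝ) * a ≤ B * (r / m) := by gcongr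
          linarith
        gcongr
    _ ≤ ∑ D : Fin B → R m r, (∑ i, f (D i)) ^ 2 := by
        refine Finset.sum_le_sum_of_subset_of_nonneg (Finset.filter_subset _ _) ?_
        intro D _ _
        positivity

/-- The good step sequences: every coordinate total is less than `W`. -/
def Good (m r B W : ℕ) : Finset (Fin B → R m r) :=
  Finset.univ.filter (fun D => ∀ j : Fin m, (∑ i, (D i : Fin m → ℕ) j) < W)

lemma good_card {m r B W : ℕ} (hm : 0 < m) (hr : 0 < r) (e : ℝ) (he : 0 < e) (hB : 0 < B)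
    (hBe : 2 * (m : ℝ) ^ 3 ≤ e ^ 3 * B)
    (hW : (1 + e) * B * (r / m) ≤ W) :
    (1 - e / 2) * ((R m r).card : ℝ) ^ B ≤ ((Good m r B W).card : ℝ) := by
  classical
  have hmpos : (0 : ℝ) < m := by exact_mod_cast hm
  have hrpos : (0 : ℝ) < r := by exact_mod_cast hr
  have hBpos : (0 : ℝ) < B := by exact_mod_cast hB
  set h : ℝ := e * B * (r / m) with hh
  have hhpos : 0 < h := by positivity
  let Bad : Fin m → Finset (Fin B → R m r) := fun j =>
    Finset.univ.filter (fun D : Fin B → R m r =>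
        (B : ℝ) * (r / m) + h ≤ ((∑ i, (D i : Fin m → ℕ) j : ℕ) : ℝ))
  have hsub : (Finset.univ : Finset (Fin B → R m r)) ⊆ Good m r B W ∪ Finset.univ.biUnion Bad := by
    intro D _
    rw [Finset.mem_union]
    by_cases hD : D ∈ Good m r B W
    · exact Or.inl hD
    · right
      unfold Good at hD
      rw [Finset.mem_filter] at hD
      push Not at hD
      obtain ⟨j, hj⟩ := hD (Finset.mem_univ _)
      rw [Finset.mem_biUnion]
      refine ⟨j, Finset.mem_univ _, ?_⟩
      simp only [Bad, Finset.mem_filter, Finset.mem_univ, true_and]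
      have h1 : (W : ℝ) ≤ ((∑ i, (D i : Fin m → ℕ) j : ℕ) : ℝ) := by exact_mod_cast hj
      refine le_trans ?_ h1
      refine le_trans (le_of_eq ?_) hW
      rw [hh]
      ring
  have hcard := Finset.card_le_card hsub
  have h1 : (Finset.univ : Finset (Fin B → R m r)).card = (R m r).card ^ B := by
    simp [Finset.card_univ]
  have hbad : ∀ j, ((Bad j).card : ℝ) ≤ (e / (2 * m)) * ((R m r).card : ℝ) ^ B := by
    intro j
    have h2 := cheb_coord (m := m) (r := r) (B := B) hm j h hhpos
    have h3 : B * (r : ℝ) ^ 2 * ((R m r).card : ℝ) ^ B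
        ≤ ((e / (2 * m)) * ((R m r).card : ℝ) ^ B) * h ^ 2 := by
      have h4 : B * (r : ℝ) ^ 2 ≤ (e / (2 * m)) * h ^ 2 := by
        rw [hh]
        have h5 : (e / (2 * m)) * (e * B * (r / m)) ^ 2
            = (e ^ 3 * B) * (B * (r : ℝ) ^ 2) / (2 * (m : ℝ) ^ 3) := by
          field_simp
        rw [h5, le_div_iff₀ (by positivity)]
        have h6 : (0 : ℝ) ≤ B * (r : ℝ) ^ 2 := by positivity
        nlinarith
      calc B * (r : ℝ) ^ 2 * ((R m r).card : ℝ) ^ B
          ≤ ((e / (2 * m)) * h ^ 2) * ((R m r).card : ℝ) ^ B := by gcongr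
        _ = _ := by ring
    exact le_of_mul_le_mul_right (h2.trans h3) (by positivity)
  have h7 : ((R m r).card : ℝ) ^ B ≤ ((Good m r B W).card : ℝ) + ∑ j, ((Bad j).card : ℝ) := by
    have h8 : (R m r).card ^ B ≤ (Good m r B W).card + ∑ j, (Bad j).card := by
      rw [← h1]
      refine hcard.trans ((Finset.card_union_le _ _).trans ?_)
      gcongr
      exact Finset.card_biUnion_le
    exact_mod_cast h8
  have h9 : ∑ j, ((Bad j).card : ℝ) ≤ (e / 2) * ((R m r).card : ℝ) ^ B := by
    calc ∑ j, ((Bad j).card : ℝ) ≤ ∑ _j : Fin m, (e / (2 * m)) * ((R m r).card : ℝ) ^ B :=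
          Finset.sum_le_sum (fun j _ => hbad j)
      _ = (e / 2) * ((R m r).card : ℝ) ^ B := by
        simp only [Finset.sum_const, Finset.card_univ, Fintype.card_fin, nsmul_eq_mul]
        field_simp
  linarith

end Pool.Agent.H143R3
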