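import Mathlib

set_option autoImplicit false

namespace Pool.Agent.H143R3

open Finset

/-- base type vector: every value `8, ..., 39` is taken `t` times -/
def f0 (t : ℕ) : Fin (t * 32) → Fin 48 := fun j =>
  ⟨8 + ((finProdFinEquiv.symm j).2 : Fin 32), by
    have := (finProdFinEquiv.symm j).2.2
    omega⟩

/-- the set of rearrangements of the base type vector -/
def TA (t : ℕ) : Finset (Fin (t * 32) → Fin 48) :=
  univ.image (fun σ : Equiv.Perm (Fin (t * 32)) => f0 t ∘ σ)

lemma f0_fiber (t : ℕ) (i : Fin 48) :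
    Fintype.card {a // f0 t a = i} = if 8 ≤ (i : ℕ) ∧ (i : ℕ) < 40 then t else 0 := by
  classical
  have h1 : Fintype.card {a // f0 t a = i}
      = Fintype.card {p : Fin t × Fin 32 // 8 + (p.2 : ℕ) = i} := by
    refine Fintype.card_congr ?_
    refine (Equiv.subtypeEquiv finProdFinEquiv.symm ?_)
    intro a
    unfold f0
    rw [Fin.ext_iff]
  rw [h1]
  split_ifs with h
  · let y : Fin 32 := ⟨(i : ℕ) - 8, by omega⟩
    have h2 : Fintype.card {p : Fin t × Fin 32 // 8 + (p.2 : ℕ) = i} = Fintype.card (Fin t) := by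
      refine Fintype.card_congr ?_
      refine ⟨fun p => p.1.1, fun x => ⟨(x, y), ?_⟩, ?_, ?_⟩
      · simp only [y]
        omega
      · rintro ⟨⟨x, z⟩, hz⟩
        apply Subtype.ext
        simp only at hz ⊢
        refine Prod.ext rfl ?_
        apply Fin.ext
        simp only [y]
        omega
      · intro x
        rfl
    rw [h2, Fintype.card_fin]
  · rw [Fintype.card_eq_zero_iff]
    refine ⟨?_⟩
    rintro ⟨⟨x, z⟩, hz⟩
    simp only at hz
    apply h
    have := z.2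
    omega

lemma card_TA (t : ℕ) : (t * 32).factorial ≤ (TA t).card * (t.factorial) ^ 32 := by
  classical
  have h1 : ∀ a ∈ (univ : Finset (Equiv.Perm (Fin (t * 32)))).image
      (fun σ : Equiv.Perm (Fin (t * 32)) => f0 t ∘ σ),
      (univ.filter (fun σ : Equiv.Perm (Fin (t * 32)) => f0 t ∘ σ = a)).card
        ≤ (t.factorial) ^ 32 := by
    intro a ha
    rw [mem_image] at ha
    obtain ⟨σ0, _, rfl⟩ := ha
    have h2 : (univ.filter (fun σ : Equiv.Perm (Fin (t * 32)) => f0 t ∘ σ = f0 t ∘ σ0)).card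
        ≤ Fintype.card {g : Equiv.Perm (Fin (t * 32)) // f0 t ∘ g = f0 t} := by
      rw [Fintype.card_subtype]
      refine Finset.card_le_card_of_injOn (fun σ => σ * σ0⁻¹) ?_ ?_
      · intro σ hσ
        simp only [coe_filter, mem_univ, true_and, Set.mem_ofPred_eq] at hσ ⊢
        funext x
        have := congrFun hσ (σ0⁻¹ x)
        simpa using this
      · intro σ _ σ' _ h
        exact mul_right_cancel h
    refine h2.trans (le_of_eq ?_)
    rw [DomMulAct.stabilizer_card]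
    have h3 : ∀ i : Fin 48, (Fintype.card {a // f0 t a = i}).factorial
        = if 8 ≤ (i : ℕ) ∧ (i : ℕ) < 40 then t.factorial else 1 := by
      intro i
      rw [f0_fiber]
      split_ifs
      · rfl
      · rfl
    rw [Finset.prod_congr rfl (fun i _ => h3 i), Finset.prod_ite, Finset.prod_const,
      Finset.prod_const_one, mul_one]
    congr 1
  have h4 := Finset.card_le_mul_card_image (f := fun σ : Equiv.Perm (Fin (t * 32)) => f0 t ∘ σ)
    univ _ h1
  rw [Finset.card_univ, Fintype.card_perm, Fintype.card_fin] at h4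
  unfold TA
  exact h4.trans (le_of_eq (mul_comm _ _))

lemma prod_f0 (t : ℕ) (F : ℕ → ℕ) :
    ∏ j, F (f0 t j : ℕ) = (∏ y : Fin 32, F (8 + (y : ℕ))) ^ t := by
  have h1 : ∏ j, F (f0 t j : ℕ) = ∏ p : Fin t × Fin 32, F (8 + (p.2 : ℕ)) := by
    rw [← Equiv.prod_comp finProdFinEquiv]
    refine Finset.prod_congr rfl (fun p _ => ?_)
    unfold f0
    simp
  rw [h1, Fintype.prod_prod_type]
  simp

lemma TA_prod1 (t : ℕ) (q : Fin (t * 32) → Fin 48) (hq : q ∈ TA t) :
    (∏ y : Fin 32, (8 + (y : ℕ))) ^ t ≤ ∏ j, (q j : ℕ) := by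
  unfold TA at hq
  rw [mem_image] at hq
  obtain ⟨σ, _, rfl⟩ := hq
  have h1 : ∏ j, (((f0 t ∘ σ) j : Fin 48) : ℕ) = ∏ j, ((f0 t j : Fin 48) : ℕ) :=
    Equiv.prod_comp σ (fun j => ((f0 t j : Fin 48) : ℕ))
  rw [h1, prod_f0 t (fun n => n)]

lemma TA_prod2 (t : ℕ) (q : Fin (t * 32) → Fin 48) (hq : q ∈ TA t) :
    (∏ y : Fin 32, (8 + (y : ℕ))) ^ t ≤ ∏ j, (48 - 1 - (q j : ℕ)) := by
  unfold TA at hq
  rw [mem_image] at hq
  obtain ⟨σ, _, rfl⟩ := hq
  have h1 : ∏ j, (48 - 1 - (((f0 t ∘ σ) j : Fin 48) : ℕ)) = ∏ j, (48 - 1 - ((f0 t j : Fin 48) : ℕ)) :=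
    Equiv.prod_comp σ (fun j => (48 - 1 - ((f0 t j : Fin 48) : ℕ)))
  rw [h1, prod_f0 t (fun n => 48 - 1 - n)]
  refine le_of_eq ?_
  congr 1

lemma prod_val : ∏ y : Fin 32, (8 + (y : ℕ)) = Nat.factorial 39 / Nat.factorial 7 := by
  decide +kernel

/-- an upper bound for the factorial -/
lemma fact_bound (n : ℕ) (hn : 1 ≤ n) :
    (n.factorial : ℝ) * Real.exp n ≤ Real.exp 1 * (n : ℝ) ^ (n + 1) := by
  induction n, hn using Nat.le_induction with
  | base => simp
  | succ n hn ih =>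
    have hn0 : (0 : ℝ) < n := by exact_mod_cast hn
    have h1 : Real.exp 1 * (n : ℝ) ^ (n + 1) ≤ ((n : ℝ) + 1) ^ (n + 1) := by
      have h2 : (1 : ℝ) ≤ ((n : ℝ) + 1) * Real.log ((n + 1) / n) := by
        have h3 := Real.one_sub_inv_le_log_of_pos (x := ((n : ℝ) + 1) / n) (by positivity)
        have h4 : 1 - (((n : ℝ) + 1) / n)⁻¹ = 1 / (n + 1) := by
          field_simp
          ring
        rw [h4, div_le_iff₀ (by positivity)] at h3
        linarith
      have h5 : Real.exp 1 ≤ (((n : ℝ) + 1) / n) ^ (n + 1) := by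
        calc Real.exp 1 ≤ Real.exp (((n : ℝ) + 1) * Real.log ((n + 1) / n)) :=
              Real.exp_le_exp.2 h2
          _ = Real.exp (Real.log ((n + 1) / n)) ^ (n + 1) := by
              rw [← Real.exp_nat_mul]
              push_cast
              rfl
          _ = (((n : ℝ) + 1) / n) ^ (n + 1) := by
              rw [Real.exp_log (by positivity)]
      calc Real.exp 1 * (n : ℝ) ^ (n + 1)
          ≤ (((n : ℝ) + 1) / n) ^ (n + 1) * (n : ℝ) ^ (n + 1) := by gcongr
        _ = ((n : ℝ) + 1) ^ (n + 1) := by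
            rw [← mul_pow]
            congr 1
            field_simp
    rw [Nat.factorial_succ]
    push_cast
    rw [Real.exp_add]
    calc ((n : ℝ) + 1) * (n.factorial : ℝ) * (Real.exp n * Real.exp 1)
        = ((n : ℝ) + 1) * Real.exp 1 * ((n.factorial : ℝ) * Real.exp n) := by ring
      _ ≤ ((n : ℝ) + 1) * Real.exp 1 * (Real.exp 1 * (n : ℝ) ^ (n + 1)) := by gcongr
      _ ≤ ((n : ℝ) + 1) * Real.exp 1 * ((n : ℝ) + 1) ^ (n + 1) := by gcongr
      _ = Real.exp 1 * ((n : ℝ) + 1) ^ (n + 1 + 1) := by ring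

lemma poly_le_exp (γ C : ℝ) (hγ : 1 < γ) (k : ℕ) :
    ∀ᶠ t : ℕ in Filter.atTop, C * (t : ℝ) ^ k ≤ γ ^ t := by
  have h1 := isLittleO_pow_const_const_pow_of_one_lt (R := ℝ) k hγ
  have h2 := (h1.const_mul_left C).bound (c := 1) one_pos
  filter_upwards [h2] with t ht
  have h3 : ‖γ ^ t‖ = γ ^ t := by
    rw [Real.norm_of_nonneg]
    positivity
  rw [h3, one_mul] at ht
  exact (le_abs_self _).trans ht

end Pool.Agent.H143R3
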